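import Pool.Agent.Q301.TM.Defs

/-!
# `P`-spaces and products in a model of set theory: definitions

As in `Pool.Agent.Q301.TM.Defs`, `Mem z a` says that `z` is an element of `a` in the sense of the
structure `M`, and a topological space in `M` is given by two elements of `M`: the set `x` of the
points and the set `t` of the open sets (`IsTopology t x`).
-/

namespace Pool.Agent.Q301.BM

open FirstOrder FirstOrder.Language
open Pool.Agent.Helper672.Plain (LSet Mem IsPair IsOrdPair El)
open Pool.Agent.H310Cards (IsProd)
open Pool.Agent.Q301.TM (IsCountable)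

universe u

variable {M : Type u} [LSet.Structure M]

/-- `c` is a `G_δ`-set: the intersection of a nonempty countable set `b` of open sets. -/
def IsGdelta (t c : M) : Prop :=
  ∃ b, IsCountable b ∧ (∃ v, Mem v b) ∧ (∀ v, Mem v b → Mem v t) ∧
    ∀ z, Mem z c ↔ ∀ v, Mem v b → Mem z v

/-- `p` is a `P`-point: it is in the interior of every `G_δ`-set in which it is. -/
def IsPPoint (t p : M) : Prop :=
  ∀ c, IsGdelta t c → Mem p c → ∃ u, Mem u t ∧ Mem p u ∧ ∀ z, Mem z u → Mem z c

/-- The space is a `P`-space: all its points are `P`-points. -/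
def IsPSpace (t x : M) : Prop := ∀ p, Mem p x → IsPPoint t p

/-- `s` is the product topology on the product `z` of the spaces with the topologies `t` and
`t'`: a subset `u` of `z` is open iff for every `(a, b)` in `u` there are open `v` and `v'` with
`a` in `v` and `b` in `v'` such that all pairs of elements of `v` and `v'` are in `u`. -/
def IsProdTopology (s z t t' : M) : Prop :=
  ∀ u, Mem u s ↔ (∀ p, Mem p u → Mem p z) ∧
    ∀ p a b, Mem p u → IsOrdPair p a b → ∃ v v', Mem v t ∧ Mem v' t' ∧ Mem a v ∧ Mem b v' ∧
      ∀ q c d, Mem c v → Mem d v' → IsOrdPair q c d → Mem q u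

end Pool.Agent.Q301.BM
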