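import Pool.Agent.H310R3.PM5
import Pool.Agent.H310R3.Gen

/-!
# The permutation model with a sequence of homogeneous linear orders
-/

set_option maxHeartbeats 1000000
set_option linter.all false
set_option synthInstance.maxSize 2000

namespace Pool.Agent.Q301.BM

open FirstOrder FirstOrder.Language
open Pool.Agent.Helper672.ZFA
open Pool.Agent.Helper672.ZFA.H310M
open Pool.Agent.Helper672.ZFA.H635 (IPerm SymSys IG WFI FEq FMem tw Good feq_of_map feq_iff IsGen
  nd nd_eq mem_nd mem_nd_nd exists_mk mk_eq_nd EqFam NN nn_ext CollL nn_zf mem_NN)
open Pool.Agent.Helper672.Plain (LSet)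
open Pool.Agent.H310

universe u u₁

/-- A homogeneous linear order. -/
structure HT (M : Type u) [L.Structure M] [IsModel M] {T : Type u} [ITy M T] (lt : T → T → Prop) :
    Prop where
  int : Int M (fun q : T × T => lt q.1 q.2)
  irrefl : ∀ x, ¬ lt x x
  trans : ∀ x y z, lt x y → lt y z → lt x z
  total : ∀ x y, lt x y ∨ x = y ∨ lt y x
  hi : ∀ x, ∃ y, lt x y
  lo : ∀ x, ∃ y, lt y x
  ne : Nonempty T
  tr : ∀ s t, ∃ g : IPerm M T, (∀ x y, lt x y → lt (g.1.1 x) (g.1.1 y)) ∧ g.1.1 s = t
  up : ∀ u s t, lt u s → lt u t → ∃ g : IPerm M T, (∀ x y, lt x y → lt (g.1.1 x) (g.1.1 y)) ∧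
    (∀ x, ¬ lt u x → g.1.1 x = x) ∧ g.1.1 s = t
  dn : ∀ u s t, lt s u → lt t u → ∃ g : IPerm M T, (∀ x y, lt x y → lt (g.1.1 x) (g.1.1 y)) ∧
    (∀ x, ¬ lt x u → g.1.1 x = x) ∧ g.1.1 s = t

/-- A sequence of linear orders with many automorphisms in a model: `R (n, (x, y))` says that `x`
and `y` are in the `n`-th copy and `x ≤ y`. -/
structure BD (N : Type u) [L.Structure N] [IsModel N] {α : Type u₁} [ITy N α]
    (R : INat N × (α × α) → Prop) : Prop where
  int : Int N R
  uniq : ∀ m n a, R (m, (a, a)) → R (n, (a, a)) → m = n
  left : ∀ n a b, R (n, (a, b)) → R (n, (a, a))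
  right : ∀ n a b, R (n, (a, b)) → R (n, (b, b))
  total : ∀ n a b, R (n, (a, a)) → R (n, (b, b)) → R (n, (a, b)) ∨ R (n, (b, a))
  antisymm : ∀ n a b, R (n, (a, b)) → R (n, (b, a)) → a = b
  trans : ∀ n a b c, R (n, (a, b)) → R (n, (b, c)) → R (n, (a, c))
  ne : ∀ n, ∃ a, R (n, (a, a))
  top : ∀ n a, R (n, (a, a)) → ∃ b, R (n, (a, b)) ∧ b ≠ a
  bot : ∀ n a, R (n, (a, a)) → ∃ b, R (n, (b, a)) ∧ b ≠ a
  hom : ∀ W : (α × α) × INat N → Prop, Int N W → ∃ m, ∃ s, R (0, (s, s)) ∧
    (∀ n u u' i, m ≤ n → R (n, (u, u)) → R (n, (u', u')) → ¬ R (n, (i, i)) → ∀ k,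
      W ((u, i), k) → W ((u', i), k)) ∧
    (∀ i i' u, R (0, (s, i)) → s ≠ i → R (0, (s, i')) → s ≠ i' → ¬ R (0, (u, u)) → ∀ k,
      W ((u, i), k) → W ((u, i'), k)) ∧
    (∀ n, ∃ w, R (n, (w, w)) ∧ ∀ u u' i, R (n, (w, u)) → w ≠ u → R (n, (w, u')) → w ≠ u' →
      ¬ R (n, (i, i)) → ∀ k, W ((u, i), k) → W ((u', i), k)) ∧
    (∀ n, ∃ w, R (n, (w, w)) ∧ ∀ u u' i, R (n, (u, w)) → u ≠ w → R (n, (u', w)) → u' ≠ w →
      ¬ R (n, (i, i)) → ∀ k, W ((u, i), k) → W ((u', i), k))

section

variable {M : Type u} [L.Structure M] [hM : IsModel M] {T : Type u} [ITy M T] {lt : T → T → Prop}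

/-- The relation. -/
def RB (lt : T → T → Prop) (q : INat M × ((INat M × T) × (INat M × T))) : Prop :=
  q.2.1.1 = q.1 ∧ q.2.2.1 = q.1 ∧ ¬ lt q.2.2.2 q.2.1.2

theorem int_RB (h : HT M lt) : Int M (RB (M := M) lt) := by
  have h' := h.int
  unfold RB
  (repeat' (first | with_reducible exact IntF.id | with_reducible exact IntF.fst' | with_reducible exact IntF.snd' | with_reducible exact IntF.const _ | with_reducible exact Int.const _ | assumption | with_reducible apply Int.and | with_reducible apply Int.or | with_reducible apply Int.not | with_reducible apply Int.imp | with_reducible apply Int.iff | with_reducible apply Int.ne | with_reducible apply Int.eq | with_reducible apply Int.mem | with_reducible apply Int.subset | with_reducible apply Int.ltN | with_reducible apply Int.leN | with_reducible_and_instances apply Int.le | with_reducible_and_instances apply Int.lt | with_reducible apply Int.all | with_reducible apply Int.ex | with_reducible apply IntF.fst | with_reducible apply IntF.snd | with_reducible apply IntF.app | with_reducible apply IntF.inl | with_reducible apply IntF.inr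 | with_reducible_and_instances apply IntF.mul | with_reducible_and_instances apply IntF.inv | with_reducible_and_instances apply IntF.add | with_reducible_and_instances apply IntF.sub | with_reducible_and_instances apply IntF.neg | with_reducible_and_instances apply IntF.smul | with_reducible apply Int.fin | with_reducible apply IntF.sep | with_reducible apply IntF.lam | with_reducible apply IntF.insert | with_reducible apply IntF.singleton | with_reducible apply IntF.union | with_reducible apply IntF.iimage | with_reducible apply IntF.ite | with_reducible apply IntF.the | with_reducible apply IntF.irec | with_reducible apply IntF.succ | with_reducible apply IntF.val | with_reducible apply IntF.mk | (with_reducible refine Int.comp ?_ ?_; assumption) | (with_reducible refine Int.comp₂ ?_ ?_ ?_; assumption) | (with_reducible refine Int.comp₃ ?_ ?_ ?_ ?_; assumption) | (with_reducible refine Int.comp₄ ?_ ?_ ?_ ?_ ?_; assumption) | (with_reducible refine IntF.comp ?_ ?_; assumption) | (with_reducible refine IntF.comp₂ ?_ ?_ ?_; assumption) | (with_reducible refine IntF.comp₃ ?_ ?_ ?_ ?_;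 assumption) | with_reducible apply IntF.pair))

/-- The automorphisms. -/
def HB (lt : T → T → Prop) : Subgroup (IPerm M (INat M × T)) where
  carrier := {g | (∀ x, (g.1.1 x).1 = x.1) ∧
    ∀ x y : INat M × T, x.1 = y.1 → (lt x.2 y.2 ↔ lt (g.1.1 x).2 (g.1.1 y).2)}
  mul_mem' {a b} ha hb := by
    refine ⟨fun x => ?_, fun x y hxy => ?_⟩
    · rw [IPerm.mul_apply, ha.1, hb.1]
    · rw [hb.2 x y hxy, ha.2 (b.1.1 x) (b.1.1 y) (by rw [hb.1, hb.1, hxy]),
        IPerm.mul_apply, IPerm.mul_apply]
  one_mem' := ⟨fun x => by rw [IPerm.one_apply],
    fun x y _ => by rw [IPerm.one_apply, IPerm.one_apply]⟩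
  inv_mem' {a} ha := by
    have e1 : ∀ x, a.1.1 (a.1.2 x) = x := a.2.1
    have h2 : ∀ x, (a.1.2 x).1 = x.1 := fun x => by
      rw [← ha.1 (a.1.2 x), e1]
    refine ⟨h2, fun x y hxy => ?_⟩
    change _ ↔ lt (a.1.2 x).2 (a.1.2 y).2
    rw [ha.2 (a.1.2 x) (a.1.2 y) (by rw [h2, h2, hxy]), e1, e1]

/-- The group of the automorphisms. -/
def GB (h : HT M lt) : PGr M (INat M × T) where
  H := HB lt
  int := by
    have h' := h.int
    change Int M (fun g : IPerm M (INat M × T) => (∀ x, (g.1.1 x).1 = x.1) ∧
      ∀ x y : INat M × T, x.1 = y.1 → (lt x.2 y.2 ↔ lt (g.1.1 x).2 (g.1.1 y).2))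
    (repeat' (first | with_reducible exact IntF.id | with_reducible exact IntF.fst' | with_reducible exact IntF.snd' | with_reducible exact IntF.const _ | with_reducible exact Int.const _ | assumption | with_reducible apply Int.and | with_reducible apply Int.or | with_reducible apply Int.not | with_reducible apply Int.imp | with_reducible apply Int.iff | with_reducible apply Int.ne | with_reducible apply Int.eq | with_reducible apply Int.mem | with_reducible apply Int.subset | with_reducible apply Int.ltN | with_reducible apply Int.leN | with_reducible_and_instances apply Int.le | with_reducible_and_instances apply Int.lt | with_reducible apply Int.all | with_reducible apply Int.ex | with_reducible apply IntF.fst | with_reducible apply IntF.snd | with_reducible apply IntF.app | with_reducible apply IntF.inl | with_reducible apply IntF.inr | with_reducible_and_instances apply IntF.mul | with_reducible_and_instances apply IntF.inv | with_reducible_and_instances apply IntF.add | with_reducible_and_instances apply IntF.sub | with_reducible_and_instances apply IntF.neg | with_reducible_and_instances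 apply IntF.smul | with_reducible apply Int.fin | with_reducible apply IntF.sep | with_reducible apply IntF.lam | with_reducible apply IntF.insert | with_reducible apply IntF.singleton | with_reducible apply IntF.union | with_reducible apply IntF.iimage | with_reducible apply IntF.ite | with_reducible apply IntF.the | with_reducible apply IntF.irec | with_reducible apply IntF.succ | with_reducible apply IntF.val | with_reducible apply IntF.mk | (with_reducible refine Int.comp ?_ ?_; assumption) | (with_reducible refine Int.comp₂ ?_ ?_ ?_; assumption) | (with_reducible refine Int.comp₃ ?_ ?_ ?_ ?_; assumption) | (with_reducible refine Int.comp₄ ?_ ?_ ?_ ?_ ?_; assumption) | (with_reducible refine IntF.comp ?_ ?_; assumption) | (with_reducible refine IntF.comp₂ ?_ ?_ ?_; assumption) | (with_reducible refine IntF.comp₃ ?_ ?_ ?_ ?_; assumption) | with_reducible apply IntF.pair))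

/-- Automorphisms of one copy. -/
theorem exists_lift (h : HT M lt) (n : INat M) {g : IPerm M T}
    (hg : ∀ x y, lt x y → lt (g.1.1 x) (g.1.1 y)) :
    ∃ g' ∈ (GB h).H, (∀ x, x.1 ≠ n → g'.1.1 x = x) ∧ ∀ t, g'.1.1 (n, t) = (n, g.1.1 t) := by
  classical
  have hgi := g.1.1.int
  have hgi' := g.1.2.int
  have hf : IntF M (fun x : INat M × T => if x.1 = n then (x.1, g.1.1 x.2) else x) := by (repeat' (first | with_reducible exact IntF.id | with_reducible exact IntF.fst' | with_reducible exact IntF.snd' | with_reducible exact IntF.const _ | with_reducible exact Int.const _ | assumption | with_reducible apply Int.and | with_reducible apply Int.or | with_reducible apply Int.not | with_reducible apply Int.imp | with_reducible apply Int.iff | with_reducible apply Int.ne | with_reducible apply Int.eq | with_reducible apply Int.mem | with_reducible apply Int.subset | with_reducible apply Int.ltN | with_reducible apply Int.leN | with_reducible_and_instances apply Int.le | with_reducible_and_instances apply Int.lt | with_reducible apply Int.all | with_reducible apply Int.ex | with_reducible apply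 IntF.fst | with_reducible apply IntF.snd | with_reducible apply IntF.app | with_reducible apply IntF.inl | with_reducible apply IntF.inr | with_reducible_and_instances apply IntF.mul | with_reducible_and_instances apply IntF.inv | with_reducible_and_instances apply IntF.add | with_reducible_and_instances apply IntF.sub | with_reducible_and_instances apply IntF.neg | with_reducible_and_instances apply IntF.smul | with_reducible apply Int.fin | with_reducible apply IntF.sep | with_reducible apply IntF.lam | with_reducible apply IntF.insert | with_reducible apply IntF.singleton | with_reducible apply IntF.union | with_reducible apply IntF.iimage | with_reducible apply IntF.ite | with_reducible apply IntF.the | with_reducible apply IntF.irec | with_reducible apply IntF.succ | with_reducible apply IntF.val | with_reducible apply IntF.mk | (with_reducible refine Int.comp ?_ ?_; assumption) | (with_reducible refine Int.comp₂ ?_ ?_ ?_; assumption) | (with_reducible refine Int.comp₃ ?_ ?_ ?_ ?_; assumption) | (with_reducible refine Int.comp₄ ?_ ?_ ?_ ?_ ?_; assumption) | (with_reducible refine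 IntF.comp ?_ ?_; assumption) | (with_reducible refine IntF.comp₂ ?_ ?_ ?_; assumption) | (with_reducible refine IntF.comp₃ ?_ ?_ ?_ ?_; assumption) | with_reducible apply IntF.pair))
  have hf' : IntF M (fun x : INat M × T => if x.1 = n then (x.1, g.1.2 x.2) else x) := by (repeat' (first | with_reducible exact IntF.id | with_reducible exact IntF.fst' | with_reducible exact IntF.snd' | with_reducible exact IntF.const _ | with_reducible exact Int.const _ | assumption | with_reducible apply Int.and | with_reducible apply Int.or | with_reducible apply Int.not | with_reducible apply Int.imp | with_reducible apply Int.iff | with_reducible apply Int.ne | with_reducible apply Int.eq | with_reducible apply Int.mem | with_reducible apply Int.subset | with_reducible apply Int.ltN | with_reducible apply Int.leN | with_reducible_and_instances apply Int.le | with_reducible_and_instances apply Int.lt | with_reducible apply Int.all | with_reducible apply Int.ex | with_reducible apply IntF.fst | with_reducible apply IntF.snd | with_reducible apply IntF.app | with_reducible apply IntF.inl | with_reducible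 apply IntF.inr | with_reducible_and_instances apply IntF.mul | with_reducible_and_instances apply IntF.inv | with_reducible_and_instances apply IntF.add | with_reducible_and_instances apply IntF.sub | with_reducible_and_instances apply IntF.neg | with_reducible_and_instances apply IntF.smul | with_reducible apply Int.fin | with_reducible apply IntF.sep | with_reducible apply IntF.lam | with_reducible apply IntF.insert | with_reducible apply IntF.singleton | with_reducible apply IntF.union | with_reducible apply IntF.iimage | with_reducible apply IntF.ite | with_reducible apply IntF.the | with_reducible apply IntF.irec | with_reducible apply IntF.succ | with_reducible apply IntF.val | with_reducible apply IntF.mk | (with_reducible refine Int.comp ?_ ?_; assumption) | (with_reducible refine Int.comp₂ ?_ ?_ ?_; assumption) | (with_reducible refine Int.comp₃ ?_ ?_ ?_ ?_; assumption) | (with_reducible refine Int.comp₄ ?_ ?_ ?_ ?_ ?_; assumption) | (with_reducible refine IntF.comp ?_ ?_; assumption) | (with_reducible refine IntF.comp₂ ?_ ?_ ?_; assumption) | (with_reducible refine IntF.comp₃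 ?_ ?_ ?_ ?_; assumption) | with_reducible apply IntF.pair))
  have hiff : ∀ x y, lt x y ↔ lt (g.1.1 x) (g.1.1 y) := by
    intro x y
    refine ⟨hg x y, fun h1 => ?_⟩
    rcases h.total x y with h2 | h2 | h2
    · exact h2
    · rw [h2] at h1
      exact absurd h1 (h.irrefl _)
    · exact absurd (h.trans _ _ _ h1 (hg _ _ h2)) (h.irrefl _)
  refine ⟨⟨(⟨_, hf⟩, ⟨_, hf'⟩), fun x => ?_, fun x => ?_⟩, ⟨fun x => ?_, fun x y hxy => ?_⟩,
    fun x hx => if_neg hx, fun x => if_pos rfl⟩
  · change (if (if x.1 = n then (x.1, g.1.2 x.2) else x).1 = n then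
      ((if x.1 = n then (x.1, g.1.2 x.2) else x).1, g.1.1 (if x.1 = n then (x.1, g.1.2 x.2) else x).2)
      else (if x.1 = n then (x.1, g.1.2 x.2) else x)) = x
    by_cases h1 : x.1 = n
    · simp only [if_pos h1, g.2.1]
    · simp only [if_neg h1]
  · change (if (if x.1 = n then (x.1, g.1.1 x.2) else x).1 = n then
      ((if x.1 = n then (x.1, g.1.1 x.2) else x).1, g.1.2 (if x.1 = n then (x.1, g.1.1 x.2) else x).2)
      else (if x.1 = n then (x.1, g.1.1 x.2) else x)) = x
    by_cases h1 : x.1 = n
    · simp only [if_pos h1, g.2.2]
    · simp only [if_neg h1]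
  · change (if x.1 = n then (x.1, g.1.1 x.2) else x).1 = x.1
    split_ifs <;> rfl
  · change lt x.2 y.2 ↔ lt (if x.1 = n then (x.1, g.1.1 x.2) else x).2
      (if y.1 = n then (y.1, g.1.1 y.2) else y).2
    by_cases hx : x.1 = n
    · have hy : y.1 = n := hxy.symm.trans hx
      rw [if_pos hx, if_pos hy]
      exact hiff _ _
    · have hy : ¬ y.1 = n := fun h => hx (hxy.trans h)
      rw [if_neg hx, if_neg hy]

/-- An upper bound of the elements of a finite set in a copy. -/
theorem exists_ub (h : HT M lt) (E : FS M (INat M × T)) (n : INat M) :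
    ∃ v : T, ∀ x, x ∈ E.1 → x.1 = n → ¬ lt v x.2 := by
  have hl := h.int
  refine IFin.exists_bound (r := fun (x : INat M × T) (v : T) => x.1 = n → ¬ lt v x.2)
    (by (repeat' (first | with_reducible exact IntF.id | with_reducible exact IntF.fst' | with_reducible exact IntF.snd' | with_reducible exact IntF.const _ | with_reducible exact Int.const _ | assumption | with_reducible apply Int.and | with_reducible apply Int.or | with_reducible apply Int.not | with_reducible apply Int.imp | with_reducible apply Int.iff | with_reducible apply Int.ne | with_reducible apply Int.eq | with_reducible apply Int.mem | with_reducible apply Int.subset | with_reducible apply Int.ltN | with_reducible apply Int.leN | with_reducible_and_instances apply Int.le | with_reducible_and_instances apply Int.lt | with_reducible apply Int.all | with_reducible apply Int.ex | with_reducible apply IntF.fst | with_reducible apply IntF.snd | with_reducible apply IntF.app | with_reducible apply IntF.inl | with_reducible apply IntF.inr | with_reducible_and_instances apply IntF.mul | with_reducible_and_instances apply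 IntF.inv | with_reducible_and_instances apply IntF.add | with_reducible_and_instances apply IntF.sub | with_reducible_and_instances apply IntF.neg | with_reducible_and_instances apply IntF.smul | with_reducible apply Int.fin | with_reducible apply IntF.sep | with_reducible apply IntF.lam | with_reducible apply IntF.insert | with_reducible apply IntF.singleton | with_reducible apply IntF.union | with_reducible apply IntF.iimage | with_reducible apply IntF.ite | with_reducible apply IntF.the | with_reducible apply IntF.irec | with_reducible apply IntF.succ | with_reducible apply IntF.val | with_reducible apply IntF.mk | (with_reducible refine Int.comp ?_ ?_; assumption) | (with_reducible refine Int.comp₂ ?_ ?_ ?_; assumption) | (with_reducible refine Int.comp₃ ?_ ?_ ?_ ?_; assumption) | (with_reducible refine Int.comp₄ ?_ ?_ ?_ ?_ ?_; assumption) | (with_reducible refine IntF.comp ?_ ?_; assumption) | (with_reducible refine IntF.comp₂ ?_ ?_ ?_; assumption) | (with_reducible refine IntF.comp₃ ?_ ?_ ?_ ?_; assumption) | with_reducible apply IntF.pair))) (fun b c => ?_) h.ne E.2 fun a _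 => ⟨a.2, fun _ => h.irrefl _⟩
  rcases h.total b c with h1 | rfl | h1
  · exact ⟨c, fun a ha h2 h3 => ha.elim (fun h4 => h4 h2 (h.trans _ _ _ h1 h3)) fun h4 => h4 h2 h3⟩
  · exact ⟨b, fun a ha => ha.elim id id⟩
  · exact ⟨b, fun a ha h2 h3 => ha.elim (fun h4 => h4 h2 h3) fun h4 => h4 h2 (h.trans _ _ _ h1 h3)⟩

/-- A lower bound of the elements of a finite set in a copy. -/
theorem exists_lb (h : HT M lt) (E : FS M (INat M × T)) (n : INat M) :
    ∃ v : T, ∀ x, x ∈ E.1 → x.1 = n → ¬ lt x.2 v := by
  have hl := h.int
  refine IFin.exists_bound (r := fun (x : INat M × T) (v : T) => x.1 = n → ¬ lt x.2 v)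
    (by (repeat' (first | with_reducible exact IntF.id | with_reducible exact IntF.fst' | with_reducible exact IntF.snd' | with_reducible exact IntF.const _ | with_reducible exact Int.const _ | assumption | with_reducible apply Int.and | with_reducible apply Int.or | with_reducible apply Int.not | with_reducible apply Int.imp | with_reducible apply Int.iff | with_reducible apply Int.ne | with_reducible apply Int.eq | with_reducible apply Int.mem | with_reducible apply Int.subset | with_reducible apply Int.ltN | with_reducible apply Int.leN | with_reducible_and_instances apply Int.le | with_reducible_and_instances apply Int.lt | with_reducible apply Int.all | with_reducible apply Int.ex | with_reducible apply IntF.fst | with_reducible apply IntF.snd | with_reducible apply IntF.app | with_reducible apply IntF.inl | with_reducible apply IntF.inr | with_reducible_and_instances apply IntF.mul | with_reducible_and_instances apply IntF.inv | with_reducible_and_instances apply IntF.add | with_reducible_and_instances apply IntF.sub | with_reducible_and_instances apply IntF.neg | with_reducible_and_instances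 apply IntF.smul | with_reducible apply Int.fin | with_reducible apply IntF.sep | with_reducible apply IntF.lam | with_reducible apply IntF.insert | with_reducible apply IntF.singleton | with_reducible apply IntF.union | with_reducible apply IntF.iimage | with_reducible apply IntF.ite | with_reducible apply IntF.the | with_reducible apply IntF.irec | with_reducible apply IntF.succ | with_reducible apply IntF.val | with_reducible apply IntF.mk | (with_reducible refine Int.comp ?_ ?_; assumption) | (with_reducible refine Int.comp₂ ?_ ?_ ?_; assumption) | (with_reducible refine Int.comp₃ ?_ ?_ ?_ ?_; assumption) | (with_reducible refine Int.comp₄ ?_ ?_ ?_ ?_ ?_; assumption) | (with_reducible refine IntF.comp ?_ ?_; assumption) | (with_reducible refine IntF.comp₂ ?_ ?_ ?_; assumption) | (with_reducible refine IntF.comp₃ ?_ ?_ ?_ ?_; assumption) | with_reducible apply IntF.pair))) (fun b c => ?_) h.ne E.2 fun a _ => ⟨a.2, fun _ => h.irrefl _⟩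
  rcases h.total b c with h1 | rfl | h1
  · exact ⟨b, fun a ha h2 h3 => ha.elim (fun h4 => h4 h2 h3) fun h4 => h4 h2 (h.trans _ _ _ h3 h1)⟩
  · exact ⟨b, fun a ha => ha.elim id id⟩
  · exact ⟨c, fun a ha h2 h3 => ha.elim (fun h4 => h4 h2 (h.trans _ _ _ h3 h1)) fun h4 => h4 h2 h3⟩

end

section ext

variable {M : Type u} [L.Structure M] [hM : IsModel M] {X : Type u} [ITy M X] {Z : PGr M X}
variable {G : Set (Co M X)} (hG : IsGen M G) (hC : CollL M)

/-- Homogeneity of relations between pairs and numbers. -/
theorem exists_hom₂ {W : (El (AA Z hG) × El (AA Z hG)) × INat (NN (SS Z) hG) → Prop}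
    (hW : Int (NN (SS Z) hG) W) :
    ∃ E : FS M X, ∀ g ∈ Z.H, (∀ x, x ∈ E.1 → g.1.1 x = x) → ∀ x y n,
      W ((cA Z hG x, cA Z hG y), nnN Z hG hC n) →
        W ((cA Z hG (g.1.1 x), cA Z hG (g.1.1 y)), nnN Z hG hC n) := by
  obtain ⟨z, hz⟩ := hW
  obtain ⟨E, hE⟩ := support hG z
  have h0 : EF Z hG (fun (g : IPerm M X) (q : (X × X) × INat M) => ((g.1.1 q.1.1, g.1.1 q.1.2), q.2))
      (fun q => op (cc Z hG q.1.1) (cc Z hG q.1.2)) := by
    refine EF.op hG (fun g b => Prod.ext (Prod.ext (g.2.2 _) (g.2.2 _)) rfl) ?_ ?_
    · exact EF.comp hG (ef_cc hG) (φ := fun q : (X × X) × INat M => q.1.1) (by (repeat' (first | with_reducible exact IntF.id | with_reducible exact IntF.fst' | with_reducible exact IntF.snd' | with_reducible exact IntF.const _ | with_reducible exact Int.const _ | assumption | with_reducible apply Int.and | with_reducible apply Int.or | with_reducible apply Int.not | with_reducible apply Int.imp | with_reducible apply Int.iff | with_reducible apply Int.ne | with_reducible apply Int.eq | with_reducible apply Int.mem | with_reducible apply Int.subset | with_reducible apply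 Int.ltN | with_reducible apply Int.leN | with_reducible_and_instances apply Int.le | with_reducible_and_instances apply Int.lt | with_reducible apply Int.all | with_reducible apply Int.ex | with_reducible apply IntF.fst | with_reducible apply IntF.snd | with_reducible apply IntF.app | with_reducible apply IntF.inl | with_reducible apply IntF.inr | with_reducible_and_instances apply IntF.mul | with_reducible_and_instances apply IntF.inv | with_reducible_and_instances apply IntF.add | with_reducible_and_instances apply IntF.sub | with_reducible_and_instances apply IntF.neg | with_reducible_and_instances apply IntF.smul | with_reducible apply Int.fin | with_reducible apply IntF.sep | with_reducible apply IntF.lam | with_reducible apply IntF.insert | with_reducible apply IntF.singleton | with_reducible apply IntF.union | with_reducible apply IntF.iimage | with_reducible apply IntF.ite | with_reducible apply IntF.the | with_reducible apply IntF.irec | with_reducible apply IntF.succ | with_reducible apply IntF.val | with_reducible apply IntF.mk | (with_reducible refine Int.comp ?_ ?_; assumption)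 | (with_reducible refine Int.comp₂ ?_ ?_ ?_; assumption) | (with_reducible refine Int.comp₃ ?_ ?_ ?_ ?_; assumption) | (with_reducible refine Int.comp₄ ?_ ?_ ?_ ?_ ?_; assumption) | (with_reducible refine IntF.comp ?_ ?_; assumption) | (with_reducible refine IntF.comp₂ ?_ ?_ ?_; assumption) | (with_reducible refine IntF.comp₃ ?_ ?_ ?_ ?_; assumption) | with_reducible apply IntF.pair))) fun _ _ => rfl
    · exact EF.comp hG (ef_cc hG) (φ := fun q : (X × X) × INat M => q.1.2) (by (repeat' (first | with_reducible exact IntF.id | with_reducible exact IntF.fst' | with_reducible exact IntF.snd' | with_reducible exact IntF.const _ | with_reducible exact Int.const _ | assumption | with_reducible apply Int.and | with_reducible apply Int.or | with_reducible apply Int.not | with_reducible apply Int.imp | with_reducible apply Int.iff | with_reducible apply Int.ne | with_reducible apply Int.eq | with_reducible apply Int.mem | with_reducible apply Int.subset | with_reducible apply Int.ltN | with_reducible apply Int.leN | with_reducible_and_instances apply Int.le | with_reducible_and_instances apply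 Int.lt | with_reducible apply Int.all | with_reducible apply Int.ex | with_reducible apply IntF.fst | with_reducible apply IntF.snd | with_reducible apply IntF.app | with_reducible apply IntF.inl | with_reducible apply IntF.inr | with_reducible_and_instances apply IntF.mul | with_reducible_and_instances apply IntF.inv | with_reducible_and_instances apply IntF.add | with_reducible_and_instances apply IntF.sub | with_reducible_and_instances apply IntF.neg | with_reducible_and_instances apply IntF.smul | with_reducible apply Int.fin | with_reducible apply IntF.sep | with_reducible apply IntF.lam | with_reducible apply IntF.insert | with_reducible apply IntF.singleton | with_reducible apply IntF.union | with_reducible apply IntF.iimage | with_reducible apply IntF.ite | with_reducible apply IntF.the | with_reducible apply IntF.irec | with_reducible apply IntF.succ | with_reducible apply IntF.val | with_reducible apply IntF.mk | (with_reducible refine Int.comp ?_ ?_; assumption) | (with_reducible refine Int.comp₂ ?_ ?_ ?_; assumption) | (with_reducible refine Int.comp₃ ?_ ?_ ?_ ?_; assumption)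 | (with_reducible refine Int.comp₄ ?_ ?_ ?_ ?_ ?_; assumption) | (with_reducible refine IntF.comp ?_ ?_; assumption) | (with_reducible refine IntF.comp₂ ?_ ?_ ?_; assumption) | (with_reducible refine IntF.comp₃ ?_ ?_ ?_ ?_; assumption) | with_reducible apply IntF.pair))) fun _ _ => rfl
  have h1 : EF Z hG (fun (g : IPerm M X) (q : (X × X) × INat M) => ((g.1.1 q.1.1, g.1.1 q.1.2), q.2))
      (fun q => op (op (cc Z hG q.1.1) (cc Z hG q.1.2)) (nn Z hG q.2)) := by
    refine EF.op hG (fun g b => Prod.ext (Prod.ext (g.2.2 _) (g.2.2 _)) rfl) h0 ?_
    exact EF.comp hG (ef_nn hG) (φ := fun q : (X × X) × INat M => q.2) (by (repeat' (first | with_reducible exact IntF.id | with_reducible exact IntF.fst' | with_reducible exact IntF.snd' | with_reducible exact IntF.const _ | with_reducible exact Int.const _ | assumption | with_reducible apply Int.and | with_reducible apply Int.or | with_reducible apply Int.not | with_reducible apply Int.imp | with_reducible apply Int.iff | with_reducible apply Int.ne | with_reducible apply Int.eq | with_reducible apply Int.mem | with_reducible apply Int.subset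 | with_reducible apply Int.ltN | with_reducible apply Int.leN | with_reducible_and_instances apply Int.le | with_reducible_and_instances apply Int.lt | with_reducible apply Int.all | with_reducible apply Int.ex | with_reducible apply IntF.fst | with_reducible apply IntF.snd | with_reducible apply IntF.app | with_reducible apply IntF.inl | with_reducible apply IntF.inr | with_reducible_and_instances apply IntF.mul | with_reducible_and_instances apply IntF.inv | with_reducible_and_instances apply IntF.add | with_reducible_and_instances apply IntF.sub | with_reducible_and_instances apply IntF.neg | with_reducible_and_instances apply IntF.smul | with_reducible apply Int.fin | with_reducible apply IntF.sep | with_reducible apply IntF.lam | with_reducible apply IntF.insert | with_reducible apply IntF.singleton | with_reducible apply IntF.union | with_reducible apply IntF.iimage | with_reducible apply IntF.ite | with_reducible apply IntF.the | with_reducible apply IntF.irec | with_reducible apply IntF.succ | with_reducible apply IntF.val | with_reducible apply IntF.mk | (with_reducible refine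 Int.comp ?_ ?_; assumption) | (with_reducible refine Int.comp₂ ?_ ?_ ?_; assumption) | (with_reducible refine Int.comp₃ ?_ ?_ ?_ ?_; assumption) | (with_reducible refine Int.comp₄ ?_ ?_ ?_ ?_ ?_; assumption) | (with_reducible refine IntF.comp ?_ ?_; assumption) | (with_reducible refine IntF.comp₂ ?_ ?_ ?_; assumption) | (with_reducible refine IntF.comp₃ ?_ ?_ ?_ ?_; assumption) | with_reducible apply IntF.pair))) fun _ _ => rfl
  refine ⟨E, fun g hg hgE x y n h => ?_⟩
  have h2 : Mem (op (op (cc Z hG x) (cc Z hG y)) (nn Z hG n)) z :=
    (hz ((cA Z hG x, cA Z hG y), nnN Z hG hC n)).2 h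
  have h3 : Mem (op (op (cc Z hG (g.1.1 x)) (cc Z hG (g.1.1 y))) (nn Z hG n)) z :=
    hE _ _ _ _ h1 g hg hgE ((x, y), n) h2
  exact (hz ((cA Z hG (g.1.1 x), cA Z hG (g.1.1 y)), nnN Z hG hC n)).1 h3

end ext

section ext

variable {M : Type u} [L.Structure M] [hM : IsModel M] {T : Type u} [ITy M T] {lt : T → T → Prop}
variable (h : HT M lt) {G : Set (Co M (INat M × T))} (hG : IsGen M G) (hC : CollL M)

include hC in
/-- The model has a sequence of homogeneous linear orders. -/
theorem exists_bd : ∃ R, BD (NN (SS (GB h)) hG) (α := El (AA (GB h) hG)) R := by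
  obtain ⟨R, hR, hR'⟩ := exists_rel (Z := GB h) hG hC (int_RB h)
    (fun g hg n x y h1 => by
      obtain ⟨h2, h3, h4⟩ := h1
      exact ⟨(hg.1 x).trans h2, (hg.1 y).trans h3, fun h5 =>
        h4 ((hg.2 y x (h3.trans h2.symm)).2 h5)⟩)
  have hn := nnN_surj (Z := GB h) hG hC
  have hc := cA_surj (Z := GB h) hG
  have hle : ∀ m n : INat M, nnN (GB h) hG hC m ≤ nnN (GB h) hG hC n ↔ m ≤ n := fun m n => by
    rw [← not_lt, ← not_lt, nnN_lt]
  have hrefl : ∀ n x, R (nnN (GB h) hG hC n, (cA (GB h) hG x, cA (GB h) hG x)) ↔ x.1 = n := by
    intro n x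
    rw [hR']
    exact ⟨fun h1 => h1.1, fun h1 => ⟨h1, h1, h.irrefl _⟩⟩
  have hlt : ∀ n x y, R (nnN (GB h) hG hC n, (cA (GB h) hG x, cA (GB h) hG y)) →
      cA (GB h) hG x ≠ cA (GB h) hG y → x.1 = n ∧ y.1 = n ∧ lt x.2 y.2 := by
    intro n x y h1 h2
    rw [hR'] at h1
    rw [Ne, cA_inj] at h2
    refine ⟨h1.1, h1.2.1, ?_⟩
    rcases h.total x.2 y.2 with h3 | h3 | h3
    · exact h3
    · exact absurd (Prod.ext (h1.1.trans h1.2.1.symm) h3) h2
    · exact absurd h3 h1.2.2
  have hz : nnN (GB h) hG hC 0 = 0 := nnN_zero hG hC
  refine ⟨R, ⟨hR, fun m n a h1 h2 => ?_, fun n a b h1 => ?_, fun n a b h1 => ?_,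
    fun n a b h1 h2 => ?_, fun n a b h1 h2 => ?_, fun n a b c h1 h2 => ?_, fun n => ?_,
    fun n a h1 => ?_, fun n a h1 => ?_, fun W hW => ?_⟩⟩
  · obtain ⟨m, rfl⟩ := hn m
    obtain ⟨n, rfl⟩ := hn n
    obtain ⟨a, rfl⟩ := hc a
    rw [hrefl] at h1 h2
    rw [← h1, ← h2]
  · obtain ⟨n, rfl⟩ := hn n
    obtain ⟨a, rfl⟩ := hc a
    obtain ⟨b, rfl⟩ := hc b
    rw [hR'] at h1
    rw [hrefl]
    exact h1.1
  · obtain ⟨n, rfl⟩ := hn n
    obtain ⟨a, rfl⟩ := hc a
    obtain ⟨b, rfl⟩ := hc b
    rw [hR'] at h1
    rw [hrefl]
    exact h1.2.1
  · obtain ⟨n, rfl⟩ := hn n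
    obtain ⟨a, rfl⟩ := hc a
    obtain ⟨b, rfl⟩ := hc b
    rw [hrefl] at h1 h2
    rw [hR', hR']
    rcases h.total a.2 b.2 with h3 | h3 | h3
    · exact Or.inl ⟨h1, h2, fun h4 => h.irrefl _ (h.trans _ _ _ h3 h4)⟩
    · exact Or.inl ⟨h1, h2, by
        change ¬ lt b.2 a.2
        rw [h3]
        exact h.irrefl _⟩
    · exact Or.inr ⟨h2, h1, fun h4 => h.irrefl _ (h.trans _ _ _ h3 h4)⟩
  · obtain ⟨n, rfl⟩ := hn n
    obtain ⟨a, rfl⟩ := hc a
    obtain ⟨b, rfl⟩ := hc b
    rw [hR'] at h1 h2
    rw [cA_inj]
    refine Prod.ext (h1.1.trans h1.2.1.symm) ?_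
    rcases h.total a.2 b.2 with h3 | h3 | h3
    · exact absurd h3 h2.2.2
    · exact h3
    · exact absurd h3 h1.2.2
  · obtain ⟨n, rfl⟩ := hn n
    obtain ⟨a, rfl⟩ := hc a
    obtain ⟨b, rfl⟩ := hc b
    obtain ⟨c, rfl⟩ := hc c
    rw [hR'] at h1 h2 ⊢
    refine ⟨h1.1, h2.2.1, fun h3 => ?_⟩
    rcases h.total a.2 b.2 with h4 | h4 | h4
    · exact h2.2.2 (h.trans _ _ _ h3 h4)
    · apply h2.2.2
      change lt c.2 b.2
      rw [← h4]
      exact h3
    · exact h1.2.2 h4
  · obtain ⟨n, rfl⟩ := hn n
    obtain ⟨t⟩ := h.ne
    exact ⟨cA (GB h) hG (n, t), (hrefl _ _).2 rfl⟩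
  · obtain ⟨n, rfl⟩ := hn n
    obtain ⟨a, rfl⟩ := hc a
    rw [hrefl] at h1
    obtain ⟨y, hy⟩ := h.hi a.2
    refine ⟨cA (GB h) hG (n, y), (hR' _ _ _).2 ⟨h1, rfl, fun h4 => h.irrefl _ (h.trans _ _ _ hy h4)⟩, ?_⟩
    rw [Ne, cA_inj]
    rintro rfl
    exact h.irrefl _ hy
  · obtain ⟨n, rfl⟩ := hn n
    obtain ⟨a, rfl⟩ := hc a
    rw [hrefl] at h1
    obtain ⟨y, hy⟩ := h.lo a.2
    refine ⟨cA (GB h) hG (n, y), (hR' _ _ _).2 ⟨rfl, h1, fun h4 => h.irrefl _ (h.trans _ _ _ hy h4)⟩, ?_⟩
    rw [Ne, cA_inj]
    rintro rfl
    exact h.irrefl _ hy
  · obtain ⟨E, hE⟩ := exists_hom₂ (Z := GB h) hG hC hW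
    obtain ⟨m, hm⟩ := IFin.exists_bound (r := fun (x : INat M × T) (n : INat M) => x.1 < n)
      (by (repeat' (first | with_reducible exact IntF.id | with_reducible exact IntF.fst' | with_reducible exact IntF.snd' | with_reducible exact IntF.const _ | with_reducible exact Int.const _ | assumption | with_reducible apply Int.and | with_reducible apply Int.or | with_reducible apply Int.not | with_reducible apply Int.imp | with_reducible apply Int.iff | with_reducible apply Int.ne | with_reducible apply Int.eq | with_reducible apply Int.mem | with_reducible apply Int.subset | with_reducible apply Int.ltN | with_reducible apply Int.leN | with_reducible_and_instances apply Int.le | with_reducible_and_instances apply Int.lt | with_reducible apply Int.all | with_reducible apply Int.ex | with_reducible apply IntF.fst | with_reducible apply IntF.snd | with_reducible apply IntF.app | with_reducible apply IntF.inl | with_reducible apply IntF.inr | with_reducible_and_instances apply IntF.mul | with_reducible_and_instances apply IntF.inv | with_reducible_and_instances apply IntF.add | with_reducible_and_instances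 apply IntF.sub | with_reducible_and_instances apply IntF.neg | with_reducible_and_instances apply IntF.smul | with_reducible apply Int.fin | with_reducible apply IntF.sep | with_reducible apply IntF.lam | with_reducible apply IntF.insert | with_reducible apply IntF.singleton | with_reducible apply IntF.union | with_reducible apply IntF.iimage | with_reducible apply IntF.ite | with_reducible apply IntF.the | with_reducible apply IntF.irec | with_reducible apply IntF.succ | with_reducible apply IntF.val | with_reducible apply IntF.mk | (with_reducible refine Int.comp ?_ ?_; assumption) | (with_reducible refine Int.comp₂ ?_ ?_ ?_; assumption) | (with_reducible refine Int.comp₃ ?_ ?_ ?_ ?_; assumption) | (with_reducible refine Int.comp₄ ?_ ?_ ?_ ?_ ?_; assumption) | (with_reducible refine IntF.comp ?_ ?_; assumption) | (with_reducible refine IntF.comp₂ ?_ ?_ ?_; assumption) | (with_reducible refine IntF.comp₃ ?_ ?_ ?_ ?_; assumption) | with_reducible apply IntF.pair))) (fun b c => ⟨max b c, fun a ha => ha.elim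
        (fun h => lt_of_lt_of_le h (le_max_left _ _))
        fun h => lt_of_lt_of_le h (le_max_right _ _)⟩) ⟨0⟩ E.2
      fun a _ => ⟨a.1.succ, INat.lt_succ_self _⟩
    obtain ⟨s, hs⟩ := exists_ub h E 0
    refine ⟨nnN (GB h) hG hC m, cA (GB h) hG (0, s), ?_, ?_, ?_, ?_, ?_⟩
    · rw [← hz, hrefl]
    · intro n u u' i hmn hu hu' hi k hk
      obtain ⟨n, rfl⟩ := hn n
      obtain ⟨u, rfl⟩ := hc u
      obtain ⟨u', rfl⟩ := hc u'
      obtain ⟨i, rfl⟩ := hc i
      obtain ⟨k, rfl⟩ := hn k
      rw [hle] at hmn
      rw [hrefl] at hu hu' hi
      obtain ⟨g, hg1, hg2⟩ := h.tr u.2 u'.2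
      obtain ⟨g', hg', h1, h2⟩ := exists_lift h n hg1
      have h3 := hE g' hg' (fun x hx => h1 x fun h4 => ?_) u i k hk
      · have h4 : u = (n, u.2) := Prod.ext hu rfl
        have h5 : u' = (n, u'.2) := Prod.ext hu' rfl
        rw [h1 i hi, h4, h2, hg2, ← h5] at h3
        exact h3
      · have h5 := hm x hx
        rw [h4] at h5
        exact absurd hmn (not_le.2 h5)
    · intro i i' u hi hi1 hi' hi1' hu k hk
      obtain ⟨u, rfl⟩ := hc u
      obtain ⟨i, rfl⟩ := hc i
      obtain ⟨i', rfl⟩ := hc i'
      obtain ⟨k, rfl⟩ := hn k
      rw [← hz] at hi hi' hu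
      rw [hrefl] at hu
      obtain ⟨-, hi2, hi3⟩ := hlt _ _ _ hi hi1
      obtain ⟨-, hi2', hi3'⟩ := hlt _ _ _ hi' hi1'
      obtain ⟨g, hg1, hg2, hg3⟩ := h.up s i.2 i'.2 hi3 hi3'
      obtain ⟨g', hg', h1, h2⟩ := exists_lift h 0 hg1
      have h3 := hE g' hg' (fun x hx => ?_) u i k hk
      · have h4 : i = (0, i.2) := Prod.ext hi2 rfl
        have h5 : i' = (0, i'.2) := Prod.ext hi2' rfl
        rw [h1 u hu, h4, h2, hg3, ← h5] at h3
        exact h3
      · by_cases h4 : x.1 = 0
        · have h5 : x = (0, x.2) := Prod.ext h4 rfl
          rw [h5, h2, hg2 _ (hs x hx h4)]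
        · exact h1 x h4
    · intro n
      obtain ⟨n, rfl⟩ := hn n
      obtain ⟨w, hw⟩ := exists_ub h E n
      refine ⟨cA (GB h) hG (n, w), (hrefl _ _).2 rfl, fun u u' i hu hu1 hu' hu1' hi k hk => ?_⟩
      obtain ⟨u, rfl⟩ := hc u
      obtain ⟨u', rfl⟩ := hc u'
      obtain ⟨i, rfl⟩ := hc i
      obtain ⟨k, rfl⟩ := hn k
      rw [hrefl] at hi
      obtain ⟨-, hu2, hu3⟩ := hlt _ _ _ hu hu1
      obtain ⟨-, hu2', hu3'⟩ := hlt _ _ _ hu' hu1'
      obtain ⟨g, hg1, hg2, hg3⟩ := h.up w u.2 u'.2 hu3 hu3'
      obtain ⟨g', hg', h1, h2⟩ := exists_lift h n hg1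
      have h3 := hE g' hg' (fun x hx => ?_) u i k hk
      · have h4 : u = (n, u.2) := Prod.ext hu2 rfl
        have h5 : u' = (n, u'.2) := Prod.ext hu2' rfl
        rw [h1 i hi, h4, h2, hg3, ← h5] at h3
        exact h3
      · by_cases h4 : x.1 = n
        · have h5 : x = (n, x.2) := Prod.ext h4 rfl
          rw [h5, h2, hg2 _ (hw x hx h4)]
        · exact h1 x h4
    · intro n
      obtain ⟨n, rfl⟩ := hn n
      obtain ⟨w, hw⟩ := exists_lb h E n
      refine ⟨cA (GB h) hG (n, w), (hrefl _ _).2 rfl, fun u u' i hu hu1 hu' hu1' hi k hk => ?_⟩
      obtain ⟨u, rfl⟩ := hc u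
      obtain ⟨u', rfl⟩ := hc u'
      obtain ⟨i, rfl⟩ := hc i
      obtain ⟨k, rfl⟩ := hn k
      rw [hrefl] at hi
      obtain ⟨hu2, -, hu3⟩ := hlt _ _ _ hu hu1
      obtain ⟨hu2', -, hu3'⟩ := hlt _ _ _ hu' hu1'
      obtain ⟨g, hg1, hg2, hg3⟩ := h.dn w u.2 u'.2 hu3 hu3'
      obtain ⟨g', hg', h1, h2⟩ := exists_lift h n hg1
      have h3 := hE g' hg' (fun x hx => ?_) u i k hk
      · have h4 : u = (n, u.2) := Prod.ext hu2 rfl
        have h5 : u' = (n, u'.2) := Prod.ext hu2' rfl
        rw [h1 i hi, h4, h2, hg3, ← h5] at h3
        exact h3
      · by_cases h4 : x.1 = n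
        · have h5 : x = (n, x.2) := Prod.ext h4 rfl
          rw [h5, h2, hg2 _ (hw x hx h4)]
        · exact h1 x h4

end ext

end Pool.Agent.Q301.BM
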