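import Pool.Agent.Q301.BM.Sp
import Pool.Agent.Q301.BM.Mod

/-!
# Two `P`-spaces whose product is not a `P`-space
-/

set_option maxHeartbeats 1000000
set_option linter.all false
set_option synthInstance.maxSize 2000

namespace Pool.Agent.Q301.BM

open FirstOrder FirstOrder.Language
open Pool.Agent.Helper672.ZFA
open Pool.Agent.Helper672.Plain (LSet)
open Pool.Agent.Helper672.ZFA.H635 (toL plainN_ordPair plainN_graph plainN_opGraph)
open Pool.Agent.H635Amen (IsReals)
open Pool.Agent.H310Cards (IsOmega IsFinite IsFun App IsInj IsNat IsProd)
open Pool.Agent.H310Top (IsTopology IsClosed IsCompact)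
open Pool.Agent.H310 (FinP finP_iff finP_le finP_lt exists_BN mem_nat nat_iff appN finite_of_finP
  mem_cp extN exists_code instPEl)
open Pool.Agent.Q301.TM

universe u u₁

attribute [local instance] toL instPEl

/-- A sequence of linear orders that are homogeneous at their ends. -/
structure HD (N : Type u) [L.Structure N] [IsModel N] {α : Type u₁} [ITy N α]
    (R : INat N × (α × α) → Prop) : Prop where
  int : Int N R
  left : ∀ n a b, R (n, (a, b)) → R (n, (a, a))
  right : ∀ n a b, R (n, (a, b)) → R (n, (b, b))
  total : ∀ n a b, R (n, (a, a)) → R (n, (b, b)) → R (n, (a, b)) ∨ R (n, (b, a))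
  antisymm : ∀ n a b, R (n, (a, b)) → R (n, (b, a)) → a = b
  trans : ∀ n a b c, R (n, (a, b)) → R (n, (b, c)) → R (n, (a, c))
  ne : ∀ n, ∃ a, R (n, (a, a))
  top : ∀ n a, R (n, (a, a)) → ∃ b, R (n, (a, b)) ∧ b ≠ a
  hom : ∀ W : α × INat N → Prop, Int N W →
    (∃ m, ∀ n u u', m ≤ n → R (n, (u, u)) → R (n, (u', u')) → ∀ k, W (u, k) → W (u', k)) ∧
    ∀ n, ∃ w, R (n, (w, w)) ∧ ∀ u u', R (n, (w, u)) → w ≠ u → R (n, (w, u')) → w ≠ u' →
      ∀ k, W (u, k) → W (u', k)

section

variable {N : Type u} [L.Structure N] [hM : IsModel N] {α : Type u} [ITy N α]
variable {R : INat N × (α × α) → Prop}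

theorem BD.hd (h : BD N R) : HD N R := by
  refine ⟨h.int, h.left, h.right, h.total, h.antisymm, h.trans, h.ne, h.top, fun W hW => ?_⟩
  obtain ⟨m, s, h0, h1, -, h2, -⟩ := h.hom (fun q => W (q.1.1, q.2)) (by (repeat' (first | with_reducible exact IntF.id | with_reducible exact IntF.fst' | with_reducible exact IntF.snd' | with_reducible exact IntF.const _ | with_reducible exact Int.const _ | assumption | with_reducible apply Int.and | with_reducible apply Int.or | with_reducible apply Int.not | with_reducible apply Int.imp | with_reducible apply Int.iff | with_reducible apply Int.ne | with_reducible apply Int.eq | with_reducible apply Int.mem | with_reducible apply Int.subset | with_reducible apply Int.ltN | with_reducible apply Int.leN | with_reducible_and_instances apply Int.le | with_reducible_and_instances apply Int.lt | with_reducible apply Int.all | with_reducible apply Int.ex | with_reducible apply IntF.fst | with_reducible apply IntF.snd | with_reducible apply IntF.app | with_reducible apply IntF.inl | with_reducible apply IntF.inr | with_reducible_and_instances apply IntF.mul | with_reducible_and_instances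 apply IntF.inv | with_reducible_and_instances apply IntF.add | with_reducible_and_instances apply IntF.sub | with_reducible_and_instances apply IntF.neg | with_reducible_and_instances apply IntF.smul | with_reducible apply Int.fin | with_reducible apply IntF.sep | with_reducible apply IntF.lam | with_reducible apply IntF.insert | with_reducible apply IntF.singleton | with_reducible apply IntF.union | with_reducible apply IntF.iimage | with_reducible apply IntF.ite | with_reducible apply IntF.the | with_reducible apply IntF.irec | with_reducible apply IntF.succ | with_reducible apply IntF.val | with_reducible apply IntF.mk | (with_reducible refine Int.comp ?_ ?_; assumption) | (with_reducible refine Int.comp₂ ?_ ?_ ?_; assumption) | (with_reducible refine Int.comp₃ ?_ ?_ ?_ ?_; assumption) | (with_reducible refine Int.comp₄ ?_ ?_ ?_ ?_ ?_; assumption) | (with_reducible refine IntF.comp ?_ ?_; assumption) | (with_reducible refine IntF.comp₂ ?_ ?_ ?_; assumption) | (with_reducible refine IntF.comp₃ ?_ ?_ ?_ ?_; assumption) | with_reducible apply IntF.pair)))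
  have hi : ∀ n, ∃ i, ¬ R (n, (i, i)) := fun n => by
    obtain ⟨i, hi⟩ := h.ne n.succ
    exact ⟨i, fun h3 => (INat.lt_succ_self n).ne (h.uniq _ _ _ h3 hi)⟩
  refine ⟨⟨m, fun n u u' hmn hu hu' k hk => ?_⟩, fun n => ?_⟩
  · obtain ⟨i, hi⟩ := hi n
    exact h1 n u u' i hmn hu hu' hi k hk
  · obtain ⟨i, hi⟩ := hi n
    obtain ⟨w, hw, h3⟩ := h2 n
    exact ⟨w, hw, fun u u' hu hu1 hu' hu1' k hk => h3 u u' i hu hu1 hu' hu1' hi k hk⟩

theorem BD.hd' (h : BD N R) : HD N (fun q : INat N × (α × α) => R (q.1, (q.2.2, q.2.1))) := by
  have hR := h.int
  refine ⟨by (repeat' (first | with_reducible exact IntF.id | with_reducible exact IntF.fst' | with_reducible exact IntF.snd' | with_reducible exact IntF.const _ | with_reducible exact Int.const _ | assumption | with_reducible apply Int.and | with_reducible apply Int.or | with_reducible apply Int.not | with_reducible apply Int.imp | with_reducible apply Int.iff | with_reducible apply Int.ne | with_reducible apply Int.eq | with_reducible apply Int.mem | with_reducible apply Int.subset | with_reducible apply Int.ltN | with_reducible apply Int.leN | with_reducible_and_instances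 apply Int.le | with_reducible_and_instances apply Int.lt | with_reducible apply Int.all | with_reducible apply Int.ex | with_reducible apply IntF.fst | with_reducible apply IntF.snd | with_reducible apply IntF.app | with_reducible apply IntF.inl | with_reducible apply IntF.inr | with_reducible_and_instances apply IntF.mul | with_reducible_and_instances apply IntF.inv | with_reducible_and_instances apply IntF.add | with_reducible_and_instances apply IntF.sub | with_reducible_and_instances apply IntF.neg | with_reducible_and_instances apply IntF.smul | with_reducible apply Int.fin | with_reducible apply IntF.sep | with_reducible apply IntF.lam | with_reducible apply IntF.insert | with_reducible apply IntF.singleton | with_reducible apply IntF.union | with_reducible apply IntF.iimage | with_reducible apply IntF.ite | with_reducible apply IntF.the | with_reducible apply IntF.irec | with_reducible apply IntF.succ | with_reducible apply IntF.val | with_reducible apply IntF.mk | (with_reducible refine Int.comp ?_ ?_; assumption) | (with_reducible refine Int.comp₂ ?_ ?_ ?_; assumption) | (with_reducible refine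 Int.comp₃ ?_ ?_ ?_ ?_; assumption) | (with_reducible refine Int.comp₄ ?_ ?_ ?_ ?_ ?_; assumption) | (with_reducible refine IntF.comp ?_ ?_; assumption) | (with_reducible refine IntF.comp₂ ?_ ?_ ?_; assumption) | (with_reducible refine IntF.comp₃ ?_ ?_ ?_ ?_; assumption) | with_reducible apply IntF.pair)), fun n a b h1 => h.right _ _ _ h1, fun n a b h1 => h.left _ _ _ h1,
    fun n a b h1 h2 => (h.total _ _ _ h1 h2).symm, fun n a b h1 h2 => h.antisymm _ _ _ h2 h1,
    fun n a b c h1 h2 => h.trans _ _ _ _ h2 h1, h.ne, h.bot, fun W hW => ?_⟩
  obtain ⟨m, s, h0, h1, -, -, h2⟩ := h.hom (fun q => W (q.1.1, q.2)) (by (repeat' (first | with_reducible exact IntF.id | with_reducible exact IntF.fst' | with_reducible exact IntF.snd' | with_reducible exact IntF.const _ | with_reducible exact Int.const _ | assumption | with_reducible apply Int.and | with_reducible apply Int.or | with_reducible apply Int.not | with_reducible apply Int.imp | with_reducible apply Int.iff | with_reducible apply Int.ne | with_reducible apply Int.eq | with_reducible apply Int.mem | with_reducible apply Int.subset | with_reducible apply Int.ltN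 | with_reducible apply Int.leN | with_reducible_and_instances apply Int.le | with_reducible_and_instances apply Int.lt | with_reducible apply Int.all | with_reducible apply Int.ex | with_reducible apply IntF.fst | with_reducible apply IntF.snd | with_reducible apply IntF.app | with_reducible apply IntF.inl | with_reducible apply IntF.inr | with_reducible_and_instances apply IntF.mul | with_reducible_and_instances apply IntF.inv | with_reducible_and_instances apply IntF.add | with_reducible_and_instances apply IntF.sub | with_reducible_and_instances apply IntF.neg | with_reducible_and_instances apply IntF.smul | with_reducible apply Int.fin | with_reducible apply IntF.sep | with_reducible apply IntF.lam | with_reducible apply IntF.insert | with_reducible apply IntF.singleton | with_reducible apply IntF.union | with_reducible apply IntF.iimage | with_reducible apply IntF.ite | with_reducible apply IntF.the | with_reducible apply IntF.irec | with_reducible apply IntF.succ | with_reducible apply IntF.val | with_reducible apply IntF.mk | (with_reducible refine Int.comp ?_ ?_; assumption) | (with_reducible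 refine Int.comp₂ ?_ ?_ ?_; assumption) | (with_reducible refine Int.comp₃ ?_ ?_ ?_ ?_; assumption) | (with_reducible refine Int.comp₄ ?_ ?_ ?_ ?_ ?_; assumption) | (with_reducible refine IntF.comp ?_ ?_; assumption) | (with_reducible refine IntF.comp₂ ?_ ?_ ?_; assumption) | (with_reducible refine IntF.comp₃ ?_ ?_ ?_ ?_; assumption) | with_reducible apply IntF.pair)))
  have hi : ∀ n, ∃ i, ¬ R (n, (i, i)) := fun n => by
    obtain ⟨i, hi⟩ := h.ne n.succ
    exact ⟨i, fun h3 => (INat.lt_succ_self n).ne (h.uniq _ _ _ h3 hi)⟩
  refine ⟨⟨m, fun n u u' hmn hu hu' k hk => ?_⟩, fun n => ?_⟩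
  · obtain ⟨i, hi⟩ := hi n
    exact h1 n u u' i hmn hu hu' hi k hk
  · obtain ⟨i, hi⟩ := hi n
    obtain ⟨w, hw, h3⟩ := h2 n
    exact ⟨w, hw, fun u u' hu hu1 hu' hu1' k hk =>
      h3 u u' i hu (Ne.symm hu1) hu' (Ne.symm hu1') hi k hk⟩

/-- Two points have a strict upper bound. -/
theorem HD.ub (h : HD N R) {n : INat N} {a b : α} (ha : R (n, (a, a))) (hb : R (n, (b, b))) :
    ∃ c, R (n, (a, c)) ∧ a ≠ c ∧ R (n, (b, c)) ∧ b ≠ c := by
  rcases h.total n a b ha hb with h1 | h1
  · obtain ⟨c, h2, h3⟩ := h.top n b hb
    refine ⟨c, h.trans _ _ _ _ h1 h2, ?_, h2, Ne.symm h3⟩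
    rintro rfl
    exact h3 (h.antisymm _ _ _ h1 h2)
  · obtain ⟨c, h2, h3⟩ := h.top n a ha
    refine ⟨c, h2, Ne.symm h3, h.trans _ _ _ _ h1 h2, ?_⟩
    rintro rfl
    exact h3 (h.antisymm _ _ _ h1 h2)

end

section

variable {N : Type u} [LSet.Structure N] [hM : IsModel N] {α : Type u} [ITy N α]
variable {R : INat N × (α × α) → Prop}

/-- The neighbourhoods of the point at infinity. -/
def NX (R : INat N × (α × α) → Prop) (U : IPow N (INat N ⊕ α)) : Prop :=
  (∃ m, ∀ n, m ≤ n → ∀ a, R (n, (a, a)) → Sum.inr a ∈ U) ∧
    ∀ n, ∃ v, R (n, (v, v)) ∧ ∀ a, R (n, (v, a)) → v ≠ a → Sum.inr a ∈ U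

/-- The topology. -/
def OX (R : INat N × (α × α) → Prop) (U : IPow N (INat N ⊕ α)) : Prop :=
  ∀ a, a ∈ U → a = Sum.inl 0 → NX R U

theorem tpO_OX (h : HD N R) : TpO (OX R) := by
  have hR := h.int
  have hI : Int N (fun q : (INat N ⊕ α) × IPow N (INat N ⊕ α) => q.1 = Sum.inl 0 →
    (∃ m, ∀ n, m ≤ n → ∀ a, R (n, (a, a)) → Sum.inr a ∈ q.2) ∧
    ∀ n, ∃ v, R (n, (v, v)) ∧ ∀ a, R (n, (v, a)) → v ≠ a → Sum.inr a ∈ q.2) := by (repeat' (first | with_reducible exact IntF.id | with_reducible exact IntF.fst' | with_reducible exact IntF.snd' | with_reducible exact IntF.const _ | with_reducible exact Int.const _ | assumption | with_reducible apply Int.and | with_reducible apply Int.or | with_reducible apply Int.not | with_reducible apply Int.imp | with_reducible apply Int.iff | with_reducible apply Int.ne | with_reducible apply Int.eq | with_reducible apply Int.mem | with_reducible apply Int.subset | with_reducible apply Int.ltN | with_reducible apply Int.leN | with_reducible_and_instances apply Int.le | with_reducible_and_instances apply Int.lt | with_reducible apply Int.all | with_reducible apply Int.ex | with_reducible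 apply IntF.fst | with_reducible apply IntF.snd | with_reducible apply IntF.app | with_reducible apply IntF.inl | with_reducible apply IntF.inr | with_reducible_and_instances apply IntF.mul | with_reducible_and_instances apply IntF.inv | with_reducible_and_instances apply IntF.add | with_reducible_and_instances apply IntF.sub | with_reducible_and_instances apply IntF.neg | with_reducible_and_instances apply IntF.smul | with_reducible apply Int.fin | with_reducible apply IntF.sep | with_reducible apply IntF.lam | with_reducible apply IntF.insert | with_reducible apply IntF.singleton | with_reducible apply IntF.union | with_reducible apply IntF.iimage | with_reducible apply IntF.ite | with_reducible apply IntF.the | with_reducible apply IntF.irec | with_reducible apply IntF.succ | with_reducible apply IntF.val | with_reducible apply IntF.mk | (with_reducible refine Int.comp ?_ ?_; assumption) | (with_reducible refine Int.comp₂ ?_ ?_ ?_; assumption) | (with_reducible refine Int.comp₃ ?_ ?_ ?_ ?_; assumption) | (with_reducible refine Int.comp₄ ?_ ?_ ?_ ?_ ?_; assumption) | (with_reducible refine IntF.comp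 ?_ ?_; assumption) | (with_reducible refine IntF.comp₂ ?_ ?_ ?_; assumption) | (with_reducible refine IntF.comp₃ ?_ ?_ ?_ ?_; assumption) | with_reducible apply IntF.pair))
  refine tpO_of (Nb := fun a U => a = Sum.inl 0 → NX R U) hI ?_ ?_ ?_
  · intro a U V h1 hUV h2
    obtain ⟨⟨m, h3⟩, h4⟩ := h1 h2
    refine ⟨⟨m, fun n hn a ha => hUV _ (h3 n hn a ha)⟩, fun n => ?_⟩
    obtain ⟨v, hv, h5⟩ := h4 n
    exact ⟨v, hv, fun a ha ha' => hUV _ (h5 a ha ha')⟩
  · intro a U V W h1 h2 hW h3
    obtain ⟨⟨m, h4⟩, h5⟩ := h1 h3
    obtain ⟨⟨m', h4'⟩, h5'⟩ := h2 h3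
    refine ⟨⟨max m m', fun n hn a ha => (hW _).2 ⟨h4 n ((le_max_left _ _).trans hn) a ha,
      h4' n ((le_max_right _ _).trans hn) a ha⟩⟩, fun n => ?_⟩
    obtain ⟨v, hv, h6⟩ := h5 n
    obtain ⟨v', hv', h6'⟩ := h5' n
    obtain ⟨c, h7, h8, h9, h10⟩ := h.ub hv hv'
    refine ⟨c, h.right _ _ _ h7, fun a ha ha' => (hW _).2 ⟨h6 a (h.trans _ _ _ _ h7 ha) ?_,
      h6' a (h.trans _ _ _ _ h9 ha) ?_⟩⟩
    · rintro rfl
      exact h8 (h.antisymm _ _ _ h7 ha)
    · rintro rfl
      exact h10 (h.antisymm _ _ _ h9 ha)
  · intro a U hU _
    refine ⟨⟨0, fun n _ a _ => hU _⟩, fun n => ?_⟩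
    obtain ⟨v, hv⟩ := h.ne n
    exact ⟨v, hv, fun a _ _ => hU _⟩

theorem OX_of_NX {U : IPow N (INat N ⊕ α)} (h : NX R U) : OX R U := fun _ _ _ => h

/-- Isolated points. -/
theorem single_open {p : INat N ⊕ α} (hp : p ≠ Sum.inl 0) : ∃ U, OX R U ∧ p ∈ U ∧
    ∀ c, c ∈ U → c = p := by
  have hI : Int N (fun c : INat N ⊕ α => c = p) := by (repeat' (first | with_reducible exact IntF.id | with_reducible exact IntF.fst' | with_reducible exact IntF.snd' | with_reducible exact IntF.const _ | with_reducible exact Int.const _ | assumption | with_reducible apply Int.and | with_reducible apply Int.or | with_reducible apply Int.not | with_reducible apply Int.imp | with_reducible apply Int.iff | with_reducible apply Int.ne | with_reducible apply Int.eq | with_reducible apply Int.mem | with_reducible apply Int.subset | with_reducible apply Int.ltN | with_reducible apply Int.leN | with_reducible_and_instances apply Int.le | with_reducible_and_instances apply Int.lt | with_reducible apply Int.all | with_reducible apply Int.ex | with_reducible apply IntF.fst | with_reducible apply IntF.snd | with_reducible apply IntF.app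 | with_reducible apply IntF.inl | with_reducible apply IntF.inr | with_reducible_and_instances apply IntF.mul | with_reducible_and_instances apply IntF.inv | with_reducible_and_instances apply IntF.add | with_reducible_and_instances apply IntF.sub | with_reducible_and_instances apply IntF.neg | with_reducible_and_instances apply IntF.smul | with_reducible apply Int.fin | with_reducible apply IntF.sep | with_reducible apply IntF.lam | with_reducible apply IntF.insert | with_reducible apply IntF.singleton | with_reducible apply IntF.union | with_reducible apply IntF.iimage | with_reducible apply IntF.ite | with_reducible apply IntF.the | with_reducible apply IntF.irec | with_reducible apply IntF.succ | with_reducible apply IntF.val | with_reducible apply IntF.mk | (with_reducible refine Int.comp ?_ ?_; assumption) | (with_reducible refine Int.comp₂ ?_ ?_ ?_; assumption) | (with_reducible refine Int.comp₃ ?_ ?_ ?_ ?_; assumption) | (with_reducible refine Int.comp₄ ?_ ?_ ?_ ?_ ?_; assumption) | (with_reducible refine IntF.comp ?_ ?_; assumption) | (with_reducible refine IntF.comp₂ ?_ ?_ ?_; assumption) |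 (with_reducible refine IntF.comp₃ ?_ ?_ ?_ ?_; assumption) | with_reducible apply IntF.pair))
  exact ⟨sep N fun c => c = p, fun c hc hc' => absurd (((mem_sep hI).1 hc).symm.trans hc') hp,
    (mem_sep hI).2 rfl, fun c hc => (mem_sep hI).1 hc⟩

theorem up_open (h : HD N R) (hu : ∀ m n a, R (m, (a, a)) → R (n, (a, a)) → m = n)
    {n : INat N} {v : α} (hv : R (n, (v, v))) : ∃ U, OX R U ∧ Sum.inl 0 ∈ U ∧
      ∀ x, Sum.inr x ∈ U → R (n, (x, x)) → R (n, (v, x)) ∧ v ≠ x := by
  have hR := h.int
  have hI : Int N (fun c : INat N ⊕ α => ∀ x, Sum.inr x = c → R (n, (x, x)) →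
      R (n, (v, x)) ∧ v ≠ x) := by (repeat' (first | with_reducible exact IntF.id | with_reducible exact IntF.fst' | with_reducible exact IntF.snd' | with_reducible exact IntF.const _ | with_reducible exact Int.const _ | assumption | with_reducible apply Int.and | with_reducible apply Int.or | with_reducible apply Int.not | with_reducible apply Int.imp | with_reducible apply Int.iff | with_reducible apply Int.ne | with_reducible apply Int.eq | with_reducible apply Int.mem | with_reducible apply Int.subset | with_reducible apply Int.ltN | with_reducible apply Int.leN | with_reducible_and_instances apply Int.le | with_reducible_and_instances apply Int.lt | with_reducible apply Int.all | with_reducible apply Int.ex | with_reducible apply IntF.fst | with_reducible apply IntF.snd | with_reducible apply IntF.app | with_reducible apply IntF.inl | with_reducible apply IntF.inr | with_reducible_and_instances apply IntF.mul | with_reducible_and_instances apply IntF.inv | with_reducible_and_instances apply IntF.add | with_reducible_and_instances apply IntF.sub | with_reducible_and_instances apply IntF.neg | with_reducible_and_instances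 apply IntF.smul | with_reducible apply Int.fin | with_reducible apply IntF.sep | with_reducible apply IntF.lam | with_reducible apply IntF.insert | with_reducible apply IntF.singleton | with_reducible apply IntF.union | with_reducible apply IntF.iimage | with_reducible apply IntF.ite | with_reducible apply IntF.the | with_reducible apply IntF.irec | with_reducible apply IntF.succ | with_reducible apply IntF.val | with_reducible apply IntF.mk | (with_reducible refine Int.comp ?_ ?_; assumption) | (with_reducible refine Int.comp₂ ?_ ?_ ?_; assumption) | (with_reducible refine Int.comp₃ ?_ ?_ ?_ ?_; assumption) | (with_reducible refine Int.comp₄ ?_ ?_ ?_ ?_ ?_; assumption) | (with_reducible refine IntF.comp ?_ ?_; assumption) | (with_reducible refine IntF.comp₂ ?_ ?_ ?_; assumption) | (with_reducible refine IntF.comp₃ ?_ ?_ ?_ ?_; assumption) | with_reducible apply IntF.pair))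
  refine ⟨sep N fun c => ∀ x, Sum.inr x = c → R (n, (x, x)) → R (n, (v, x)) ∧ v ≠ x,
    OX_of_NX ⟨⟨n.succ, fun k hk a ha => (mem_sep hI).2 fun x hx hx' => ?_⟩, fun k => ?_⟩,
    (mem_sep hI).2 fun x hx => (by cases hx), fun x hx hx' => (mem_sep hI).1 hx x rfl hx'⟩
  · obtain rfl := Sum.inr_injective hx
    have h1 := hu _ _ _ ha hx'
    rw [h1] at hk
    exact absurd (INat.lt_succ_self n) (not_lt.2 hk)
  · by_cases hk : k = n
    · subst hk
      refine ⟨v, hv, fun a ha ha' => (mem_sep hI).2 fun x hx hx' => ?_⟩
      obtain rfl := Sum.inr_injective hx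
      exact ⟨ha, ha'⟩
    · obtain ⟨w, hw⟩ := h.ne k
      refine ⟨w, hw, fun a ha ha' => (mem_sep hI).2 fun x hx hx' => ?_⟩
      obtain rfl := Sum.inr_injective hx
      exact absurd (hu _ _ _ (h.right _ _ _ ha) hx') hk

theorem ppt_OX (h : HD N R) (a : INat N ⊕ α) : PPt (OX R) a := by
  intro V hV hVo haV
  have hR := h.int
  by_cases ha : a = Sum.inl 0
  · have hI : Int N (fun c : INat N ⊕ α => ∀ k, c ∈ V k) := by (repeat' (first | with_reducible exact IntF.id | with_reducible exact IntF.fst' | with_reducible exact IntF.snd' | with_reducible exact IntF.const _ | with_reducible exact Int.const _ | assumption | with_reducible apply Int.and | with_reducible apply Int.or | with_reducible apply Int.not | with_reducible apply Int.imp | with_reducible apply Int.iff | with_reducible apply Int.ne | with_reducible apply Int.eq | with_reducible apply Int.mem | with_reducible apply Int.subset | with_reducible apply Int.ltN | with_reducible apply Int.leN | with_reducible_and_instances apply Int.le | with_reducible_and_instances apply Int.lt | with_reducible apply Int.all | with_reducible apply Int.ex | with_reducible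 apply IntF.fst | with_reducible apply IntF.snd | with_reducible apply IntF.app | with_reducible apply IntF.inl | with_reducible apply IntF.inr | with_reducible_and_instances apply IntF.mul | with_reducible_and_instances apply IntF.inv | with_reducible_and_instances apply IntF.add | with_reducible_and_instances apply IntF.sub | with_reducible_and_instances apply IntF.neg | with_reducible_and_instances apply IntF.smul | with_reducible apply Int.fin | with_reducible apply IntF.sep | with_reducible apply IntF.lam | with_reducible apply IntF.insert | with_reducible apply IntF.singleton | with_reducible apply IntF.union | with_reducible apply IntF.iimage | with_reducible apply IntF.ite | with_reducible apply IntF.the | with_reducible apply IntF.irec | with_reducible apply IntF.succ | with_reducible apply IntF.val | with_reducible apply IntF.mk | (with_reducible refine Int.comp ?_ ?_; assumption) | (with_reducible refine Int.comp₂ ?_ ?_ ?_; assumption) | (with_reducible refine Int.comp₃ ?_ ?_ ?_ ?_; assumption) | (with_reducible refine Int.comp₄ ?_ ?_ ?_ ?_ ?_; assumption) | (with_reducible refine IntF.comp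 ?_ ?_; assumption) | (with_reducible refine IntF.comp₂ ?_ ?_ ?_; assumption) | (with_reducible refine IntF.comp₃ ?_ ?_ ?_ ?_; assumption) | with_reducible apply IntF.pair))
    refine ⟨sep N fun c => ∀ k, c ∈ V k, fun _ _ _ => ?_, (mem_sep hI).2 haV, fun c hc =>
      (mem_sep hI).1 hc⟩
    have h0 : ∀ k, NX R (V k) := fun k => hVo k a (haV k) ha
    obtain ⟨⟨m, h1⟩, h2⟩ := h.hom (fun q => Sum.inr q.1 ∈ V q.2) (by (repeat' (first | with_reducible exact IntF.id | with_reducible exact IntF.fst' | with_reducible exact IntF.snd' | with_reducible exact IntF.const _ | with_reducible exact Int.const _ | assumption | with_reducible apply Int.and | with_reducible apply Int.or | with_reducible apply Int.not | with_reducible apply Int.imp | with_reducible apply Int.iff | with_reducible apply Int.ne | with_reducible apply Int.eq | with_reducible apply Int.mem | with_reducible apply Int.subset | with_reducible apply Int.ltN | with_reducible apply Int.leN | with_reducible_and_instances apply Int.le | with_reducible_and_instances apply Int.lt | with_reducible apply Int.all | with_reducible apply Int.ex | with_reducible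 apply IntF.fst | with_reducible apply IntF.snd | with_reducible apply IntF.app | with_reducible apply IntF.inl | with_reducible apply IntF.inr | with_reducible_and_instances apply IntF.mul | with_reducible_and_instances apply IntF.inv | with_reducible_and_instances apply IntF.add | with_reducible_and_instances apply IntF.sub | with_reducible_and_instances apply IntF.neg | with_reducible_and_instances apply IntF.smul | with_reducible apply Int.fin | with_reducible apply IntF.sep | with_reducible apply IntF.lam | with_reducible apply IntF.insert | with_reducible apply IntF.singleton | with_reducible apply IntF.union | with_reducible apply IntF.iimage | with_reducible apply IntF.ite | with_reducible apply IntF.the | with_reducible apply IntF.irec | with_reducible apply IntF.succ | with_reducible apply IntF.val | with_reducible apply IntF.mk | (with_reducible refine Int.comp ?_ ?_; assumption) | (with_reducible refine Int.comp₂ ?_ ?_ ?_; assumption) | (with_reducible refine Int.comp₃ ?_ ?_ ?_ ?_; assumption) | (with_reducible refine Int.comp₄ ?_ ?_ ?_ ?_ ?_; assumption) | (with_reducible refine IntF.comp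 ?_ ?_; assumption) | (with_reducible refine IntF.comp₂ ?_ ?_ ?_; assumption) | (with_reducible refine IntF.comp₃ ?_ ?_ ?_ ?_; assumption) | with_reducible apply IntF.pair)))
    refine ⟨⟨m, fun n hn u hu => (mem_sep hI).2 fun k => ?_⟩, fun n => ?_⟩
    · obtain ⟨v, hv, h3⟩ := (h0 k).2 n
      obtain ⟨b, hb, hb'⟩ := h.top n v hv
      exact h1 n b u hn (h.right _ _ _ hb) hu k (h3 b hb (Ne.symm hb'))
    · obtain ⟨w, hw, h3⟩ := h2 n
      refine ⟨w, hw, fun u hu hu' => (mem_sep hI).2 fun k => ?_⟩
      obtain ⟨v, hv, h4⟩ := (h0 k).2 n
      obtain ⟨c, h5, h6, h7, h8⟩ := h.ub hw hv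
      exact h3 c u h5 h6 hu hu' k (h4 c h7 h8)
  · have hI : Int N (fun c : INat N ⊕ α => c = a) := by (repeat' (first | with_reducible exact IntF.id | with_reducible exact IntF.fst' | with_reducible exact IntF.snd' | with_reducible exact IntF.const _ | with_reducible exact Int.const _ | assumption | with_reducible apply Int.and | with_reducible apply Int.or | with_reducible apply Int.not | with_reducible apply Int.imp | with_reducible apply Int.iff | with_reducible apply Int.ne | with_reducible apply Int.eq | with_reducible apply Int.mem | with_reducible apply Int.subset | with_reducible apply Int.ltN | with_reducible apply Int.leN | with_reducible_and_instances apply Int.le | with_reducible_and_instances apply Int.lt | with_reducible apply Int.all | with_reducible apply Int.ex | with_reducible apply IntF.fst | with_reducible apply IntF.snd | with_reducible apply IntF.app | with_reducible apply IntF.inl | with_reducible apply IntF.inr | with_reducible_and_instances apply IntF.mul | with_reducible_and_instances apply IntF.inv | with_reducible_and_instances apply IntF.add | with_reducible_and_instances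 apply IntF.sub | with_reducible_and_instances apply IntF.neg | with_reducible_and_instances apply IntF.smul | with_reducible apply Int.fin | with_reducible apply IntF.sep | with_reducible apply IntF.lam | with_reducible apply IntF.insert | with_reducible apply IntF.singleton | with_reducible apply IntF.union | with_reducible apply IntF.iimage | with_reducible apply IntF.ite | with_reducible apply IntF.the | with_reducible apply IntF.irec | with_reducible apply IntF.succ | with_reducible apply IntF.val | with_reducible apply IntF.mk | (with_reducible refine Int.comp ?_ ?_; assumption) | (with_reducible refine Int.comp₂ ?_ ?_ ?_; assumption) | (with_reducible refine Int.comp₃ ?_ ?_ ?_ ?_; assumption) | (with_reducible refine Int.comp₄ ?_ ?_ ?_ ?_ ?_; assumption) | (with_reducible refine IntF.comp ?_ ?_; assumption) | (with_reducible refine IntF.comp₂ ?_ ?_ ?_; assumption) | (with_reducible refine IntF.comp₃ ?_ ?_ ?_ ?_; assumption) | with_reducible apply IntF.pair))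
    refine ⟨sep N fun c => c = a, fun c hc hc' => ?_, (mem_sep hI).2 rfl, fun c hc k => ?_⟩
    · exact absurd (((mem_sep hI).1 hc).symm.trans hc') ha
    · rw [(mem_sep hI).1 hc]
      exact haV k

/-- The relation reversed. -/
def rv (R : INat N × (α × α) → Prop) (q : INat N × (α × α)) : Prop := R (q.1, (q.2.2, q.2.1))

theorem not_ppt (h : BD N R) : ¬ PPt (PrO (OX R) (OX (rv R)))
    ((Sum.inl 0, Sum.inl 0) : (INat N ⊕ α) × (INat N ⊕ α)) := by
  intro hp
  have hR := h.int
  have hI : Int N (fun q : INat N × ((INat N ⊕ α) × (INat N ⊕ α)) =>
      ¬ ∃ x y, Sum.inr x = q.2.1 ∧ Sum.inr y = q.2.2 ∧ R (q.1, (x, y))) := by (repeat' (first | with_reducible exact IntF.id | with_reducible exact IntF.fst' | with_reducible exact IntF.snd' | with_reducible exact IntF.const _ | with_reducible exact Int.const _ | assumption | with_reducible apply Int.and | with_reducible apply Int.or | with_reducible apply Int.not | with_reducible apply Int.imp | with_reducible apply Int.iff | with_reducible apply Int.ne | with_reducible apply Int.eq | with_reducible apply Int.mem | with_reducible apply Int.subset | with_reducible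 apply Int.ltN | with_reducible apply Int.leN | with_reducible_and_instances apply Int.le | with_reducible_and_instances apply Int.lt | with_reducible apply Int.all | with_reducible apply Int.ex | with_reducible apply IntF.fst | with_reducible apply IntF.snd | with_reducible apply IntF.app | with_reducible apply IntF.inl | with_reducible apply IntF.inr | with_reducible_and_instances apply IntF.mul | with_reducible_and_instances apply IntF.inv | with_reducible_and_instances apply IntF.add | with_reducible_and_instances apply IntF.sub | with_reducible_and_instances apply IntF.neg | with_reducible_and_instances apply IntF.smul | with_reducible apply Int.fin | with_reducible apply IntF.sep | with_reducible apply IntF.lam | with_reducible apply IntF.insert | with_reducible apply IntF.singleton | with_reducible apply IntF.union | with_reducible apply IntF.iimage | with_reducible apply IntF.ite | with_reducible apply IntF.the | with_reducible apply IntF.irec | with_reducible apply IntF.succ | with_reducible apply IntF.val | with_reducible apply IntF.mk | (with_reducible refine Int.comp ?_ ?_; assumption) | (with_reducible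 refine Int.comp₂ ?_ ?_ ?_; assumption) | (with_reducible refine Int.comp₃ ?_ ?_ ?_ ?_; assumption) | (with_reducible refine Int.comp₄ ?_ ?_ ?_ ?_ ?_; assumption) | (with_reducible refine IntF.comp ?_ ?_; assumption) | (with_reducible refine IntF.comp₂ ?_ ?_ ?_; assumption) | (with_reducible refine IntF.comp₃ ?_ ?_ ?_ ?_; assumption) | with_reducible apply IntF.pair))
  let V : INat N → IPow N ((INat N ⊕ α) × (INat N ⊕ α)) := fun n =>
    sep N fun p => ¬ ∃ x y, Sum.inr x = p.1 ∧ Sum.inr y = p.2 ∧ R (n, (x, y))
  have hV : ∀ n p, p ∈ V n ↔ ¬ ∃ x y, Sum.inr x = p.1 ∧ Sum.inr y = p.2 ∧ R (n, (x, y)) := by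
    intro n p
    refine mem_sep ?_
    exact Int.comp (p := fun q : INat N × ((INat N ⊕ α) × (INat N ⊕ α)) =>
      ¬ ∃ x y, Sum.inr x = q.2.1 ∧ Sum.inr y = q.2.2 ∧ R (q.1, (x, y))) hI
      (IntF.pair (IntF.const n) IntF.id)
  have hVI : IntF N V := IntF.sep hI
  have hVo : ∀ n, PrO (OX R) (OX (rv R)) (V n) := by
    rintro n ⟨p, q⟩ hpV
    rw [hV] at hpV
    obtain ⟨v, hv⟩ := h.ne n
    have hup : ∀ v, R (n, (v, v)) → ∃ U, OX R U ∧ Sum.inl 0 ∈ U ∧
      ∀ x, Sum.inr x ∈ U → R (n, (x, x)) → R (n, (v, x)) ∧ v ≠ x := fun v hv =>
        up_open h.hd h.uniq hv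
    have hdn : ∀ v, R (n, (v, v)) → ∃ U, OX (rv R) U ∧ Sum.inl 0 ∈ U ∧
      ∀ x, Sum.inr x ∈ U → R (n, (x, x)) → R (n, (x, v)) ∧ v ≠ x := fun v hv =>
        up_open h.hd' h.uniq hv
    by_cases hp : p = Sum.inl 0
    · by_cases hq : q = Sum.inl 0
      · obtain ⟨A, hA, hA0, hA1⟩ := hup v hv
        obtain ⟨B, hB, hB0, hB1⟩ := hdn v hv
        refine ⟨A, B, hA, hB, hp ▸ hA0, hq ▸ hB0, fun c d hc hd => (hV _ _).2 ?_⟩
        rintro ⟨x, y, rfl, rfl, hxy⟩
        obtain ⟨h1, h2⟩ := hA1 x hc (h.left _ _ _ hxy)
        obtain ⟨h3, h4⟩ := hB1 y hd (h.right _ _ _ hxy)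
        exact h4 (h.antisymm _ _ _ (h.trans _ _ _ _ h1 hxy) h3)
      · obtain ⟨B, hB, hB0, hB1⟩ := single_open (R := rv R) hq
        obtain ⟨v', hv', hv2⟩ : ∃ v', R (n, (v', v')) ∧
            ∀ y, Sum.inr y = q → R (n, (y, y)) → y = v' := by
          by_cases hy : ∃ y, Sum.inr y = q ∧ R (n, (y, y))
          · obtain ⟨y, hy1, hy2⟩ := hy
            exact ⟨y, hy2, fun y' h1 _ => Sum.inr_injective (h1.trans hy1.symm)⟩
          · exact ⟨v, hv, fun y h1 h2 => absurd ⟨y, h1, h2⟩ hy⟩
        obtain ⟨A, hA, hA0, hA1⟩ := hup v' hv'
        refine ⟨A, B, hA, hB, hp ▸ hA0, hB0, fun c d hc hd => (hV _ _).2 ?_⟩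
        rintro ⟨x, y, rfl, hy, hxy⟩
        obtain ⟨h1, h2⟩ := hA1 x hc (h.left _ _ _ hxy)
        obtain rfl := hv2 y (hy.trans (hB1 _ hd)) (h.right _ _ _ hxy)
        exact h2 (h.antisymm _ _ _ h1 hxy)
    · obtain ⟨A, hA, hA0, hA1⟩ := single_open (R := R) hp
      by_cases hq : q = Sum.inl 0
      · obtain ⟨v', hv', hv2⟩ : ∃ v', R (n, (v', v')) ∧
            ∀ y, Sum.inr y = p → R (n, (y, y)) → y = v' := by
          by_cases hy : ∃ y, Sum.inr y = p ∧ R (n, (y, y))
          · obtain ⟨y, hy1, hy2⟩ := hy
            exact ⟨y, hy2, fun y' h1 _ => Sum.inr_injective (h1.trans hy1.symm)⟩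
          · exact ⟨v, hv, fun y h1 h2 => absurd ⟨y, h1, h2⟩ hy⟩
        obtain ⟨B, hB, hB0, hB1⟩ := hdn v' hv'
        refine ⟨A, B, hA, hB, hA0, hq ▸ hB0, fun c d hc hd => (hV _ _).2 ?_⟩
        rintro ⟨x, y, hx, rfl, hxy⟩
        obtain ⟨h1, h2⟩ := hB1 y hd (h.right _ _ _ hxy)
        obtain rfl := hv2 x (hx.trans (hA1 _ hc)) (h.left _ _ _ hxy)
        exact h2 (h.antisymm _ _ _ hxy h1)
      · obtain ⟨B, hB, hB0, hB1⟩ := single_open (R := rv R) hq
        refine ⟨A, B, hA, hB, hA0, hB0, fun c d hc hd => ?_⟩
        rw [hA1 c hc, hB1 d hd]
        exact (hV _ _).2 hpV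
  obtain ⟨U, hU, h1, h2⟩ := hp V hVI hVo fun k => (hV _ _).2 fun ⟨x, y, h3, _⟩ => by cases h3
  obtain ⟨A, B, hA, hB, h3, h4, h5⟩ := hU _ h1
  obtain ⟨⟨m, h6⟩, -⟩ := hA _ h3 rfl
  obtain ⟨⟨m', h7⟩, -⟩ := hB _ h4 rfl
  obtain ⟨a, ha⟩ := h.ne (max m m')
  have h8 := h2 _ (h5 _ _ (h6 _ (le_max_left _ _) a ha) (h7 _ (le_max_right _ _) a ha)) (max m m')
  exact (hV _ _).1 h8 ⟨a, a, rfl, rfl, ha⟩

end

end Pool.Agent.Q301.BM
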