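import Pool.Agent.Q301.TM.RealX
import Pool.Agent.Q301.BM.PP
import Pool.Agent.H635R2.Ext

/-!
# The model
-/

set_option maxHeartbeats 1000000
set_option linter.all false
set_option synthInstance.maxSize 2000

namespace Pool.Agent.Q301.BM

open FirstOrder FirstOrder.Language
open Pool.Agent.Helper672.ZFA
open Pool.Agent.Helper672.ZFA.H310M
open Pool.Agent.Helper672.Plain (LSet)
open Pool.Agent.Helper672.ZFA.H635 (toL plainN_ordPair plainN_graph plainN_opGraph IsGen NN nn_zf
  CollL coll_of_zf exists_countable_sub exists_reals isModel_of_zermelo nn_zermelo IPerm)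
open Pool.Agent.H635Amen (IsReals ZF)
open Pool.Agent.H310Cards (IsOmega IsFinite IsFun App IsInj IsNat IsProd)
open Pool.Agent.H310Top (IsTopology IsClosed IsCompact)
open Pool.Agent.H310 (FinP finP_iff finP_le finP_lt exists_BN mem_nat nat_iff appN finite_of_finP
  mem_cp extN exists_code instPEl exists_q pr int_pr pr_inj)
open Pool.Agent.Q301.TM

universe u u₁

section

attribute [local instance] toL instPEl

variable {N : Type u} [LSet.Structure N] [hM : IsModel N]
variable {r : N} [Field (Helper672.Plain.El r)] [LinearOrder (Helper672.Plain.El r)] [IsStrictOrderedRing (Helper672.Plain.El r)]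

/-- Piecewise linear maps. -/
theorem exists_pl (hr : IsReals r) {P : Helper672.Plain.El r → Prop} (hP : Int N P) {u l : Helper672.Plain.El r} (hl : 0 < l)
    (hPl : ∀ c : Helper672.Plain.El r, 0 < c → ∀ x, P x ↔ P (u + c * (x - u))) :
    ∃ g : IPerm N (Helper672.Plain.El r), (∀ x, P x → g.1.1 x = u + l * (x - u)) ∧ ∀ x, ¬ P x → g.1.1 x = x := by
  classical
  have ha := int_add hr
  have hm := int_mul hr
  have hs := int_sub' hr
  obtain ⟨F, hF, hFe⟩ : ∃ F : Helper672.Plain.El r × Helper672.Plain.El r → Helper672.Plain.El r, IntF N F ∧
      ∀ c x, F (c, x) = u + c * (x - u) := by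
    refine ⟨fun q => u + q.1 * (q.2 - u), ?_, fun c x => rfl⟩
    exact IntF.comp₂ (p := fun a b : Helper672.Plain.El r => a + b) ha (IntF.const _)
      (IntF.comp₂ (p := fun a b : Helper672.Plain.El r => a * b) hm IntF.fst'
        (IntF.comp₂ (p := fun a b : Helper672.Plain.El r => a - b) hs IntF.snd' (IntF.const _)))
  have hf : IntF N (fun x : Helper672.Plain.El r => if P x then F (l, x) else x) := by (repeat' (first | with_reducible exact IntF.id | with_reducible exact IntF.fst' | with_reducible exact IntF.snd' | with_reducible exact IntF.const _ | with_reducible exact Int.const _ | assumption | with_reducible apply Int.and | with_reducible apply Int.or | with_reducible apply Int.not | with_reducible apply Int.imp | with_reducible apply Int.iff | with_reducible apply Int.ne | with_reducible apply Int.eq | with_reducible apply Int.mem | with_reducible apply Int.subset | with_reducible apply Int.ltN | with_reducible apply Int.leN | with_reducible_and_instances apply Int.le | with_reducible_and_instances apply Int.lt | with_reducible apply Int.all | with_reducible apply Int.ex | with_reducible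 apply IntF.fst | with_reducible apply IntF.snd | with_reducible apply IntF.app | with_reducible apply IntF.inl | with_reducible apply IntF.inr | with_reducible_and_instances apply IntF.mul | with_reducible_and_instances apply IntF.inv | with_reducible_and_instances apply IntF.add | with_reducible_and_instances apply IntF.sub | with_reducible_and_instances apply IntF.neg | with_reducible_and_instances apply IntF.smul | with_reducible apply Int.fin | with_reducible apply IntF.sep | with_reducible apply IntF.lam | with_reducible apply IntF.insert | with_reducible apply IntF.singleton | with_reducible apply IntF.union | with_reducible apply IntF.iimage | with_reducible apply IntF.ite | with_reducible apply IntF.the | with_reducible apply IntF.irec | with_reducible apply IntF.succ | with_reducible apply IntF.val | with_reducible apply IntF.mk | (with_reducible refine Int.comp ?_ ?_; assumption) | (with_reducible refine Int.comp₂ ?_ ?_ ?_; assumption) | (with_reducible refine Int.comp₃ ?_ ?_ ?_ ?_; assumption) | (with_reducible refine Int.comp₄ ?_ ?_ ?_ ?_ ?_; assumption) | (with_reducible refine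 IntF.comp ?_ ?_; assumption) | (with_reducible refine IntF.comp₂ ?_ ?_ ?_; assumption) | (with_reducible refine IntF.comp₃ ?_ ?_ ?_ ?_; assumption) | with_reducible apply IntF.pair))
  have hf' : IntF N (fun x : Helper672.Plain.El r => if P x then F (l⁻¹, x) else x) := by (repeat' (first | with_reducible exact IntF.id | with_reducible exact IntF.fst' | with_reducible exact IntF.snd' | with_reducible exact IntF.const _ | with_reducible exact Int.const _ | assumption | with_reducible apply Int.and | with_reducible apply Int.or | with_reducible apply Int.not | with_reducible apply Int.imp | with_reducible apply Int.iff | with_reducible apply Int.ne | with_reducible apply Int.eq | with_reducible apply Int.mem | with_reducible apply Int.subset | with_reducible apply Int.ltN | with_reducible apply Int.leN | with_reducible_and_instances apply Int.le | with_reducible_and_instances apply Int.lt | with_reducible apply Int.all | with_reducible apply Int.ex | with_reducible apply IntF.fst | with_reducible apply IntF.snd | with_reducible apply IntF.app | with_reducible apply IntF.inl | with_reducible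 apply IntF.inr | with_reducible_and_instances apply IntF.mul | with_reducible_and_instances apply IntF.inv | with_reducible_and_instances apply IntF.add | with_reducible_and_instances apply IntF.sub | with_reducible_and_instances apply IntF.neg | with_reducible_and_instances apply IntF.smul | with_reducible apply Int.fin | with_reducible apply IntF.sep | with_reducible apply IntF.lam | with_reducible apply IntF.insert | with_reducible apply IntF.singleton | with_reducible apply IntF.union | with_reducible apply IntF.iimage | with_reducible apply IntF.ite | with_reducible apply IntF.the | with_reducible apply IntF.irec | with_reducible apply IntF.succ | with_reducible apply IntF.val | with_reducible apply IntF.mk | (with_reducible refine Int.comp ?_ ?_; assumption) | (with_reducible refine Int.comp₂ ?_ ?_ ?_; assumption) | (with_reducible refine Int.comp₃ ?_ ?_ ?_ ?_; assumption) | (with_reducible refine Int.comp₄ ?_ ?_ ?_ ?_ ?_; assumption) | (with_reducible refine IntF.comp ?_ ?_; assumption) | (with_reducible refine IntF.comp₂ ?_ ?_ ?_; assumption) | (with_reducible refine IntF.comp₃ ?_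 ?_ ?_ ?_; assumption) | with_reducible apply IntF.pair))
  have hl' : 0 < l⁻¹ := inv_pos.2 hl
  have key : ∀ c : Helper672.Plain.El r, 0 < c → ∀ x, (if P (if P x then F (c⁻¹, x) else x) then
      F (c, (if P x then F (c⁻¹, x) else x)) else (if P x then F (c⁻¹, x) else x)) = x := by
    intro c hc x
    by_cases h : P x
    · have h1 : P (F (c⁻¹, x)) := by
        rw [hFe]
        exact (hPl c⁻¹ (inv_pos.2 hc) x).1 h
      rw [if_pos h, if_pos h1, hFe, hFe]
      have hc' : c ≠ 0 := hc.ne'
      field_simp
      ring
    · rw [if_neg h, if_neg h]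
  have k1 := key l hl
  have k2 := key l⁻¹ hl'
  rw [inv_inv] at k2
  refine ⟨⟨(⟨_, hf⟩, ⟨_, hf'⟩), fun x => k1 x, fun x => k2 x⟩, fun x hx => ?_, fun x hx => ?_⟩
  · change (if P x then F (l, x) else x) = _
    rw [if_pos hx, hFe]
  · exact if_neg hx

theorem ht_reals (hr : IsReals r) : HT N (T := Helper672.Plain.El r) (fun x y : Helper672.Plain.El r => x < y) := by
  have hlt := int_lt hr
  have hle := int_le hr
  have ha := int_add hr
  have hs := int_sub' hr
  refine ⟨hlt, fun x => lt_irrefl x, fun x y z h1 h2 => h1.trans h2, fun x y => lt_trichotomy x y,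
    fun x => ⟨x + 1, lt_add_one x⟩, fun x => ⟨x - 1, sub_one_lt x⟩, ⟨0⟩, fun s t => ?_,
    fun u s t hs1 ht1 => ?_, fun u s t hs1 ht1 => ?_⟩
  · have hf : IntF N (fun x : Helper672.Plain.El r => x + (t - s)) :=
      IntF.comp₂ (p := fun a b : Helper672.Plain.El r => a + b) ha IntF.id (IntF.const _)
    have hf' : IntF N (fun x : Helper672.Plain.El r => x - (t - s)) :=
      IntF.comp₂ (p := fun a b : Helper672.Plain.El r => a - b) hs IntF.id (IntF.const _)
    refine ⟨⟨(⟨_, hf⟩, ⟨_, hf'⟩), fun x => ?_, fun x => ?_⟩, fun x y hxy => ?_, ?_⟩
    · exact sub_add_cancel x (t - s)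
    · exact add_sub_cancel_right x (t - s)
    · exact add_lt_add_left hxy (t - s)
    · exact add_sub_cancel s t
  · have hsu : 0 < s - u := sub_pos.2 hs1
    have htu : 0 < t - u := sub_pos.2 ht1
    obtain ⟨g, hg1, hg2⟩ := exists_pl hr (P := fun x => u < x) (u := u) (l := (t - u) / (s - u))
      (Helper672.ZFA.Int.comp₂ (p := fun a b : Helper672.Plain.El r => a < b) hlt (IntF.const u) IntF.id) (div_pos htu hsu) fun c hc x => by
        constructor
        · intro h
          have := mul_pos hc (sub_pos.2 h)
          linarith
        · intro h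
          have h1 : 0 < c * (x - u) := by linarith
          exact sub_pos.1 ((mul_pos_iff_of_pos_left hc).1 h1)
    have hl : 0 < (t - u) / (s - u) := div_pos htu hsu
    refine ⟨g, fun x y hxy => ?_, fun x hx => hg2 x hx, ?_⟩
    · by_cases hx : u < x
      · rw [hg1 x hx, hg1 y (hx.trans hxy)]
        have := mul_lt_mul_of_pos_left hxy hl
        linarith
      · rw [hg2 x hx]
        by_cases hy : u < y
        · rw [hg1 y hy]
          have := mul_pos hl (sub_pos.2 hy)
          linarith [not_lt.1 hx]
        · rw [hg2 y hy]
          exact hxy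
    · rw [hg1 s hs1]
      have := hsu.ne'
      field_simp
      ring
  · have hsu : 0 < u - s := sub_pos.2 hs1
    have htu : 0 < u - t := sub_pos.2 ht1
    obtain ⟨g, hg1, hg2⟩ := exists_pl hr (P := fun x => x < u) (u := u) (l := (u - t) / (u - s))
      (Helper672.ZFA.Int.comp₂ (p := fun a b : Helper672.Plain.El r => a < b) hlt IntF.id (IntF.const u)) (div_pos htu hsu) fun c hc x => by
        constructor
        · intro h
          have := mul_pos hc (sub_pos.2 h)
          linarith
        · intro h
          have h1 : 0 < c * (u - x) := by linarith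
          exact sub_pos.1 ((mul_pos_iff_of_pos_left hc).1 h1)
    have hl : 0 < (u - t) / (u - s) := div_pos htu hsu
    refine ⟨g, fun x y hxy => ?_, fun x hx => hg2 x hx, ?_⟩
    · by_cases hy : y < u
      · rw [hg1 y hy, hg1 x (hxy.trans hy)]
        have := mul_lt_mul_of_pos_left hxy hl
        linarith
      · rw [hg2 y hy]
        by_cases hx : x < u
        · rw [hg1 x hx]
          have := mul_pos hl (sub_pos.2 hx)
          linarith [not_lt.1 hy]
        · rw [hg2 x hx]
          exact hxy
    · rw [hg1 s hs1]
      have := hsu.ne'
      field_simp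
      ring

end

/-- The model has a sequence of linear orders with many automorphisms. -/
def HasBD (N : Type u) [LSet.Structure N] : Prop :=
  ∃ hN : Helper672.Plain.Zermelo N, letI := toL N; letI : IsModel N := isModel_of_zermelo hN
    ∃ (a : N) (R : INat N × (El a × El a) → Prop), BD N R

theorem exists_bm' {M : Type u} [L.Structure M] [IsModel M] [Countable M] (hC : CollL M)
    {T : Type u} [ITy M T] {lt : T → T → Prop} (h : HT M lt) :
    ∃ (N : Type u) (_ : LSet.Structure N), ZF N ∧ HasBD N := by
  have p₀ : Co M (INat M × T) := ⟨∅, fun i k d d' h => absurd h (by simp), IFin.empty⟩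
  obtain ⟨G, hG⟩ := H635.exists_gen (M := M) p₀
  refine ⟨NN (SS (GB h)) hG, inferInstance, nn_zf hG hC, nn_zermelo hG, ?_⟩
  letI := toL (NN (SS (GB h)) hG)
  letI : IsModel (NN (SS (GB h)) hG) := isModel_of_zermelo (nn_zermelo hG)
  obtain ⟨R, hR⟩ := exists_bd h hG hC
  exact ⟨_, R, hR⟩

section

attribute [local instance] toL instPEl

theorem exists_bm_c (M : Type u) [LSet.Structure M] [Countable M] (h : ZF M) :
    ∃ (N : Type u) (_ : LSet.Structure N), ZF N ∧ HasBD N := by
  have hM : IsModel M := isModel_of_zermelo h.toZermelo
  obtain ⟨r, i1, i2, i3, hr⟩ := exists_reals h.toZermelo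
  exact exists_bm' (coll_of_zf h) (ht_reals hr)

end

theorem exists_bm (h : ∃ (M : Type u) (_ : LSet.Structure M), ZF M) :
    ∃ (N : Type u) (_ : LSet.Structure N), ZF N ∧ HasBD N := by
  obtain ⟨M, i, hM⟩ := h
  obtain ⟨M₀, h1, h2⟩ := exists_countable_sub M hM
  exact exists_bm_c M₀ h2

/-- Two `P`-spaces whose product is not a `P`-space. -/
theorem pe864e9 (h : ∃ (M : Type u) (_ : LSet.Structure M), ZF M) :
    ∃ (N : Type u) (_ : LSet.Structure N), ZF N ∧
      ∃ t x t' x' s z : N, IsTopology t x ∧ IsPSpace t x ∧ IsTopology t' x' ∧ IsPSpace t' x' ∧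
        IsProd z x x' ∧ IsTopology s z ∧ IsProdTopology s z t t' ∧ ¬ IsPSpace s z := by
  obtain ⟨N, iN, hN, hZ, D⟩ := exists_bm h
  letI := toL N
  letI : IsModel N := isModel_of_zermelo hZ
  obtain ⟨a, R, hR⟩ := D
  have h1 := tpO_OX hR.hd
  have h2 : TpO (OX (rv R)) := tpO_OX hR.hd'
  refine ⟨N, iN, hN, tp _ h1.int, dom N (INat N ⊕ El a), tp _ h2.int, dom N (INat N ⊕ El a),
    tp _ (tpO_prO h1 h2).int, dom N ((INat N ⊕ El a) × (INat N ⊕ El a)), isTopology_tp h1,
    isPSpace_tp h1 (ppt_OX hR.hd), isTopology_tp h2, isPSpace_tp h2 (ppt_OX hR.hd'), isProd_dom,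
    isTopology_tp (tpO_prO h1 h2), isProdTopology_tp h1 h2, fun h3 => ?_⟩
  exact not_ppt hR (ppt_of (tpO_prO h1 h2) (h3 _ (mem_domP.2 ⟨(Sum.inl 0, Sum.inl 0), rfl⟩)))

end Pool.Agent.Q301.BM
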