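import Pool.Agent.Q301.BM.Defs

/-!
# `E`-compact spaces and Hewitt extensions in a model of set theory: definitions

The conventions are those of `Pool.Agent.Q301.TM.Defs` and `Pool.Agent.Q301.BM.Defs`. The space `E`
is given by its set `E` of points and its topology `tE`. A point of the power `E ^ j` (in the
model) is a function `y : El j → El E` that is in the model. A basic neighbourhood of `y` is given
by a finite set `F` and a function `O` from `j` to `tE` with `y i ∈ O i` for all `i` in `F`; it
consists of the `y'` with `y' i ∈ O i` for all `i` in `F`.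
-/

namespace Pool.Agent.Q301.BM

open FirstOrder FirstOrder.Language
open Pool.Agent.Helper672.Plain (LSet Mem IsPair IsOrdPair El)
open Pool.Agent.H310Cards (IsFinite)
open Pool.Agent.Q301.TM (IsMap IsMap₂)

universe u

variable {M : Type u} [LSet.Structure M]

/-- The element `g` of the model is (the graph of) the function `f` from `a` to `b`. -/
def IsGraph {a b : M} (g : M) (f : El a → El b) : Prop :=
  ∀ z, Mem z g ↔ ∃ p : El a, IsOrdPair z p.1 (f p).1

/-- The function `f` from the space `x` to the space `E` is in the model and continuous. -/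
def IsContinuous (t tE : M) {x E : M} (f : El x → El E) : Prop :=
  IsMap f ∧ ∀ (p : El x) (v : M), Mem v tE → Mem (f p).1 v →
    ∃ u, Mem u t ∧ Mem p.1 u ∧ ∀ q : El x, Mem q.1 u → Mem (f q).1 v

/-- `e` (in the model) is a homeomorphism of the space `x` onto a subspace of `E ^ j`: it is
injective and the topology of `x` is the one induced by `e`. -/
def IsEmbedding (t tE : M) {x E j : M} (e : El x → El j → El E) : Prop :=
  IsMap₂ e ∧ (∀ p q, (∀ i, e p i = e q i) → p = q) ∧
    ∀ u, (∀ z, Mem z u → Mem z x) → (Mem u t ↔ ∀ p : El x, Mem p.1 u →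
      ∃ (F : M) (O : El j → El tE), IsFinite F ∧ IsMap O ∧
        (∀ i, Mem i.1 F → Mem (e p i).1 (O i).1) ∧
        ∀ q : El x, (∀ i, Mem i.1 F → Mem (e q i).1 (O i).1) → Mem q.1 u)

/-- The point `y` of `E ^ j` is in the closure of the range of `e`. -/
def InClosure (tE : M) {x E j : M} (e : El x → El j → El E) (y : El j → El E) : Prop :=
  ∀ (F : M) (O : El j → El tE), IsFinite F → IsMap O → (∀ i, Mem i.1 F → Mem (y i).1 (O i).1) →
    ∃ p, ∀ i, Mem i.1 F → Mem (e p i).1 (O i).1

/-- The space `x` is `E`-completely regular: it is homeomorphic to a subspace of `E ^ j` for some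
nonempty set `j`. -/
def IsECompletelyRegular (t x tE E : M) : Prop :=
  ∃ (j : M) (e : El x → El j → El E), (∃ i, Mem i j) ∧ IsEmbedding t tE e

/-- The space `x` is `E`-compact: it is homeomorphic to a closed subspace of `E ^ j` for some
nonempty set `j`. -/
def IsECompact (t x tE E : M) : Prop :=
  ∃ (j : M) (e : El x → El j → El E), (∃ i, Mem i j) ∧ IsEmbedding t tE e ∧
    ∀ y : El j → El E, IsMap y → InClosure tE e y → ∃ p, ∀ i, e p i = y i

/-- The space `v` with the topology `s` is the Hewitt `E`-compact extension of the space `x`: `c`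
is the set of the continuous functions `x → E`, `e` is the evaluation map `x → E ^ c`, `v` is the
closure of its range and `s` is the topology of `v` as a subspace of `E ^ c`. -/
def IsHewittExtension (t x tE E s v : M) : Prop :=
  ∃ (c : M) (e : El x → El c → El E),
    (∀ g, Mem g c ↔ ∃ f : El x → El E, IsContinuous t tE f ∧ IsGraph g f) ∧
    (∀ g : El c, IsGraph g.1 fun p => e p g) ∧
    (∀ y, Mem y v ↔ ∃ Y : El c → El E, IsGraph y Y ∧ InClosure tE e Y) ∧
    ∀ u, Mem u s ↔ (∀ y, Mem y u → Mem y v) ∧
      ∀ (y : M) (Y : El c → El E), Mem y u → IsGraph y Y →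
        ∃ (F : M) (O : El c → El tE), IsFinite F ∧ IsMap O ∧
          (∀ i, Mem i.1 F → Mem (Y i).1 (O i).1) ∧
          ∀ (y' : M) (Y' : El c → El E), Mem y' v → IsGraph y' Y' →
            (∀ i, Mem i.1 F → Mem (Y' i).1 (O i).1) → Mem y' u

/-- `t` is the discrete topology of `x`: the set of all subsets. -/
def IsDiscreteTop (t x : M) : Prop := ∀ u, Mem u t ↔ ∀ z, Mem z u → Mem z x

/-- `t` is the usual topology of the set `r` of the real numbers. -/
def IsUsualTop (t r : M) [Field (El r)] [LinearOrder (El r)] : Prop :=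
  ∀ u, Mem u t ↔ (∀ z, Mem z u → Mem z r) ∧
    ∀ p : El r, Mem p.1 u → ∃ ε : El r, 0 < ε ∧ ∀ q : El r, |q - p| < ε → Mem q.1 u

/-- The space is a `P`-space: every `G_δ`-set is open. -/
def GdeltasOpen (t : M) : Prop := ∀ c, IsGdelta t c → Mem c t

end Pool.Agent.Q301.BM
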