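import Pool.Agent.Q301.BM.HR

/-!
# The Hewitt extension
-/

set_option maxHeartbeats 1000000
set_option linter.all false
set_option synthInstance.maxSize 2000

namespace Pool.Agent.Q301.BM

open FirstOrder FirstOrder.Language
open Pool.Agent.Helper672.ZFA
open Pool.Agent.Helper672.Plain (LSet)
open Pool.Agent.Helper672.ZFA.H635 (toL plainN_ordPair plainN_graph plainN_opGraph)
open Pool.Agent.H635Amen (IsReals)
open Pool.Agent.H310Cards (IsOmega IsFinite IsFun App IsInj IsNat IsProd)
open Pool.Agent.H310Top (IsTopology IsClosed IsCompact)
open Pool.Agent.H310 (FinP finP_iff finP_le finP_lt exists_BN mem_nat nat_iff appN finite_of_finP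
  mem_cp extN exists_code instPEl exists_q pr int_pr pr_inj)
open Pool.Agent.Q301.TM

universe u u₁

attribute [local instance] toL instPEl

section

variable {N : Type u} [LSet.Structure N] [hM : IsModel N] {β : Type u} [ITy N β]
variable {r tE : N} [Field (Helper672.Plain.El r)] [LinearOrder (Helper672.Plain.El r)] [IsStrictOrderedRing (Helper672.Plain.El r)]

/-- Continuity. -/
def Cn (t x r : N) [Field (Helper672.Plain.El r)] [LinearOrder (Helper672.Plain.El r)] [IsStrictOrderedRing (Helper672.Plain.El r)]
    (f : IFun N (Helper672.Plain.El x) (Helper672.Plain.El r)) : Prop :=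
  ∀ (p : Helper672.Plain.El x) (ε : Helper672.Plain.El r), 0 < ε → ∃ u : Helper672.Plain.El t, Helper672.Plain.Mem p.1 u.1 ∧
    ∀ q : Helper672.Plain.El x, Helper672.Plain.Mem q.1 u.1 → ds (f q) (f p) < ε

variable (hr : IsReals r)
include hr

theorem int_Cn (t x : N) : Int N (Cn t x r) := by
  have hlt := int_lt hr
  have hd := int_ds hr
  change Int N (fun f : IFun N (Helper672.Plain.El x) (Helper672.Plain.El r) => ∀ (p : Helper672.Plain.El x) (ε : Helper672.Plain.El r), 0 < ε → ∃ u : Helper672.Plain.El t,
    Helper672.Plain.Mem p.1 u.1 ∧ ∀ q : Helper672.Plain.El x, Helper672.Plain.Mem q.1 u.1 → ds (f q) (f p) < ε)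
  (repeat' (first | with_reducible apply memPE | with_reducible apply memPE' | with_reducible apply memPE'' | with_reducible apply memCode | with_reducible apply memCodeP | with_reducible apply memCode₂ | with_reducible apply eqPE | with_reducible apply eqPE' | with_reducible exact IntF.id | with_reducible exact IntF.fst' | with_reducible exact IntF.snd' | with_reducible exact IntF.const _ | with_reducible exact Int.const _ | assumption | with_reducible apply Int.and | with_reducible apply Int.or | with_reducible apply Int.not | with_reducible apply Int.imp | with_reducible apply Int.iff | with_reducible apply Int.ne | with_reducible apply Int.eq | with_reducible apply Int.mem | with_reducible apply Int.subset | with_reducible apply Int.ltN | with_reducible apply Int.leN | with_reducible_and_instances apply Int.le | with_reducible_and_instances apply Int.lt | with_reducible apply Int.all | with_reducible apply Int.ex | with_reducible apply IntF.fst | with_reducible apply IntF.snd | with_reducible apply IntF.app | with_reducible apply IntF.inl | with_reducible apply IntF.inr | with_reducible_and_instances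 apply IntF.mul | with_reducible_and_instances apply IntF.inv | with_reducible_and_instances apply IntF.add | with_reducible_and_instances apply IntF.sub | with_reducible_and_instances apply IntF.neg | with_reducible_and_instances apply IntF.smul | with_reducible apply Int.fin | with_reducible apply IntF.sep | with_reducible apply IntF.lam | with_reducible apply IntF.insert | with_reducible apply IntF.singleton | with_reducible apply IntF.union | with_reducible apply IntF.iimage | with_reducible apply IntF.ite | with_reducible apply IntF.the | with_reducible apply IntF.irec | with_reducible apply IntF.succ | with_reducible apply IntF.val | with_reducible apply IntF.mk | (with_reducible refine Int.comp ?_ ?_; assumption) | (with_reducible refine Int.comp₂ ?_ ?_ ?_; assumption) | (with_reducible refine Int.comp₃ ?_ ?_ ?_ ?_; assumption) | (with_reducible refine Int.comp₄ ?_ ?_ ?_ ?_ ?_; assumption) | (with_reducible refine IntF.comp ?_ ?_; assumption) | (with_reducible refine IntF.comp₂ ?_ ?_ ?_; assumption) | (with_reducible refine IntF.comp₃ ?_ ?_ ?_ ?_; assumption) | with_reducible apply IntF.pair))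

theorem cn_iff (hE : IsUsualTop tE r) {t x : N} {f : IFun N (Helper672.Plain.El x) (Helper672.Plain.El r)} :
    Cn t x r f ↔ IsContinuous t tE (fun p => f p) := by
  constructor
  · intro h
    refine ⟨isMap_iff.2 f.int, fun p v hv hpv => ?_⟩
    obtain ⟨ε, hε, h1⟩ := ((hE v).1 hv).2 (f p) hpv
    obtain ⟨u, h2, h3⟩ := h p ε hε
    exact ⟨u.1, u.2, h2, fun q hq => h1 (f q) (h3 q hq)⟩
  · rintro ⟨-, h⟩ p ε hε
    obtain ⟨B, -, hB⟩ := exists_ball hr hE hε
    obtain ⟨u, h1, h2, h3⟩ := h p (B (f p)).1 (B (f p)).2 ((hB _ _).2 (by rwa [sub_self, abs_zero]))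
    exact ⟨⟨u, h1⟩, h2, fun q hq => (hB _ _).1 (h3 q hq)⟩

open Classical in
/-- The Hewitt extension is not a `P`-space. -/
theorem hewitt (hE : IsUsualTop tE r) {O : IPow N β → Prop} (h : TpO O) {P : INat N → β}
    (hP : IntF N P)
    (hconst : ∀ f : β → Helper672.Plain.El r, IntF N f → (∀ c, ∀ ε : Helper672.Plain.El r, 0 < ε → ∃ U, O U ∧ c ∈ U ∧
      ∀ d, d ∈ U → |f d - f c| < ε) → ∃ (m : INat N) (z : Helper672.Plain.El r), ∀ n, m ≤ n → f (P n) = z)
    (hsep : ∀ n, ∃ V, Clp O V ∧ P n ∈ V ∧ ∀ k, k ≠ n → ¬ P k ∈ V) :
    ∃ s v : N, IsHewittExtension (tp O h.int) (dom N β) tE r s v ∧ ¬ GdeltasOpen s := by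
  have hlt := int_lt hr
  have hd := int_ds hr
  obtain ⟨x, hx⟩ : ∃ x, x = dom N β := ⟨_, rfl⟩
  obtain ⟨t, ht⟩ : ∃ t, t = tp O h.int := ⟨_, rfl⟩
  have hCn := int_Cn hr t x
  -- the set of continuous functions
  obtain ⟨c, hc⟩ : ∃ c : N, ∀ g, Helper672.Plain.Mem g c ↔ ∃ f : IFun N (Helper672.Plain.El x) (Helper672.Plain.El r), Cn t x r f ∧ code f = g := by
    refine ⟨code (sep N (Cn t x r)), fun g => mem_cp.trans ?_⟩
    exact ⟨fun ⟨f, h1, h2⟩ => ⟨f, (mem_sep hCn).1 h1, h2⟩, fun ⟨f, h1, h2⟩ => ⟨f, (mem_sep hCn).2 h1, h2⟩⟩
  have hD0 : ∀ g : Helper672.Plain.El c, ∃ f : IFun N (Helper672.Plain.El x) (Helper672.Plain.El r), Cn t x r f ∧ code f = g.1 := fun g =>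
    (hc g.1).1 g.2
  choose Dg hDc hD using hD0
  have hDI : IntF N Dg := by
    refine IntF.of_D (S := fun v => v 0 = v 1) (D.eqf (DF.var _) (DF.var _)) fun g f => ?_
    change g.1 = code f ↔ Dg g = f
    exact ⟨fun h1 => ITy.inj (M := N) ((hD g).trans h1), fun h1 => h1 ▸ (hD g).symm⟩
  obtain ⟨e, he, heD⟩ : ∃ e : Helper672.Plain.El x → Helper672.Plain.El c → Helper672.Plain.El r, IntF N (fun q : Helper672.Plain.El x × Helper672.Plain.El c => e q.1 q.2) ∧
      ∀ p g, e p g = Dg g p := ⟨fun p g => Dg g p, by (repeat' (first | with_reducible exact IntF.id | with_reducible exact IntF.fst' | with_reducible exact IntF.snd' | with_reducible exact IntF.const _ | with_reducible exact Int.const _ | assumption | with_reducible apply Int.and | with_reducible apply Int.or | with_reducible apply Int.not | with_reducible apply Int.imp | with_reducible apply Int.iff | with_reducible apply Int.ne | with_reducible apply Int.eq | with_reducible apply Int.mem | with_reducible apply Int.subset | with_reducible apply Int.ltN | with_reducible apply Int.leN | with_reducible_and_instances apply Int.le | with_reducible_and_instances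 apply Int.lt | with_reducible apply Int.all | with_reducible apply Int.ex | with_reducible apply IntF.fst | with_reducible apply IntF.snd | with_reducible apply IntF.app | with_reducible apply IntF.inl | with_reducible apply IntF.inr | with_reducible_and_instances apply IntF.mul | with_reducible_and_instances apply IntF.inv | with_reducible_and_instances apply IntF.add | with_reducible_and_instances apply IntF.sub | with_reducible_and_instances apply IntF.neg | with_reducible_and_instances apply IntF.smul | with_reducible apply Int.fin | with_reducible apply IntF.sep | with_reducible apply IntF.lam | with_reducible apply IntF.insert | with_reducible apply IntF.singleton | with_reducible apply IntF.union | with_reducible apply IntF.iimage | with_reducible apply IntF.ite | with_reducible apply IntF.the | with_reducible apply IntF.irec | with_reducible apply IntF.succ | with_reducible apply IntF.val | with_reducible apply IntF.mk | (with_reducible refine Int.comp ?_ ?_; assumption) | (with_reducible refine Int.comp₂ ?_ ?_ ?_; assumption) | (with_reducible refine Int.comp₃ ?_ ?_ ?_ ?_; assumption) | (with_reducible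 refine Int.comp₄ ?_ ?_ ?_ ?_ ?_; assumption) | (with_reducible refine IntF.comp ?_ ?_; assumption) | (with_reducible refine IntF.comp₂ ?_ ?_ ?_; assumption) | (with_reducible refine IntF.comp₃ ?_ ?_ ?_ ?_; assumption) | with_reducible apply IntF.pair)), fun _ _ => rfl⟩
  have hep : ∀ p, IntF N (fun i => e p i) := fun p =>
    IntF.comp (g := fun q : Helper672.Plain.El x × Helper672.Plain.El c => e q.1 q.2) he (IntF.pair (IntF.const p) IntF.id)
  -- the closure
  obtain ⟨Cl, hCl⟩ : ∃ Cl : IFun N (Helper672.Plain.El c) (Helper672.Plain.El r) → Prop, ∀ Y, Cl Y ↔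
      ∀ (F : IPow N (Helper672.Plain.El c)) (ε : Helper672.Plain.El r), IFin F → 0 < ε → ∃ p, ∀ i, i ∈ F → ds (e p i) (Y i) < ε :=
    ⟨_, fun _ => Iff.rfl⟩
  have hClI : Int N Cl := by
    refine Int.congr (p := fun Y : IFun N (Helper672.Plain.El c) (Helper672.Plain.El r) => ∀ (F : IPow N (Helper672.Plain.El c)) (ε : Helper672.Plain.El r),
      IFin F → 0 < ε → ∃ p, ∀ i, i ∈ F → ds (e p i) (Y i) < ε) (by (repeat' (first | with_reducible exact IntF.id | with_reducible exact IntF.fst' | with_reducible exact IntF.snd' | with_reducible exact IntF.const _ | with_reducible exact Int.const _ | assumption | with_reducible apply Int.and | with_reducible apply Int.or | with_reducible apply Int.not | with_reducible apply Int.imp | with_reducible apply Int.iff | with_reducible apply Int.ne | with_reducible apply Int.eq | with_reducible apply Int.mem | with_reducible apply Int.subset | with_reducible apply Int.ltN | with_reducible apply Int.leN | with_reducible_and_instances apply Int.le | with_reducible_and_instances apply Int.lt | with_reducible apply Int.all | with_reducible apply Int.ex | with_reducible apply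 IntF.fst | with_reducible apply IntF.snd | with_reducible apply IntF.app | with_reducible apply IntF.inl | with_reducible apply IntF.inr | with_reducible_and_instances apply IntF.mul | with_reducible_and_instances apply IntF.inv | with_reducible_and_instances apply IntF.add | with_reducible_and_instances apply IntF.sub | with_reducible_and_instances apply IntF.neg | with_reducible_and_instances apply IntF.smul | with_reducible apply Int.fin | with_reducible apply IntF.sep | with_reducible apply IntF.lam | with_reducible apply IntF.insert | with_reducible apply IntF.singleton | with_reducible apply IntF.union | with_reducible apply IntF.iimage | with_reducible apply IntF.ite | with_reducible apply IntF.the | with_reducible apply IntF.irec | with_reducible apply IntF.succ | with_reducible apply IntF.val | with_reducible apply IntF.mk | (with_reducible refine Int.comp ?_ ?_; assumption) | (with_reducible refine Int.comp₂ ?_ ?_ ?_; assumption) | (with_reducible refine Int.comp₃ ?_ ?_ ?_ ?_; assumption) | (with_reducible refine Int.comp₄ ?_ ?_ ?_ ?_ ?_; assumption) | (with_reducible refine IntF.comp ?_ ?_;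 assumption) | (with_reducible refine IntF.comp₂ ?_ ?_ ?_; assumption) | (with_reducible refine IntF.comp₃ ?_ ?_ ?_ ?_; assumption) | with_reducible apply IntF.pair))) fun Y => (hCl Y).symm
  have hCl' : ∀ Y : IFun N (Helper672.Plain.El c) (Helper672.Plain.El r), InClosure tE e (fun g => Y g) ↔ Cl Y := fun Y =>
    (inClosure_iff hr hE Y.int).trans (hCl Y).symm
  obtain ⟨v, hv⟩ : ∃ v : N, ∀ y, Helper672.Plain.Mem y v ↔ ∃ Y, Cl Y ∧ code Y = y := by
    refine ⟨code (sep N Cl), fun g => mem_cp.trans ?_⟩
    exact ⟨fun ⟨f, h1, h2⟩ => ⟨f, (mem_sep hClI).1 h1, h2⟩, fun ⟨f, h1, h2⟩ =>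
      ⟨f, (mem_sep hClI).2 h1, h2⟩⟩
  -- the topology
  obtain ⟨Op, hOp⟩ : ∃ Op : IPow N (IFun N (Helper672.Plain.El c) (Helper672.Plain.El r)) → Prop, ∀ U, Op U ↔
      (∀ Y, Y ∈ U → Cl Y) ∧ ∀ Y, Y ∈ U → ∃ (F : IPow N (Helper672.Plain.El c)) (ε : Helper672.Plain.El r), IFin F ∧ 0 < ε ∧
        ∀ Y', Cl Y' → (∀ i, i ∈ F → ds (Y' i) (Y i) < ε) → Y' ∈ U := ⟨_, fun _ => Iff.rfl⟩
  have hOpI : Int N Op := by
    refine Int.congr (p := fun U : IPow N (IFun N (Helper672.Plain.El c) (Helper672.Plain.El r)) => (∀ Y, Y ∈ U → Cl Y) ∧
      ∀ Y, Y ∈ U → ∃ (F : IPow N (Helper672.Plain.El c)) (ε : Helper672.Plain.El r), IFin F ∧ 0 < ε ∧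
        ∀ Y', Cl Y' → (∀ i, i ∈ F → ds (Y' i) (Y i) < ε) → Y' ∈ U) (by (repeat' (first | with_reducible exact IntF.id | with_reducible exact IntF.fst' | with_reducible exact IntF.snd' | with_reducible exact IntF.const _ | with_reducible exact Int.const _ | assumption | with_reducible apply Int.and | with_reducible apply Int.or | with_reducible apply Int.not | with_reducible apply Int.imp | with_reducible apply Int.iff | with_reducible apply Int.ne | with_reducible apply Int.eq | with_reducible apply Int.mem | with_reducible apply Int.subset | with_reducible apply Int.ltN | with_reducible apply Int.leN | with_reducible_and_instances apply Int.le | with_reducible_and_instances apply Int.lt | with_reducible apply Int.all | with_reducible apply Int.ex | with_reducible apply IntF.fst | with_reducible apply IntF.snd | with_reducible apply IntF.app | with_reducible apply IntF.inl | with_reducible apply IntF.inr | with_reducible_and_instances apply IntF.mul | with_reducible_and_instances apply IntF.inv | with_reducible_and_instances apply IntF.add | with_reducible_and_instances apply IntF.sub | with_reducible_and_instances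 apply IntF.neg | with_reducible_and_instances apply IntF.smul | with_reducible apply Int.fin | with_reducible apply IntF.sep | with_reducible apply IntF.lam | with_reducible apply IntF.insert | with_reducible apply IntF.singleton | with_reducible apply IntF.union | with_reducible apply IntF.iimage | with_reducible apply IntF.ite | with_reducible apply IntF.the | with_reducible apply IntF.irec | with_reducible apply IntF.succ | with_reducible apply IntF.val | with_reducible apply IntF.mk | (with_reducible refine Int.comp ?_ ?_; assumption) | (with_reducible refine Int.comp₂ ?_ ?_ ?_; assumption) | (with_reducible refine Int.comp₃ ?_ ?_ ?_ ?_; assumption) | (with_reducible refine Int.comp₄ ?_ ?_ ?_ ?_ ?_; assumption) | (with_reducible refine IntF.comp ?_ ?_; assumption) | (with_reducible refine IntF.comp₂ ?_ ?_ ?_; assumption) | (with_reducible refine IntF.comp₃ ?_ ?_ ?_ ?_; assumption) | with_reducible apply IntF.pair))) fun U => (hOp U).symm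
  obtain ⟨s, hs⟩ : ∃ s : N, ∀ u, Helper672.Plain.Mem u s ↔ ∃ U, Op U ∧ code U = u := by
    refine ⟨code (sep N Op), fun g => mem_cp.trans ?_⟩
    exact ⟨fun ⟨f, h1, h2⟩ => ⟨f, (mem_sep hOpI).1 h1, h2⟩, fun ⟨f, h1, h2⟩ =>
      ⟨f, (mem_sep hOpI).2 h1, h2⟩⟩
  have hvY : ∀ (y : N) (Y : Helper672.Plain.El c → Helper672.Plain.El r), Helper672.Plain.Mem y v → IsGraph y Y → ∃ Y' : IFun N (Helper672.Plain.El c) (Helper672.Plain.El r),
      Cl Y' ∧ code Y' = y ∧ ∀ i, Y i = Y' i := by
    intro y Y hy hY
    obtain ⟨Y', h1, h2⟩ := (hv y).1 hy
    exact ⟨Y', h1, h2, fun i => hY.unique' (h2 ▸ isGraph_code Y') i⟩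
  refine ⟨s, v, ?_, ?_⟩
  · rw [← hx, ← ht]
    refine ⟨c, e, fun g => ?_, fun g => ?_, fun y => ?_, fun u => ?_⟩
    · rw [show Helper672.Plain.Mem g c ↔ _ from hc g]
      constructor
      · rintro ⟨f, h1, rfl⟩
        exact ⟨fun p => f p, (cn_iff hr hE).1 h1, isGraph_code f⟩
      · rintro ⟨f, h1, h2⟩
        obtain ⟨h3, h4⟩ := isGraph_iff.1 h2
        exact ⟨⟨f, h3⟩, (cn_iff hr hE).2 h1, h4⟩
    · have h1 : (fun p => e p g) = fun p => Dg g p := funext fun p => heD p g
      rw [h1, ← hD g]
      exact isGraph_code (Dg g)
    · rw [show Helper672.Plain.Mem y v ↔ _ from hv y]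
      constructor
      · rintro ⟨Y, h1, rfl⟩
        exact ⟨fun g => Y g, isGraph_code Y, (hCl' Y).2 h1⟩
      · rintro ⟨Y, h1, h2⟩
        obtain ⟨h3, h4⟩ := isGraph_iff.1 h1
        exact ⟨⟨Y, h3⟩, (hCl' ⟨Y, h3⟩).1 h2, h4⟩
    · rw [show Helper672.Plain.Mem u s ↔ _ from hs u]
      constructor
      · rintro ⟨U, hU, rfl⟩
        obtain ⟨h1, h2⟩ := (hOp U).1 hU
        refine ⟨fun y hy => ?_, fun y Y hy hY => ?_⟩
        · obtain ⟨Y, hY, rfl⟩ := mem_cp.1 hy
          exact (hv _).2 ⟨Y, h1 Y hY, rfl⟩
        · obtain ⟨Y₀, hY₀, rfl⟩ := mem_cp.1 hy
          have h3 : ∀ i, Y i = Y₀ i := hY.unique' (isGraph_code Y₀)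
          obtain ⟨F, ε, hF, hε, h4⟩ := h2 Y₀ hY₀
          obtain ⟨F', O', g1, g2, g3, g4⟩ := basicB hr hE (Y := fun i => Y₀ i) hF hε Y₀.int
          refine ⟨F', O', g1, g2, fun i hi => ?_, fun y' Y' hy' hY' hYO => ?_⟩
          · rw [h3 i]
            exact g3 i hi
          · obtain ⟨Y'', k1, rfl, k2⟩ := hvY y' Y' hy' hY'
            refine mem_cp'.2 (h4 Y'' k1 fun i hi => ?_)
            have := g4 Y' hYO i hi
            rwa [k2 i] at this
      · rintro ⟨h1, h2⟩
        have hI : Int N (fun Y : IFun N (Helper672.Plain.El c) (Helper672.Plain.El r) => Helper672.Plain.Mem (code Y) u) := ⟨u, fun x => Iff.rfl⟩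
        have h3 : ∀ Y, Y ∈ sep N (fun Y : IFun N (Helper672.Plain.El c) (Helper672.Plain.El r) => Helper672.Plain.Mem (code Y) u) ↔ Helper672.Plain.Mem (code Y) u :=
          fun Y => mem_sep hI
        refine ⟨sep N fun Y : IFun N (Helper672.Plain.El c) (Helper672.Plain.El r) => Helper672.Plain.Mem (code Y) u, (hOp _).2 ⟨fun Y hY => ?_,
          fun Y hY => ?_⟩, extN fun z => ?_⟩
        · obtain ⟨Y', h4, h5⟩ := (hv _).1 (h1 _ ((h3 Y).1 hY))
          rwa [← ITy.inj (M := N) h5]
        · obtain ⟨F, O', g1, g2, g3, g4⟩ := h2 (code Y) (fun g => Y g) ((h3 Y).1 hY) (isGraph_code Y)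
          obtain ⟨F', ε, k1, k2, k3⟩ := basicA hr hE g1 g2 Y.int g3
          refine ⟨F', ε, k1, k2, fun Y' hY' hY2 => (h3 Y').2 ?_⟩
          exact g4 (code Y') (fun g => Y' g) ((hv _).2 ⟨Y', hY', rfl⟩) (isGraph_code Y')
            (k3 _ hY2)
        · rw [mem_cp]
          constructor
          · rintro ⟨Y, h4, rfl⟩
            exact (h3 Y).1 h4
          · intro hz
            obtain ⟨Y, -, rfl⟩ := (hv z).1 (h1 z hz)
            exact ⟨Y, (h3 Y).2 hz, rfl⟩
  · intro hG
    -- the points
    obtain ⟨Q, hQ, hQ'⟩ : ∃ Q : INat N → Helper672.Plain.El x, IntF N Q ∧ ∀ n, (Q n).1 = code (P n) := by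
      subst hx
      exact ⟨fun n => enc (P n), IntF.comp (g := fun b : β => enc (N := N) b) int_enc hP,
        fun n => rfl⟩
    let ev : INat N → IFun N (Helper672.Plain.El c) (Helper672.Plain.El r) := fun n => lam N fun g => e (Q n) g
    have hevI : IntF N ev := by
      refine IntF.lam ?_
      exact IntF.comp (g := fun q : Helper672.Plain.El x × Helper672.Plain.El c => e q.1 q.2) he
        (IntF.pair (IntF.comp (g := Q) hQ IntF.fst') IntF.snd')
    have hev : ∀ n g, ev n g = e (Q n) g := fun n g => lam_apply (hep (Q n)) g
    have hevCl : ∀ n, Cl (ev n) := fun n => (hCl _).2 fun F ε _ hε => ⟨Q n, fun i _ => by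
      change |e (Q n) i - ev n i| < ε
      rwa [hev, sub_self, abs_zero]⟩
    -- the limit
    have hlim0 : ∀ g : Helper672.Plain.El c, ∃ z : Helper672.Plain.El r, ∃ m : INat N, ∀ n, m ≤ n → e (Q n) g = z := by
      intro g
      have h1 := hDc g
      subst hx
      have henc := int_enc (N := N) (κ := β)
      obtain ⟨m, z, h2⟩ := hconst (fun b => e (enc b) g) (by
        exact IntF.comp (g := fun q : Helper672.Plain.El (dom N β) × Helper672.Plain.El c => e q.1 q.2) he
          (IntF.pair (IntF.comp (g := fun b : β => enc (N := N) b) henc IntF.id)
            (IntF.const g))) fun b ε hε => by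
          obtain ⟨u, h3, h4⟩ := h1 (enc b) ε hε
          obtain ⟨U, hU, h5⟩ := mem_tp.1 (ht ▸ u.2 : Helper672.Plain.Mem u.1 (tp O h.int))
          rw [← h5] at h3 h4
          refine ⟨U, hU, mem_cp'.1 h3, fun d hd => ?_⟩
          have h6 := h4 (enc d) (mem_cp'.2 hd)
          change |e (enc d) g - e (enc b) g| < ε
          rw [heD, heD]
          exact h6
      refine ⟨z, m, fun n hn => ?_⟩
      have h3 := h2 n hn
      have h4 : Q n = enc (P n) := Subtype.ext (hQ' n)
      rw [h4]
      exact h3
    choose z hz using hlim0
    have hle0 : Int N (fun q : Helper672.Plain.El c × Helper672.Plain.El r => ∃ m : INat N, ∀ n, m ≤ n → e (Q n) q.1 = q.2) := by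
      (repeat' (first | with_reducible exact IntF.id | with_reducible exact IntF.fst' | with_reducible exact IntF.snd' | with_reducible exact IntF.const _ | with_reducible exact Int.const _ | assumption | with_reducible apply Int.and | with_reducible apply Int.or | with_reducible apply Int.not | with_reducible apply Int.imp | with_reducible apply Int.iff | with_reducible apply Int.ne | with_reducible apply Int.eq | with_reducible apply Int.mem | with_reducible apply Int.subset | with_reducible apply Int.ltN | with_reducible apply Int.leN | with_reducible_and_instances apply Int.le | with_reducible_and_instances apply Int.lt | with_reducible apply Int.all | with_reducible apply Int.ex | with_reducible apply IntF.fst | with_reducible apply IntF.snd | with_reducible apply IntF.app | with_reducible apply IntF.inl | with_reducible apply IntF.inr | with_reducible_and_instances apply IntF.mul | with_reducible_and_instances apply IntF.inv | with_reducible_and_instances apply IntF.add | with_reducible_and_instances apply IntF.sub | with_reducible_and_instances apply IntF.neg | with_reducible_and_instances apply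 IntF.smul | with_reducible apply Int.fin | with_reducible apply IntF.sep | with_reducible apply IntF.lam | with_reducible apply IntF.insert | with_reducible apply IntF.singleton | with_reducible apply IntF.union | with_reducible apply IntF.iimage | with_reducible apply IntF.ite | with_reducible apply IntF.the | with_reducible apply IntF.irec | with_reducible apply IntF.succ | with_reducible apply IntF.val | with_reducible apply IntF.mk | (with_reducible refine Int.comp ?_ ?_; assumption) | (with_reducible refine Int.comp₂ ?_ ?_ ?_; assumption) | (with_reducible refine Int.comp₃ ?_ ?_ ?_ ?_; assumption) | (with_reducible refine Int.comp₄ ?_ ?_ ?_ ?_ ?_; assumption) | (with_reducible refine IntF.comp ?_ ?_; assumption) | (with_reducible refine IntF.comp₂ ?_ ?_ ?_; assumption) | (with_reducible refine IntF.comp₃ ?_ ?_ ?_ ?_; assumption) | with_reducible apply IntF.pair))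
    have hzI : IntF N z := IntF.of_unique (p := fun (g : Helper672.Plain.El c) (z : Helper672.Plain.El r) =>
      ∃ m : INat N, ∀ n, m ≤ n → e (Q n) g = z) hle0 hz fun g z₁ z₂ ⟨m₁, h1⟩ ⟨m₂, h2⟩ =>
        (h1 (max m₁ m₂) (le_max_left _ _)).symm.trans (h2 (max m₁ m₂) (le_max_right _ _))
    have hfin : ∀ F : IPow N (Helper672.Plain.El c), IFin F → ∃ m : INat N, ∀ g, g ∈ F → e (Q m) g = z g := by
      intro F hF
      obtain ⟨m, hm⟩ := IFin.exists_bound (r := fun (g : Helper672.Plain.El c) (m : INat N) =>
        ∀ n, m ≤ n → e (Q n) g = z g) (by (repeat' (first | with_reducible exact IntF.id | with_reducible exact IntF.fst' | with_reducible exact IntF.snd' | with_reducible exact IntF.const _ | with_reducible exact Int.const _ | assumption | with_reducible apply Int.and | with_reducible apply Int.or | with_reducible apply Int.not | with_reducible apply Int.imp | with_reducible apply Int.iff | with_reducible apply Int.ne | with_reducible apply Int.eq | with_reducible apply Int.mem | with_reducible apply Int.subset | with_reducible apply Int.ltN | with_reducible apply Int.leN | with_reducible_and_instances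 apply Int.le | with_reducible_and_instances apply Int.lt | with_reducible apply Int.all | with_reducible apply Int.ex | with_reducible apply IntF.fst | with_reducible apply IntF.snd | with_reducible apply IntF.app | with_reducible apply IntF.inl | with_reducible apply IntF.inr | with_reducible_and_instances apply IntF.mul | with_reducible_and_instances apply IntF.inv | with_reducible_and_instances apply IntF.add | with_reducible_and_instances apply IntF.sub | with_reducible_and_instances apply IntF.neg | with_reducible_and_instances apply IntF.smul | with_reducible apply Int.fin | with_reducible apply IntF.sep | with_reducible apply IntF.lam | with_reducible apply IntF.insert | with_reducible apply IntF.singleton | with_reducible apply IntF.union | with_reducible apply IntF.iimage | with_reducible apply IntF.ite | with_reducible apply IntF.the | with_reducible apply IntF.irec | with_reducible apply IntF.succ | with_reducible apply IntF.val | with_reducible apply IntF.mk | (with_reducible refine Int.comp ?_ ?_; assumption) | (with_reducible refine Int.comp₂ ?_ ?_ ?_; assumption) | (with_reducible refine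 Int.comp₃ ?_ ?_ ?_ ?_; assumption) | (with_reducible refine Int.comp₄ ?_ ?_ ?_ ?_ ?_; assumption) | (with_reducible refine IntF.comp ?_ ?_; assumption) | (with_reducible refine IntF.comp₂ ?_ ?_ ?_; assumption) | (with_reducible refine IntF.comp₃ ?_ ?_ ?_ ?_; assumption) | with_reducible apply IntF.pair))) (fun b c => ⟨max b c, fun a ha n hn =>
          ha.elim (fun h => h n ((le_max_left _ _).trans hn))
            fun h => h n ((le_max_right _ _).trans hn)⟩) ⟨0⟩ hF fun g _ => hz g
      exact ⟨m, fun g hg => hm g hg m le_rfl⟩
    have hzCl : Cl ⟨z, hzI⟩ := (hCl _).2 fun F ε hF hε => by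
      obtain ⟨m, hm⟩ := hfin F hF
      refine ⟨Q m, fun i hi => ?_⟩
      change |e (Q m) i - z i| < ε
      rwa [hm i hi, sub_self, abs_zero]
    have hzne : ∀ n, (⟨z, hzI⟩ : IFun N (Helper672.Plain.El c) (Helper672.Plain.El r)) ≠ ev n := by
      intro n hn
      obtain ⟨V, ⟨hV, V', hV', hVV⟩, h1, h2⟩ := hsep n
      have hI : Int N (fun p : Helper672.Plain.El x => Helper672.Plain.Mem p.1 (code V)) := memI' _ _
      obtain ⟨f, hf⟩ : ∃ f : IFun N (Helper672.Plain.El x) (Helper672.Plain.El r), ∀ p, f p = if Helper672.Plain.Mem p.1 (code V) then 1 else 0 :=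
        ⟨⟨fun p => if Helper672.Plain.Mem p.1 (code V) then 1 else 0, by (repeat' (first | with_reducible exact IntF.id | with_reducible exact IntF.fst' | with_reducible exact IntF.snd' | with_reducible exact IntF.const _ | with_reducible exact Int.const _ | assumption | with_reducible apply Int.and | with_reducible apply Int.or | with_reducible apply Int.not | with_reducible apply Int.imp | with_reducible apply Int.iff | with_reducible apply Int.ne | with_reducible apply Int.eq | with_reducible apply Int.mem | with_reducible apply Int.subset | with_reducible apply Int.ltN | with_reducible apply Int.leN | with_reducible_and_instances apply Int.le | with_reducible_and_instances apply Int.lt | with_reducible apply Int.all | with_reducible apply Int.ex | with_reducible apply IntF.fst | with_reducible apply IntF.snd | with_reducible apply IntF.app | with_reducible apply IntF.inl | with_reducible apply IntF.inr | with_reducible_and_instances apply IntF.mul | with_reducible_and_instances apply IntF.inv | with_reducible_and_instances apply IntF.add | with_reducible_and_instances apply IntF.sub | with_reducible_and_instances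 apply IntF.neg | with_reducible_and_instances apply IntF.smul | with_reducible apply Int.fin | with_reducible apply IntF.sep | with_reducible apply IntF.lam | with_reducible apply IntF.insert | with_reducible apply IntF.singleton | with_reducible apply IntF.union | with_reducible apply IntF.iimage | with_reducible apply IntF.ite | with_reducible apply IntF.the | with_reducible apply IntF.irec | with_reducible apply IntF.succ | with_reducible apply IntF.val | with_reducible apply IntF.mk | (with_reducible refine Int.comp ?_ ?_; assumption) | (with_reducible refine Int.comp₂ ?_ ?_ ?_; assumption) | (with_reducible refine Int.comp₃ ?_ ?_ ?_ ?_; assumption) | (with_reducible refine Int.comp₄ ?_ ?_ ?_ ?_ ?_; assumption) | (with_reducible refine IntF.comp ?_ ?_; assumption) | (with_reducible refine IntF.comp₂ ?_ ?_ ?_; assumption) | (with_reducible refine IntF.comp₃ ?_ ?_ ?_ ?_; assumption) | with_reducible apply IntF.pair))⟩, fun _ => rfl⟩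
      have hfc : Cn t x r f := by
        intro p ε hε
        by_cases hp : Helper672.Plain.Mem p.1 (code V)
        · refine ⟨⟨code V, ht ▸ mem_tp'.2 hV⟩, hp, fun q hq => ?_⟩
          change |f q - f p| < ε
          rw [hf, hf, if_pos hp, if_pos (show Helper672.Plain.Mem q.1 (code V) from hq), sub_self, abs_zero]
          exact hε
        · refine ⟨⟨code V', ht ▸ mem_tp'.2 hV'⟩, ?_, fun q hq => ?_⟩
          · have h3 : Helper672.Plain.Mem p.1 (dom N β) := hx ▸ p.2
            obtain ⟨b, hb⟩ := mem_domP.1 h3
            rw [← hb] at hp ⊢
            exact mem_cp'.2 ((hVV b).2 fun h4 => hp (mem_cp'.2 h4))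
          · have h3 : ¬ Helper672.Plain.Mem q.1 (code V) := by
              obtain ⟨b, hb, hb'⟩ := mem_cp.1 hq
              rw [← hb']
              exact fun h4 => (hVV b).1 hb (mem_cp'.1 h4)
            change |f q - f p| < ε
            rw [hf, hf, if_neg hp, if_neg h3, sub_self, abs_zero]
            exact hε
      obtain ⟨g, hg⟩ : ∃ g : Helper672.Plain.El c, g.1 = code f := ⟨⟨code f, (hc _).2 ⟨f, hfc, rfl⟩⟩, rfl⟩
      have hDg : Dg g = f := ITy.inj (M := N) ((hD g).trans hg)
      have hQf : ∀ k, e (Q k) g = if P k ∈ V then 1 else 0 := fun k => by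
        rw [heD, hDg, hf, hQ']
        simp only [mem_cp']
      have h3 : z g = e (Q n) g := by
        have := congrArg (fun Y : IFun N (Helper672.Plain.El c) (Helper672.Plain.El r) => Y g) hn
        exact this.trans (hev n g)
      obtain ⟨m, hm⟩ := hz g
      have h4 := hm (max m n.succ) (le_max_left _ _)
      rw [hQf, if_neg (h2 _ fun h5 => ?_), h3, hQf, if_pos h1] at h4
      · exact zero_ne_one h4
      · exact absurd ((le_max_right m n.succ).trans h5.le) (not_le.2 (INat.lt_succ_self n))
    -- the open sets
    have hVI' : Int N (fun q : INat N × IFun N (Helper672.Plain.El c) (Helper672.Plain.El r) => Cl q.2 ∧ q.2 ≠ ev q.1) := by (repeat' (first | with_reducible exact IntF.id | with_reducible exact IntF.fst' | with_reducible exact IntF.snd' | with_reducible exact IntF.const _ | with_reducible exact Int.const _ | assumption | with_reducible apply Int.and | with_reducible apply Int.or | with_reducible apply Int.not | with_reducible apply Int.imp | with_reducible apply Int.iff | with_reducible apply Int.ne | with_reducible apply Int.eq | with_reducible apply Int.mem | with_reducible apply Int.subset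 | with_reducible apply Int.ltN | with_reducible apply Int.leN | with_reducible_and_instances apply Int.le | with_reducible_and_instances apply Int.lt | with_reducible apply Int.all | with_reducible apply Int.ex | with_reducible apply IntF.fst | with_reducible apply IntF.snd | with_reducible apply IntF.app | with_reducible apply IntF.inl | with_reducible apply IntF.inr | with_reducible_and_instances apply IntF.mul | with_reducible_and_instances apply IntF.inv | with_reducible_and_instances apply IntF.add | with_reducible_and_instances apply IntF.sub | with_reducible_and_instances apply IntF.neg | with_reducible_and_instances apply IntF.smul | with_reducible apply Int.fin | with_reducible apply IntF.sep | with_reducible apply IntF.lam | with_reducible apply IntF.insert | with_reducible apply IntF.singleton | with_reducible apply IntF.union | with_reducible apply IntF.iimage | with_reducible apply IntF.ite | with_reducible apply IntF.the | with_reducible apply IntF.irec | with_reducible apply IntF.succ | with_reducible apply IntF.val | with_reducible apply IntF.mk | (with_reducible refine Int.comp ?_ ?_;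 assumption) | (with_reducible refine Int.comp₂ ?_ ?_ ?_; assumption) | (with_reducible refine Int.comp₃ ?_ ?_ ?_ ?_; assumption) | (with_reducible refine Int.comp₄ ?_ ?_ ?_ ?_ ?_; assumption) | (with_reducible refine IntF.comp ?_ ?_; assumption) | (with_reducible refine IntF.comp₂ ?_ ?_ ?_; assumption) | (with_reducible refine IntF.comp₃ ?_ ?_ ?_ ?_; assumption) | with_reducible apply IntF.pair))
    let V : INat N → IPow N (IFun N (Helper672.Plain.El c) (Helper672.Plain.El r)) := fun n => sep N fun Y => Cl Y ∧ Y ≠ ev n
    have hV : IntF N V := IntF.sep hVI'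
    have hVm : ∀ n Y, Y ∈ V n ↔ Cl Y ∧ Y ≠ ev n := fun n Y =>
      mem_sep (Int.comp (p := fun q : INat N × IFun N (Helper672.Plain.El c) (Helper672.Plain.El r) => Cl q.2 ∧ q.2 ≠ ev q.1) hVI'
        (IntF.pair (IntF.const n) IntF.id))
    have hVo : ∀ n, Op (V n) := by
      intro n
      refine (hOp _).2 ⟨fun Y hY => ((hVm n Y).1 hY).1, fun Y hY => ?_⟩
      obtain ⟨h1, h2⟩ := (hVm n Y).1 hY
      have h3 : ∃ g, Y g ≠ ev n g := by
        by_contra h4
        push Not at h4
        exact h2 (IFun.ext' h4)
      obtain ⟨g, hg⟩ := h3
      refine ⟨insert g ∅, |ev n g - Y g|, IFin.empty.insert _,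
        abs_pos.2 (sub_ne_zero.2 (Ne.symm hg)), fun Y' hY' h4 => (hVm n Y').2 ⟨hY', ?_⟩⟩
      rintro rfl
      have h5 : |ev n g - Y g| < |ev n g - Y g| := h4 g (mem_insert.2 (Or.inl rfl))
      exact lt_irrefl _ h5
    have hGI : Int N (fun Y : IFun N (Helper672.Plain.El c) (Helper672.Plain.El r) => ∀ n, Y ∈ V n) := by (repeat' (first | with_reducible exact IntF.id | with_reducible exact IntF.fst' | with_reducible exact IntF.snd' | with_reducible exact IntF.const _ | with_reducible exact Int.const _ | assumption | with_reducible apply Int.and | with_reducible apply Int.or | with_reducible apply Int.not | with_reducible apply Int.imp | with_reducible apply Int.iff | with_reducible apply Int.ne | with_reducible apply Int.eq | with_reducible apply Int.mem | with_reducible apply Int.subset | with_reducible apply Int.ltN | with_reducible apply Int.leN | with_reducible_and_instances apply Int.le | with_reducible_and_instances apply Int.lt | with_reducible apply Int.all | with_reducible apply Int.ex | with_reducible apply IntF.fst | with_reducible apply IntF.snd | with_reducible apply IntF.app | with_reducible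 apply IntF.inl | with_reducible apply IntF.inr | with_reducible_and_instances apply IntF.mul | with_reducible_and_instances apply IntF.inv | with_reducible_and_instances apply IntF.add | with_reducible_and_instances apply IntF.sub | with_reducible_and_instances apply IntF.neg | with_reducible_and_instances apply IntF.smul | with_reducible apply Int.fin | with_reducible apply IntF.sep | with_reducible apply IntF.lam | with_reducible apply IntF.insert | with_reducible apply IntF.singleton | with_reducible apply IntF.union | with_reducible apply IntF.iimage | with_reducible apply IntF.ite | with_reducible apply IntF.the | with_reducible apply IntF.irec | with_reducible apply IntF.succ | with_reducible apply IntF.val | with_reducible apply IntF.mk | (with_reducible refine Int.comp ?_ ?_; assumption) | (with_reducible refine Int.comp₂ ?_ ?_ ?_; assumption) | (with_reducible refine Int.comp₃ ?_ ?_ ?_ ?_; assumption) | (with_reducible refine Int.comp₄ ?_ ?_ ?_ ?_ ?_; assumption) | (with_reducible refine IntF.comp ?_ ?_; assumption) | (with_reducible refine IntF.comp₂ ?_ ?_ ?_; assumption) | (with_reducible refine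 IntF.comp₃ ?_ ?_ ?_ ?_; assumption) | with_reducible apply IntF.pair))
    have hbI : Int N (fun U : IPow N (IFun N (Helper672.Plain.El c) (Helper672.Plain.El r)) => ∃ n, V n = U) := by (repeat' (first | with_reducible exact IntF.id | with_reducible exact IntF.fst' | with_reducible exact IntF.snd' | with_reducible exact IntF.const _ | with_reducible exact Int.const _ | assumption | with_reducible apply Int.and | with_reducible apply Int.or | with_reducible apply Int.not | with_reducible apply Int.imp | with_reducible apply Int.iff | with_reducible apply Int.ne | with_reducible apply Int.eq | with_reducible apply Int.mem | with_reducible apply Int.subset | with_reducible apply Int.ltN | with_reducible apply Int.leN | with_reducible_and_instances apply Int.le | with_reducible_and_instances apply Int.lt | with_reducible apply Int.all | with_reducible apply Int.ex | with_reducible apply IntF.fst | with_reducible apply IntF.snd | with_reducible apply IntF.app | with_reducible apply IntF.inl | with_reducible apply IntF.inr | with_reducible_and_instances apply IntF.mul | with_reducible_and_instances apply IntF.inv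 | with_reducible_and_instances apply IntF.add | with_reducible_and_instances apply IntF.sub | with_reducible_and_instances apply IntF.neg | with_reducible_and_instances apply IntF.smul | with_reducible apply Int.fin | with_reducible apply IntF.sep | with_reducible apply IntF.lam | with_reducible apply IntF.insert | with_reducible apply IntF.singleton | with_reducible apply IntF.union | with_reducible apply IntF.iimage | with_reducible apply IntF.ite | with_reducible apply IntF.the | with_reducible apply IntF.irec | with_reducible apply IntF.succ | with_reducible apply IntF.val | with_reducible apply IntF.mk | (with_reducible refine Int.comp ?_ ?_; assumption) | (with_reducible refine Int.comp₂ ?_ ?_ ?_; assumption) | (with_reducible refine Int.comp₃ ?_ ?_ ?_ ?_; assumption) | (with_reducible refine Int.comp₄ ?_ ?_ ?_ ?_ ?_; assumption) | (with_reducible refine IntF.comp ?_ ?_; assumption) | (with_reducible refine IntF.comp₂ ?_ ?_ ?_; assumption) | (with_reducible refine IntF.comp₃ ?_ ?_ ?_ ?_; assumption) | with_reducible apply IntF.pair))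
    have hGd : IsGdelta s (code (sep N fun Y : IFun N (Helper672.Plain.El c) (Helper672.Plain.El r) => ∀ n, Y ∈ V n)) := by
      refine ⟨code (sep N fun U : IPow N (IFun N (Helper672.Plain.El c) (Helper672.Plain.El r)) => ∃ n, V n = U), ?_,
        ⟨code (V 0), mem_cp.2 ⟨V 0, (mem_sep hbI).2 ⟨0, rfl⟩, rfl⟩⟩, fun u hu => ?_, fun y => ?_⟩
      · refine countable_rangeα hV fun y => ?_
        rw [mem_cp]
        constructor
        · rintro ⟨U, h4, rfl⟩
          obtain ⟨k, rfl⟩ := (mem_sep hbI).1 h4
          exact ⟨k, rfl⟩
        · rintro ⟨k, rfl⟩
          exact ⟨V k, (mem_sep hbI).2 ⟨k, rfl⟩, rfl⟩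
      · obtain ⟨U, h4, rfl⟩ := mem_cp.1 hu
        obtain ⟨k, rfl⟩ := (mem_sep hbI).1 h4
        exact (hs _).2 ⟨V k, hVo k, rfl⟩
      · constructor
        · intro hy u hu
          obtain ⟨U, h4, rfl⟩ := mem_cp.1 hu
          obtain ⟨k, rfl⟩ := (mem_sep hbI).1 h4
          obtain ⟨Y, hY, rfl⟩ := mem_cp.1 hy
          exact mem_cp'.2 ((mem_sep hGI).1 hY k)
        · intro hy
          obtain ⟨Y, -, rfl⟩ := mem_cp.1 (hy (code (V 0))
            (mem_cp.2 ⟨V 0, (mem_sep hbI).2 ⟨0, rfl⟩, rfl⟩))
          refine mem_cp'.2 ((mem_sep hGI).2 fun k => ?_)
          exact mem_cp'.1 (hy (code (V k)) (mem_cp.2 ⟨V k, (mem_sep hbI).2 ⟨k, rfl⟩, rfl⟩))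
    obtain ⟨U, hU, hU'⟩ := (hs _).1 (hG _ hGd)
    have hUm : ∀ Y, Y ∈ U ↔ ∀ n, Y ∈ V n := fun Y => by
      rw [ITy.inj (M := N) hU']
      exact mem_sep hGI
    obtain ⟨F, ε, hF, hε, h1⟩ := ((hOp U).1 hU).2 ⟨z, hzI⟩ ((hUm _).2 fun n =>
      (hVm n _).2 ⟨hzCl, hzne n⟩)
    obtain ⟨m, hm⟩ := hfin F hF
    have h2 : ev m ∈ U := h1 (ev m) (hevCl m) fun i hi => by
      change |ev m i - z i| < ε
      rw [hev, hm i hi, sub_self, abs_zero]
      exact hε
    exact ((hVm m _).1 ((hUm _).1 h2 m)).2 rfl

end

end Pool.Agent.Q301.BM
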