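import Pool.Agent.Q301.BM.HX
import Pool.Agent.Q301.BM.HH
import Pool.Agent.Q301.BM.Fin

/-!
# A Hewitt extension of a `P`-space that is not a `P`-space
-/

set_option maxHeartbeats 1000000
set_option linter.all false
set_option synthInstance.maxSize 2000

namespace Pool.Agent.Q301.BM

open FirstOrder FirstOrder.Language
open Pool.Agent.Helper672.ZFA
open Pool.Agent.Helper672.Plain (LSet)
open Pool.Agent.Helper672.ZFA.H635 (toL plainN_ordPair plainN_graph plainN_opGraph IsGen NN nn_zf
  CollL coll_of_zf exists_countable_sub exists_reals isModel_of_zermelo nn_zermelo IPerm)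
open Pool.Agent.H635Amen (IsReals ZF)
open Pool.Agent.H310Cards (IsOmega IsFinite IsFun App IsInj IsNat IsProd)
open Pool.Agent.H310Top (IsTopology IsClosed IsCompact)
open Pool.Agent.H310 (FinP finP_iff finP_le finP_lt exists_BN mem_nat nat_iff appN finite_of_finP
  mem_cp extN exists_code instPEl exists_q pr int_pr pr_inj)
open Pool.Agent.Q301.TM

universe u u₁

section

attribute [local instance] toL instPEl

variable {N : Type u} [LSet.Structure N] [hM : IsModel N]

theorem gdeltasOpen {t x : N} (ht : IsTopology t x) (hp : IsPSpace t x) : GdeltasOpen t := by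
  intro c hc
  refine open_of_local ht fun z hz => ?_
  obtain ⟨b, hb, ⟨v, hv⟩, h1, h2⟩ := hc
  have hzx : Helper672.Plain.Mem z x := ht.sub v (h1 v hv) z ((h2 z).1 hz v hv)
  exact hp z hzx c ⟨b, hb, ⟨v, hv⟩, h1, h2⟩ hz

theorem exists_disc (r : N) : ∃ tD : N, IsDiscreteTop tD r := by
  have hI : Int N (fun U : IPow N (Helper672.Plain.El r) => U = U) := by (repeat' (first | with_reducible exact IntF.id | with_reducible exact IntF.fst' | with_reducible exact IntF.snd' | with_reducible exact IntF.const _ | with_reducible exact Int.const _ | assumption | with_reducible apply Int.and | with_reducible apply Int.or | with_reducible apply Int.not | with_reducible apply Int.imp | with_reducible apply Int.iff | with_reducible apply Int.ne | with_reducible apply Int.eq | with_reducible apply Int.mem | with_reducible apply Int.subset | with_reducible apply Int.ltN | with_reducible apply Int.leN | with_reducible_and_instances apply Int.le | with_reducible_and_instances apply Int.lt | with_reducible apply Int.all | with_reducible apply Int.ex | with_reducible apply IntF.fst | with_reducible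 apply IntF.snd | with_reducible apply IntF.app | with_reducible apply IntF.inl | with_reducible apply IntF.inr | with_reducible_and_instances apply IntF.mul | with_reducible_and_instances apply IntF.inv | with_reducible_and_instances apply IntF.add | with_reducible_and_instances apply IntF.sub | with_reducible_and_instances apply IntF.neg | with_reducible_and_instances apply IntF.smul | with_reducible apply Int.fin | with_reducible apply IntF.sep | with_reducible apply IntF.lam | with_reducible apply IntF.insert | with_reducible apply IntF.singleton | with_reducible apply IntF.union | with_reducible apply IntF.iimage | with_reducible apply IntF.ite | with_reducible apply IntF.the | with_reducible apply IntF.irec | with_reducible apply IntF.succ | with_reducible apply IntF.val | with_reducible apply IntF.mk | (with_reducible refine Int.comp ?_ ?_; assumption) | (with_reducible refine Int.comp₂ ?_ ?_ ?_; assumption) | (with_reducible refine Int.comp₃ ?_ ?_ ?_ ?_; assumption) | (with_reducible refine Int.comp₄ ?_ ?_ ?_ ?_ ?_; assumption) | (with_reducible refine IntF.comp ?_ ?_;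 assumption) | (with_reducible refine IntF.comp₂ ?_ ?_ ?_; assumption) | (with_reducible refine IntF.comp₃ ?_ ?_ ?_ ?_; assumption) | with_reducible apply IntF.pair))
  refine ⟨code (sep N fun U : IPow N (Helper672.Plain.El r) => U = U), fun u => ?_⟩
  rw [show Helper672.Plain.Mem u (code (sep N fun U : IPow N (Helper672.Plain.El r) => U = U)) ↔ _ from mem_cp]
  constructor
  · rintro ⟨U, -, rfl⟩ z hz
    exact (mem_cpE.1 hz).1
  · intro h
    obtain ⟨U, rfl, -⟩ := exists_code (a := r) h
    exact ⟨U, (mem_sep hI).2 rfl, rfl⟩

end

theorem pa61393 (h : ∃ (M : Type u) (_ : LSet.Structure M), ZF M) :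
    ∃ (N : Type u) (_ : LSet.Structure N), ZF N ∧
      ∃ (r : N) (_ : Field (Helper672.Plain.El r)) (_ : LinearOrder (Helper672.Plain.El r)) (_ : IsStrictOrderedRing (Helper672.Plain.El r)),
        IsReals r ∧ ∃ tE tD t x s v : N, IsUsualTop tE r ∧ IsTychonoff tE r r ∧
          IsDiscreteTop tD r ∧ IsECompact tD r tE r ∧
          IsTopology t x ∧ IsECompletelyRegular t x tE r ∧ GdeltasOpen t ∧
          IsHewittExtension t x tE r s v ∧ ¬ GdeltasOpen s := by
  obtain ⟨N, iN, hN, hZ, D⟩ := exists_bm h
  letI := toL N
  letI : IsModel N := isModel_of_zermelo hZ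
  obtain ⟨a, R, hR⟩ := D
  obtain ⟨r, i1, i2, i3, hr⟩ := exists_reals hZ
  obtain ⟨tE, hE⟩ := exists_usual hr
  obtain ⟨tD, hD⟩ := exists_disc r
  have h1 := tpO_OH hR
  obtain ⟨s, v, h2, h3⟩ := hewitt hr hE h1 (P := fun n => (Sum.inr (Sum.inr n) : BT N (El a)))
    (IntF.inr (IntF.inr IntF.id)) (fun f hf hc => evconst hr hR hf hc) fun n => by
      obtain ⟨V, g1, g2, g3⟩ := sepP_OH hR n
      exact ⟨V, g1, g2, g3⟩
  exact ⟨N, iN, hN, r, i1, i2, i3, hr, tE, tD, _, _, s, v, hE, usual_tychonoff hr hE, hD,
    disc_compact hr hE hD, isTopology_tp h1, isECR_of hr hE h1 (zd_OH hR) (sep_OH hR),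
    gdeltasOpen (isTopology_tp h1) (isPSpace_tp h1 (ppt_OH hR)), h2, h3⟩

end Pool.Agent.Q301.BM
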