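import Pool.Agent.Q301.BM.Hw

/-!
# Discrete real line, Tychonoff property, complete regularity
-/

set_option maxHeartbeats 1000000
set_option linter.all false
set_option synthInstance.maxSize 2000

namespace Pool.Agent.Q301.BM

open FirstOrder FirstOrder.Language
open Pool.Agent.Helper672.ZFA
open Pool.Agent.Helper672.Plain (LSet)
open Pool.Agent.Helper672.ZFA.H635 (toL plainN_ordPair plainN_graph plainN_opGraph)
open Pool.Agent.H635Amen (IsReals)
open Pool.Agent.H310Cards (IsOmega IsFinite IsFun App IsInj IsNat IsProd)
open Pool.Agent.H310Top (IsTopology IsClosed IsCompact)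
open Pool.Agent.H310 (FinP finP_iff finP_le finP_lt exists_BN mem_nat nat_iff appN finite_of_finP
  mem_cp extN exists_code instPEl exists_q pr int_pr pr_inj)
open Pool.Agent.Q301.TM

universe u u₁

attribute [local instance] toL instPEl

section

variable {N : Type u} [LSet.Structure N] [hM : IsModel N]
variable {r tE : N} [Field (Helper672.Plain.El r)] [LinearOrder (Helper672.Plain.El r)] [IsStrictOrderedRing (Helper672.Plain.El r)]
variable (hr : IsReals r)
include hr

open Classical in
/-- The discrete space of the real numbers is `ℝ`-compact. -/
theorem disc_compact (hE : IsUsualTop tE r) {tD : N} (hD : IsDiscreteTop tD r) :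
    IsECompact tD r tE r := by
  have hadd := int_add hr
  have hsub := int_sub' hr
  have hmul := int_mul hr
  let e' : Helper672.Plain.El r → INat N ⊕ Helper672.Plain.El r → Helper672.Plain.El r := fun y k =>
    Sum.elim (fun _ => y) (fun a => if y = a then 0 else (y - a)⁻¹) k
  have he' : IntF N (fun q : Helper672.Plain.El r × (INat N ⊕ Helper672.Plain.El r) => e' q.1 q.2) := by
    refine IntF.of_rel (r := fun (q : Helper672.Plain.El r × (INat N ⊕ Helper672.Plain.El r)) (z : Helper672.Plain.El r) =>
      (∃ n : INat N, Sum.inl n = q.2 ∧ z = q.1) ∨ ∃ a : Helper672.Plain.El r, Sum.inr a = q.2 ∧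
        ((q.1 = a ∧ z = 0) ∨ (q.1 ≠ a ∧ z * (q.1 - a) = 1))) (by (repeat' (first | with_reducible exact IntF.id | with_reducible exact IntF.fst' | with_reducible exact IntF.snd' | with_reducible exact IntF.const _ | with_reducible exact Int.const _ | assumption | with_reducible apply Int.and | with_reducible apply Int.or | with_reducible apply Int.not | with_reducible apply Int.imp | with_reducible apply Int.iff | with_reducible apply Int.ne | with_reducible apply Int.eq | with_reducible apply Int.mem | with_reducible apply Int.subset | with_reducible apply Int.ltN | with_reducible apply Int.leN | with_reducible_and_instances apply Int.le | with_reducible_and_instances apply Int.lt | with_reducible apply Int.all | with_reducible apply Int.ex | with_reducible apply IntF.fst | with_reducible apply IntF.snd | with_reducible apply IntF.app | with_reducible apply IntF.inl | with_reducible apply IntF.inr | with_reducible_and_instances apply IntF.mul | with_reducible_and_instances apply IntF.inv | with_reducible_and_instances apply IntF.add | with_reducible_and_instances apply IntF.sub | with_reducible_and_instances apply IntF.neg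 | with_reducible_and_instances apply IntF.smul | with_reducible apply Int.fin | with_reducible apply IntF.sep | with_reducible apply IntF.lam | with_reducible apply IntF.insert | with_reducible apply IntF.singleton | with_reducible apply IntF.union | with_reducible apply IntF.iimage | with_reducible apply IntF.ite | with_reducible apply IntF.the | with_reducible apply IntF.irec | with_reducible apply IntF.succ | with_reducible apply IntF.val | with_reducible apply IntF.mk | (with_reducible refine Int.comp ?_ ?_; assumption) | (with_reducible refine Int.comp₂ ?_ ?_ ?_; assumption) | (with_reducible refine Int.comp₃ ?_ ?_ ?_ ?_; assumption) | (with_reducible refine Int.comp₄ ?_ ?_ ?_ ?_ ?_; assumption) | (with_reducible refine IntF.comp ?_ ?_; assumption) | (with_reducible refine IntF.comp₂ ?_ ?_ ?_; assumption) | (with_reducible refine IntF.comp₃ ?_ ?_ ?_ ?_; assumption) | with_reducible apply IntF.pair))) ?_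
    rintro ⟨y, n | a⟩ z
    · constructor
      · rintro (⟨n', -, rfl⟩ | ⟨a, h, -⟩)
        · rfl
        · cases h
      · rintro rfl
        exact Or.inl ⟨n, rfl, rfl⟩
    · change _ ↔ (if y = a then 0 else (y - a)⁻¹) = z
      constructor
      · rintro (⟨n', h, -⟩ | ⟨a', h, h1⟩)
        · cases h
        · obtain rfl := Sum.inr_injective h
          rcases h1 with ⟨h1, rfl⟩ | ⟨h1, h2⟩
          · exact if_pos h1
          · rw [if_neg h1]
            exact (eq_inv_of_mul_eq_one_left h2).symm
      · rintro rfl
        refine Or.inr ⟨a, rfl, ?_⟩
        by_cases h : y = a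
        · rw [if_pos h]
          exact Or.inl ⟨h, rfl⟩
        · rw [if_neg h]
          exact Or.inr ⟨h, inv_mul_cancel₀ (sub_ne_zero.2 h)⟩
  have hdec := int_dec (N := N) (κ := INat N ⊕ Helper672.Plain.El r)
  let e : Helper672.Plain.El r → Helper672.Plain.El (dom N (INat N ⊕ Helper672.Plain.El r)) → Helper672.Plain.El r := fun p i => e' p (dec i)
  have he : IntF N (fun q : Helper672.Plain.El r × Helper672.Plain.El (dom N (INat N ⊕ Helper672.Plain.El r)) => e q.1 q.2) := by
    exact IntF.comp (g := fun q : Helper672.Plain.El r × (INat N ⊕ Helper672.Plain.El r) => e' q.1 q.2) he'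
      (IntF.pair IntF.fst' (IntF.comp (g := fun i => (dec i : INat N ⊕ Helper672.Plain.El r)) hdec IntF.snd'))
  have e0 : ∀ p, e p (enc (Sum.inl 0)) = p := fun p => by
    change e' p (dec (enc (Sum.inl 0))) = p
    rw [dec_enc]
    rfl
  have e1 : ∀ p a, e p (enc (Sum.inr a)) = if p = a then 0 else (p - a)⁻¹ := fun p a => by
    change e' p (dec (enc (Sum.inr a))) = _
    rw [dec_enc]
    rfl
  refine ⟨dom N (INat N ⊕ Helper672.Plain.El r), e, ⟨_, (enc (Sum.inl 0)).2⟩,
    (isEmbedding_iff hr hE he).2 ⟨fun p q h => ?_, fun u hu => ⟨fun _ p hp => ?_, fun _ => (hD u).2 hu⟩⟩,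
    fun y hy hyc => ?_⟩
  · have h1 := h (enc (Sum.inl 0))
    rwa [e0, e0] at h1
  · refine ⟨insert (enc (Sum.inl 0)) (insert (enc (Sum.inr p)) ∅), 1, (IFin.empty.insert _).insert _,
      one_pos, fun q hq => ?_⟩
    have h1 := hq _ (mem_insert.2 (Or.inl rfl))
    have h2 := hq _ (mem_insert.2 (Or.inr (mem_insert.2 (Or.inl rfl))))
    rw [e0, e0] at h1
    rw [e1, e1, if_pos rfl, sub_zero] at h2
    by_cases h3 : q = p
    · rw [h3]
      exact hp
    · rw [if_neg h3, abs_inv] at h2
      have h4 : 0 < |q - p| := abs_pos.2 (sub_ne_zero.2 h3)
      have h5 : |q - p|⁻¹ * |q - p| = 1 := inv_mul_cancel₀ h4.ne'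
      have h6 : |q - p|⁻¹ * |q - p| < 1 * 1 := mul_lt_mul'' h2 h1 (inv_nonneg.2 h4.le) h4.le
      rw [h5, one_mul] at h6
      exact absurd h6 (lt_irrefl _)
  · have hy' := isMap_iff.1 hy
    rw [inClosure_iff hr hE hy'] at hyc
    refine ⟨y (enc (Sum.inl 0)), ?_⟩
    intro i
    by_contra hne
    set a := y (enc (Sum.inl 0)) with ha
    set b := y (enc (Sum.inr a)) with hb
    have hb0 : 0 < |b| + 2 := by
      have := abs_nonneg b
      linarith
    have hε : 0 < min (min 1 |e a i - y i|) (|b| + 2)⁻¹ :=
      lt_min (lt_min one_pos (abs_pos.2 (sub_ne_zero.2 hne))) (inv_pos.2 hb0)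
    obtain ⟨p, hp⟩ := hyc (insert (enc (Sum.inl 0)) (insert (enc (Sum.inr a)) (insert i ∅))) _
      (((IFin.empty.insert _).insert _).insert _) hε
    have h1 := hp _ (mem_insert.2 (Or.inl rfl))
    have h2 := hp _ (mem_insert.2 (Or.inr (mem_insert.2 (Or.inl rfl))))
    have h3 := hp _ (mem_insert.2 (Or.inr (mem_insert.2 (Or.inr (mem_insert.2 (Or.inl rfl))))))
    rw [e0, ← ha] at h1
    rw [e1, ← hb] at h2
    by_cases h4 : p = a
    · rw [h4] at h3
      exact absurd (h3.trans_le ((min_le_left _ _).trans (min_le_right _ _))) (lt_irrefl _)
    · rw [if_neg h4] at h2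
      have h5 : 0 < |p - a| := abs_pos.2 (sub_ne_zero.2 h4)
      have h6 : |(p - a)⁻¹| < |b| + 1 := by
        have h7 := abs_sub_abs_le_abs_sub ((p - a)⁻¹) b
        have h8 := h2.trans_le ((min_le_left _ _).trans (min_le_left _ _))
        linarith
      have h7 : |p - a| < (|b| + 2)⁻¹ := h1.trans_le (min_le_right _ _)
      rw [abs_inv] at h6
      have h8 : |p - a| * (|b| + 2) < 1 := by
        have h9 := mul_lt_mul_of_pos_right h7 hb0
        rwa [inv_mul_cancel₀ hb0.ne'] at h9
      have h9 : 1 < |p - a| * (|b| + 1) := by
        have h10 := mul_lt_mul_of_pos_left h6 h5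
        rwa [mul_inv_cancel₀ h5.ne'] at h10
      nlinarith

omit hr in
theorem usual_top (hE : IsUsualTop tE r) : IsTopology tE r := by
  refine ⟨fun u hu => ((hE u).1 hu).1, (hE r).2 ⟨fun z hz => hz, fun p _ => ⟨1, one_pos, fun q _ =>
    q.2⟩⟩, fun u v w hu hv hw => (hE w).2 ⟨fun z hz => ((hE u).1 hu).1 z ((hw z).1 hz).1, fun p hp => ?_⟩,
    fun c w hc hw => (hE w).2 ⟨fun z hz => ?_, fun p hp => ?_⟩⟩
  · obtain ⟨ε, h1, h2⟩ := ((hE u).1 hu).2 p ((hw _).1 hp).1
    obtain ⟨δ, h3, h4⟩ := ((hE v).1 hv).2 p ((hw _).1 hp).2
    exact ⟨min ε δ, lt_min h1 h3, fun q hq => (hw _).2 ⟨h2 q (hq.trans_le (min_le_left _ _)),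
      h4 q (hq.trans_le (min_le_right _ _))⟩⟩
  · obtain ⟨u, hu, hz⟩ := (hw z).1 hz
    exact ((hE u).1 (hc u hu)).1 z hz
  · obtain ⟨u, hu, hz⟩ := (hw _).1 hp
    obtain ⟨ε, h1, h2⟩ := ((hE u).1 (hc u hu)).2 p hz
    exact ⟨ε, h1, fun q hq => (hw _).2 ⟨u, hu, h2 q hq⟩⟩

open Classical in
theorem usual_tychonoff (hE : IsUsualTop tE r) : IsTychonoff tE r r := by
  refine ⟨usual_top hE, fun p => ?_, ?_⟩
  · have h1 : Int N (fun q : Helper672.Plain.El r => q = p) := by (repeat' (first | with_reducible exact IntF.id | with_reducible exact IntF.fst' | with_reducible exact IntF.snd' | with_reducible exact IntF.const _ | with_reducible exact Int.const _ | assumption | with_reducible apply Int.and | with_reducible apply Int.or | with_reducible apply Int.not | with_reducible apply Int.imp | with_reducible apply Int.iff | with_reducible apply Int.ne | with_reducible apply Int.eq | with_reducible apply Int.mem | with_reducible apply Int.subset | with_reducible apply Int.ltN | with_reducible apply Int.leN | with_reducible_and_instances apply Int.le | with_reducible_and_instances apply Int.lt | with_reducible apply Int.all | with_reducible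 apply Int.ex | with_reducible apply IntF.fst | with_reducible apply IntF.snd | with_reducible apply IntF.app | with_reducible apply IntF.inl | with_reducible apply IntF.inr | with_reducible_and_instances apply IntF.mul | with_reducible_and_instances apply IntF.inv | with_reducible_and_instances apply IntF.add | with_reducible_and_instances apply IntF.sub | with_reducible_and_instances apply IntF.neg | with_reducible_and_instances apply IntF.smul | with_reducible apply Int.fin | with_reducible apply IntF.sep | with_reducible apply IntF.lam | with_reducible apply IntF.insert | with_reducible apply IntF.singleton | with_reducible apply IntF.union | with_reducible apply IntF.iimage | with_reducible apply IntF.ite | with_reducible apply IntF.the | with_reducible apply IntF.irec | with_reducible apply IntF.succ | with_reducible apply IntF.val | with_reducible apply IntF.mk | (with_reducible refine Int.comp ?_ ?_; assumption) | (with_reducible refine Int.comp₂ ?_ ?_ ?_; assumption) | (with_reducible refine Int.comp₃ ?_ ?_ ?_ ?_; assumption) | (with_reducible refine Int.comp₄ ?_ ?_ ?_ ?_ ?_; assumption) | (with_reducible refine IntF.comp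 ?_ ?_; assumption) | (with_reducible refine IntF.comp₂ ?_ ?_ ?_; assumption) | (with_reducible refine IntF.comp₃ ?_ ?_ ?_ ?_; assumption) | with_reducible apply IntF.pair))
    have h2 : Int N (fun q : Helper672.Plain.El r => q ≠ p) := by (repeat' (first | with_reducible exact IntF.id | with_reducible exact IntF.fst' | with_reducible exact IntF.snd' | with_reducible exact IntF.const _ | with_reducible exact Int.const _ | assumption | with_reducible apply Int.and | with_reducible apply Int.or | with_reducible apply Int.not | with_reducible apply Int.imp | with_reducible apply Int.iff | with_reducible apply Int.ne | with_reducible apply Int.eq | with_reducible apply Int.mem | with_reducible apply Int.subset | with_reducible apply Int.ltN | with_reducible apply Int.leN | with_reducible_and_instances apply Int.le | with_reducible_and_instances apply Int.lt | with_reducible apply Int.all | with_reducible apply Int.ex | with_reducible apply IntF.fst | with_reducible apply IntF.snd | with_reducible apply IntF.app | with_reducible apply IntF.inl | with_reducible apply IntF.inr | with_reducible_and_instances apply IntF.mul | with_reducible_and_instances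 apply IntF.inv | with_reducible_and_instances apply IntF.add | with_reducible_and_instances apply IntF.sub | with_reducible_and_instances apply IntF.neg | with_reducible_and_instances apply IntF.smul | with_reducible apply Int.fin | with_reducible apply IntF.sep | with_reducible apply IntF.lam | with_reducible apply IntF.insert | with_reducible apply IntF.singleton | with_reducible apply IntF.union | with_reducible apply IntF.iimage | with_reducible apply IntF.ite | with_reducible apply IntF.the | with_reducible apply IntF.irec | with_reducible apply IntF.succ | with_reducible apply IntF.val | with_reducible apply IntF.mk | (with_reducible refine Int.comp ?_ ?_; assumption) | (with_reducible refine Int.comp₂ ?_ ?_ ?_; assumption) | (with_reducible refine Int.comp₃ ?_ ?_ ?_ ?_; assumption) | (with_reducible refine Int.comp₄ ?_ ?_ ?_ ?_ ?_; assumption) | (with_reducible refine IntF.comp ?_ ?_; assumption) | (with_reducible refine IntF.comp₂ ?_ ?_ ?_; assumption) | (with_reducible refine IntF.comp₃ ?_ ?_ ?_ ?_; assumption) | with_reducible apply IntF.pair))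
    obtain ⟨c, hc⟩ := exists_set h1
    obtain ⟨u, hu⟩ := exists_set h2
    have hc' : ∀ z, Helper672.Plain.Mem z c ↔ z = p.1 := fun z => (hc z).trans
      ⟨fun ⟨_, h⟩ => congrArg Subtype.val h, fun h => ⟨h ▸ p.2, Subtype.ext h⟩⟩
    refine ⟨c, ⟨fun z hz => ((hc z).1 hz).1, u, (hE u).2 ⟨fun z hz => ((hu z).1 hz).1,
      fun q hq => ?_⟩, fun z => ?_⟩, hc'⟩
    · obtain ⟨_, h3⟩ := (hu _).1 hq
      refine ⟨|q - p|, abs_pos.2 (sub_ne_zero.2 h3), fun z hz => (hu _).2 ⟨z.2, ?_⟩⟩
      intro h4
      have h5 : z = p := h4
      rw [h5, abs_sub_comm] at hz
      exact lt_irrefl _ hz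
    · rw [hu z, hc' z]
      exact ⟨fun ⟨h3, h4⟩ => ⟨h3, fun h5 => h4 (Subtype.ext h5)⟩,
        fun ⟨h3, h4⟩ => ⟨h3, fun h5 => h4 (congrArg Subtype.val h5)⟩⟩
  · rintro c ⟨-, u, hu, h1⟩ p hp
    obtain ⟨ε, hε, h2⟩ := ((hE u).1 hu).2 p ((h1 _).2 ⟨p.2, hp⟩)
    have hd := int_ds hr
    have hm := int_mul hr
    have hle := int_le hr
    obtain ⟨F, hF, hmin⟩ : ∃ F : Helper672.Plain.El r → Helper672.Plain.El r, IntF N F ∧ ∀ q, F q = min 1 (|q - p| * ε⁻¹) := by
      refine ⟨fun q => if 1 ≤ ds q p * ε⁻¹ then 1 else ds q p * ε⁻¹, by (repeat' (first | with_reducible exact IntF.id | with_reducible exact IntF.fst' | with_reducible exact IntF.snd' | with_reducible exact IntF.const _ | with_reducible exact Int.const _ | assumption | with_reducible apply Int.and | with_reducible apply Int.or | with_reducible apply Int.not | with_reducible apply Int.imp | with_reducible apply Int.iff | with_reducible apply Int.ne | with_reducible apply Int.eq | with_reducible apply Int.mem | with_reducible apply Int.subset | with_reducible apply Int.ltN | with_reducible apply Int.leN | with_reducible_and_instances apply Int.le | with_reducible_and_instances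 apply Int.lt | with_reducible apply Int.all | with_reducible apply Int.ex | with_reducible apply IntF.fst | with_reducible apply IntF.snd | with_reducible apply IntF.app | with_reducible apply IntF.inl | with_reducible apply IntF.inr | with_reducible_and_instances apply IntF.mul | with_reducible_and_instances apply IntF.inv | with_reducible_and_instances apply IntF.add | with_reducible_and_instances apply IntF.sub | with_reducible_and_instances apply IntF.neg | with_reducible_and_instances apply IntF.smul | with_reducible apply Int.fin | with_reducible apply IntF.sep | with_reducible apply IntF.lam | with_reducible apply IntF.insert | with_reducible apply IntF.singleton | with_reducible apply IntF.union | with_reducible apply IntF.iimage | with_reducible apply IntF.ite | with_reducible apply IntF.the | with_reducible apply IntF.irec | with_reducible apply IntF.succ | with_reducible apply IntF.val | with_reducible apply IntF.mk | (with_reducible refine Int.comp ?_ ?_; assumption) | (with_reducible refine Int.comp₂ ?_ ?_ ?_; assumption) | (with_reducible refine Int.comp₃ ?_ ?_ ?_ ?_; assumption) | (with_reducible refine Int.comp₄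 ?_ ?_ ?_ ?_ ?_; assumption) | (with_reducible refine IntF.comp ?_ ?_; assumption) | (with_reducible refine IntF.comp₂ ?_ ?_ ?_; assumption) | (with_reducible refine IntF.comp₃ ?_ ?_ ?_ ?_; assumption) | with_reducible apply IntF.pair)), fun q => ?_⟩
      change _ = min 1 (ds q p * ε⁻¹)
      rw [min_def]
    refine ⟨F, ⟨isMap_iff.2 hF, fun q δ hδ => ?_⟩, fun q => ?_, ?_, fun q hq => ?_⟩
    · obtain ⟨B, -, hB⟩ := exists_ball hr hE (mul_pos hδ hε)
      refine ⟨(B q).1, (B q).2, (hB _ _).2 (by rw [sub_self, abs_zero]; exact mul_pos hδ hε),
        fun z hz => ?_⟩
      have h3 : |z - q| < δ * ε := (hB _ _).1 hz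
      rw [hmin, hmin]
      refine (abs_min_sub_min_le_max _ _ _ _).trans_lt ?_
      rw [sub_self, abs_zero]
      refine max_lt hδ ?_
      rw [← sub_mul, abs_mul, abs_of_pos (inv_pos.2 hε)]
      have h4 : |(|z - p| - |q - p|)| ≤ |z - q| := by
        have := abs_abs_sub_abs_le_abs_sub (z - p) (q - p)
        rwa [sub_sub_sub_cancel_right] at this
      have h5 := mul_lt_mul_of_pos_right (h4.trans_lt h3) (inv_pos.2 hε)
      rwa [mul_assoc δ, mul_inv_cancel₀ hε.ne', mul_one] at h5
    · rw [hmin]
      exact ⟨le_min zero_le_one (mul_nonneg (abs_nonneg _) (inv_pos.2 hε).le), min_le_left _ _⟩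
    · rw [hmin, sub_self, abs_zero, zero_mul]
      exact min_eq_right zero_le_one
    · rw [hmin]
      refine min_eq_left ?_
      have h3 : ε ≤ |q - p| := by
        by_contra h4
        exact ((h1 _).1 (h2 q (not_le.1 h4))).2 hq
      have h5 := mul_le_mul_of_nonneg_right h3 (inv_pos.2 hε).le
      rwa [mul_inv_cancel₀ hε.ne'] at h5

variable {β : Type u} [ITy N β]

/-- Clopen sets. -/
def Clp (O : IPow N β → Prop) (V : IPow N β) : Prop := O V ∧ ∃ V', O V' ∧ ∀ a, a ∈ V' ↔ ¬ a ∈ V

omit hr [Field (Helper672.Plain.El r)] [LinearOrder (Helper672.Plain.El r)] [IsStrictOrderedRing (Helper672.Plain.El r)] in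
theorem open_of_localα {O : IPow N β → Prop} (h : TpO O) {U : IPow N β}
    (hU : ∀ a, a ∈ U → ∃ W, O W ∧ a ∈ W ∧ ∀ b, b ∈ W → b ∈ U) : O U := by
  have hI := h.int
  refine h.union (fun W => O W ∧ ∀ b, b ∈ W → b ∈ U) (by (repeat' (first | with_reducible exact IntF.id | with_reducible exact IntF.fst' | with_reducible exact IntF.snd' | with_reducible exact IntF.const _ | with_reducible exact Int.const _ | assumption | with_reducible apply Int.and | with_reducible apply Int.or | with_reducible apply Int.not | with_reducible apply Int.imp | with_reducible apply Int.iff | with_reducible apply Int.ne | with_reducible apply Int.eq | with_reducible apply Int.mem | with_reducible apply Int.subset | with_reducible apply Int.ltN | with_reducible apply Int.leN | with_reducible_and_instances apply Int.le | with_reducible_and_instances apply Int.lt | with_reducible apply Int.all | with_reducible apply Int.ex | with_reducible apply IntF.fst | with_reducible apply IntF.snd | with_reducible apply IntF.app | with_reducible apply IntF.inl | with_reducible apply IntF.inr | with_reducible_and_instances apply IntF.mul | with_reducible_and_instances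 apply IntF.inv | with_reducible_and_instances apply IntF.add | with_reducible_and_instances apply IntF.sub | with_reducible_and_instances apply IntF.neg | with_reducible_and_instances apply IntF.smul | with_reducible apply Int.fin | with_reducible apply IntF.sep | with_reducible apply IntF.lam | with_reducible apply IntF.insert | with_reducible apply IntF.singleton | with_reducible apply IntF.union | with_reducible apply IntF.iimage | with_reducible apply IntF.ite | with_reducible apply IntF.the | with_reducible apply IntF.irec | with_reducible apply IntF.succ | with_reducible apply IntF.val | with_reducible apply IntF.mk | (with_reducible refine Int.comp ?_ ?_; assumption) | (with_reducible refine Int.comp₂ ?_ ?_ ?_; assumption) | (with_reducible refine Int.comp₃ ?_ ?_ ?_ ?_; assumption) | (with_reducible refine Int.comp₄ ?_ ?_ ?_ ?_ ?_; assumption) | (with_reducible refine IntF.comp ?_ ?_; assumption) | (with_reducible refine IntF.comp₂ ?_ ?_ ?_; assumption) | (with_reducible refine IntF.comp₃ ?_ ?_ ?_ ?_; assumption) | with_reducible apply IntF.pair))) (fun W hW => hW.1) U fun a =>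
    ⟨fun ha => ?_, fun ⟨W, ⟨_, h1⟩, h2⟩ => h1 a h2⟩
  obtain ⟨W, h1, h2, h3⟩ := hU a ha
  exact ⟨W, ⟨h1, h3⟩, h2⟩

open Classical in
/-- Zero-dimensional spaces are `ℝ`-completely regular. -/
theorem isECR_of (hE : IsUsualTop tE r) {O : IPow N β → Prop} (h : TpO O)
    (hz : ∀ U, O U → ∀ a, a ∈ U → ∃ V, Clp O V ∧ a ∈ V ∧ ∀ b, b ∈ V → b ∈ U)
    (hT : ∀ a b : β, a ≠ b → ∃ V, Clp O V ∧ a ∈ V ∧ ¬ b ∈ V) :
    IsECompletelyRegular (tp O h.int) (dom N β) tE r := by
  have hI := h.int
  have hC : Int N (Clp O) := by
    change Int N (fun V => O V ∧ ∃ V', O V' ∧ ∀ a, a ∈ V' ↔ ¬ a ∈ V)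
    (repeat' (first | with_reducible exact IntF.id | with_reducible exact IntF.fst' | with_reducible exact IntF.snd' | with_reducible exact IntF.const _ | with_reducible exact Int.const _ | assumption | with_reducible apply Int.and | with_reducible apply Int.or | with_reducible apply Int.not | with_reducible apply Int.imp | with_reducible apply Int.iff | with_reducible apply Int.ne | with_reducible apply Int.eq | with_reducible apply Int.mem | with_reducible apply Int.subset | with_reducible apply Int.ltN | with_reducible apply Int.leN | with_reducible_and_instances apply Int.le | with_reducible_and_instances apply Int.lt | with_reducible apply Int.all | with_reducible apply Int.ex | with_reducible apply IntF.fst | with_reducible apply IntF.snd | with_reducible apply IntF.app | with_reducible apply IntF.inl | with_reducible apply IntF.inr | with_reducible_and_instances apply IntF.mul | with_reducible_and_instances apply IntF.inv | with_reducible_and_instances apply IntF.add | with_reducible_and_instances apply IntF.sub | with_reducible_and_instances apply IntF.neg | with_reducible_and_instances apply IntF.smul | with_reducible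 apply Int.fin | with_reducible apply IntF.sep | with_reducible apply IntF.lam | with_reducible apply IntF.insert | with_reducible apply IntF.singleton | with_reducible apply IntF.union | with_reducible apply IntF.iimage | with_reducible apply IntF.ite | with_reducible apply IntF.the | with_reducible apply IntF.irec | with_reducible apply IntF.succ | with_reducible apply IntF.val | with_reducible apply IntF.mk | (with_reducible refine Int.comp ?_ ?_; assumption) | (with_reducible refine Int.comp₂ ?_ ?_ ?_; assumption) | (with_reducible refine Int.comp₃ ?_ ?_ ?_ ?_; assumption) | (with_reducible refine Int.comp₄ ?_ ?_ ?_ ?_ ?_; assumption) | (with_reducible refine IntF.comp ?_ ?_; assumption) | (with_reducible refine IntF.comp₂ ?_ ?_ ?_; assumption) | (with_reducible refine IntF.comp₃ ?_ ?_ ?_ ?_; assumption) | with_reducible apply IntF.pair))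
  have hdec := int_dec (N := N) (κ := IPow N β)
  have hdec' := int_dec (N := N) (κ := β)
  let e : Helper672.Plain.El (dom N β) → Helper672.Plain.El (dom N (IPow N β)) → Helper672.Plain.El r := fun p i =>
    if Clp O (dec i) ∧ (dec p : β) ∈ (dec i : IPow N β) then 1 else 0
  have he : IntF N (fun q : Helper672.Plain.El (dom N β) × Helper672.Plain.El (dom N (IPow N β)) => e q.1 q.2) := by
    change IntF N (fun q : Helper672.Plain.El (dom N β) × Helper672.Plain.El (dom N (IPow N β)) =>
      if Clp O (dec q.2) ∧ (dec q.1 : β) ∈ (dec q.2 : IPow N β) then (1 : Helper672.Plain.El r) else 0)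
    have h1 : Int N (fun q : Helper672.Plain.El (dom N β) × Helper672.Plain.El (dom N (IPow N β)) =>
        Clp O (dec q.2) ∧ (dec q.1 : β) ∈ (dec q.2 : IPow N β)) := by
      refine Helper672.ZFA.Int.and (Int.comp (p := Clp O) hC (IntF.comp (g := fun i => (dec i : IPow N β)) hdec
        IntF.snd')) ?_
      exact Int.mem (IntF.comp (g := fun i => (dec i : β)) hdec' IntF.fst')
        (IntF.comp (g := fun i => (dec i : IPow N β)) hdec IntF.snd')
    exact IntF.ite h1 (IntF.const _) (IntF.const _)
  have heV : ∀ (p : Helper672.Plain.El (dom N β)) (V : IPow N β), Clp O V → e p (enc V) =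
      if (dec p : β) ∈ V then 1 else 0 := by
    intro p V hV
    change (if Clp O (dec (enc V)) ∧ (dec p : β) ∈ (dec (enc V) : IPow N β) then (1 : Helper672.Plain.El r) else 0) = _
    rw [dec_enc]
    simp only [hV, true_and]
  refine ⟨dom N (IPow N β), e, ⟨_, (enc (∅ : IPow N β)).2⟩, (isEmbedding_iff hr hE he).2
    ⟨fun p q hpq => ?_, fun u hu => ⟨fun hut p hp => ?_, fun h1 => ?_⟩⟩⟩
  · by_contra hne
    obtain ⟨V, hV, h1, h2⟩ := hT (dec p) (dec q) fun h3 => hne (by
      rw [← enc_dec (κ := β) p, ← enc_dec (κ := β) q, h3])
    have h3 := hpq (enc V)
    rw [heV p V hV, heV q V hV, if_pos h1, if_neg h2] at h3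
    exact one_ne_zero h3
  · obtain ⟨U, hU, rfl⟩ := mem_tp.1 hut
    obtain ⟨a, rfl⟩ := exists_dec (κ := β) p
    obtain ⟨V, hV, h1, h2⟩ := hz U hU a (mem_cp'.1 hp)
    refine ⟨insert (enc V) ∅, 1, IFin.empty.insert _, one_pos, fun q hq => ?_⟩
    obtain ⟨b, rfl⟩ := exists_dec (κ := β) q
    have h3 := hq (enc V) (mem_insert.2 (Or.inl rfl))
    rw [heV _ V hV, heV _ V hV, dec_enc, dec_enc, if_pos h1] at h3
    by_cases h4 : b ∈ V
    · exact mem_cp'.2 (h2 b h4)
    · rw [if_neg h4, zero_sub, abs_neg, abs_one] at h3
      exact absurd h3 (lt_irrefl _)
  · obtain ⟨U, rfl, -⟩ := exists_codeα (N := N) (α := β) (u := u) hu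
    refine mem_tp'.2 (open_of_localα h fun a ha => ?_)
    obtain ⟨F, ε, hF, hε, h2⟩ := h1 (enc a) (mem_cp'.2 ha)
    have henc := int_enc (N := N) (κ := β)
    have hind : ∀ F : IPow N (Helper672.Plain.El (dom N (IPow N β))), IFin F → ∃ W, O W ∧ a ∈ W ∧
        ∀ b, b ∈ W → ∀ i, i ∈ F → e (enc b) i = e (enc a) i := by
      refine IFin.ind ?_ ?_ ?_
      · have he2 : IntF N (fun q : β × Helper672.Plain.El (dom N (IPow N β)) => e (enc q.1) q.2) :=
          IntF.comp (g := fun q : Helper672.Plain.El (dom N β) × Helper672.Plain.El (dom N (IPow N β)) => e q.1 q.2) he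
            (IntF.pair (IntF.comp (g := fun b : β => enc (N := N) b) henc IntF.fst') IntF.snd')
        obtain ⟨g, hg⟩ : ∃ g : β → Helper672.Plain.El (dom N (IPow N β)) → Helper672.Plain.El r, g = fun b i => e (enc b) i :=
          ⟨_, rfl⟩
        have he3 : IntF N (fun q : β × Helper672.Plain.El (dom N (IPow N β)) => g q.1 q.2) := by
          rw [hg]
          exact he2
        have h5 : Int N (fun F : IPow N (Helper672.Plain.El (dom N (IPow N β))) => ∃ W, O W ∧ a ∈ W ∧
            ∀ b, b ∈ W → ∀ i, i ∈ F → g b i = g a i) := by (repeat' (first | with_reducible exact IntF.id | with_reducible exact IntF.fst' | with_reducible exact IntF.snd' | with_reducible exact IntF.const _ | with_reducible exact Int.const _ | assumption | with_reducible apply Int.and | with_reducible apply Int.or | with_reducible apply Int.not | with_reducible apply Int.imp | with_reducible apply Int.iff | with_reducible apply Int.ne | with_reducible apply Int.eq | with_reducible apply Int.mem | with_reducible apply Int.subset | with_reducible apply Int.ltN | with_reducible apply Int.leN | with_reducible_and_instances apply Int.le | with_reducible_and_instances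 apply Int.lt | with_reducible apply Int.all | with_reducible apply Int.ex | with_reducible apply IntF.fst | with_reducible apply IntF.snd | with_reducible apply IntF.app | with_reducible apply IntF.inl | with_reducible apply IntF.inr | with_reducible_and_instances apply IntF.mul | with_reducible_and_instances apply IntF.inv | with_reducible_and_instances apply IntF.add | with_reducible_and_instances apply IntF.sub | with_reducible_and_instances apply IntF.neg | with_reducible_and_instances apply IntF.smul | with_reducible apply Int.fin | with_reducible apply IntF.sep | with_reducible apply IntF.lam | with_reducible apply IntF.insert | with_reducible apply IntF.singleton | with_reducible apply IntF.union | with_reducible apply IntF.iimage | with_reducible apply IntF.ite | with_reducible apply IntF.the | with_reducible apply IntF.irec | with_reducible apply IntF.succ | with_reducible apply IntF.val | with_reducible apply IntF.mk | (with_reducible refine Int.comp ?_ ?_; assumption) | (with_reducible refine Int.comp₂ ?_ ?_ ?_; assumption) | (with_reducible refine Int.comp₃ ?_ ?_ ?_ ?_; assumption) | (with_reducible refine Int.comp₄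 ?_ ?_ ?_ ?_ ?_; assumption) | (with_reducible refine IntF.comp ?_ ?_; assumption) | (with_reducible refine IntF.comp₂ ?_ ?_ ?_; assumption) | (with_reducible refine IntF.comp₃ ?_ ?_ ?_ ?_; assumption) | with_reducible apply IntF.pair))
        rw [hg] at h5
        exact h5
      · have e1 : ∀ c : β, c ∈ sep N (fun c : β => c = c) := fun c => (mem_sep (by (repeat' (first | with_reducible exact IntF.id | with_reducible exact IntF.fst' | with_reducible exact IntF.snd' | with_reducible exact IntF.const _ | with_reducible exact Int.const _ | assumption | with_reducible apply Int.and | with_reducible apply Int.or | with_reducible apply Int.not | with_reducible apply Int.imp | with_reducible apply Int.iff | with_reducible apply Int.ne | with_reducible apply Int.eq | with_reducible apply Int.mem | with_reducible apply Int.subset | with_reducible apply Int.ltN | with_reducible apply Int.leN | with_reducible_and_instances apply Int.le | with_reducible_and_instances apply Int.lt | with_reducible apply Int.all | with_reducible apply Int.ex | with_reducible apply IntF.fst | with_reducible apply IntF.snd | with_reducible apply IntF.app |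 with_reducible apply IntF.inl | with_reducible apply IntF.inr | with_reducible_and_instances apply IntF.mul | with_reducible_and_instances apply IntF.inv | with_reducible_and_instances apply IntF.add | with_reducible_and_instances apply IntF.sub | with_reducible_and_instances apply IntF.neg | with_reducible_and_instances apply IntF.smul | with_reducible apply Int.fin | with_reducible apply IntF.sep | with_reducible apply IntF.lam | with_reducible apply IntF.insert | with_reducible apply IntF.singleton | with_reducible apply IntF.union | with_reducible apply IntF.iimage | with_reducible apply IntF.ite | with_reducible apply IntF.the | with_reducible apply IntF.irec | with_reducible apply IntF.succ | with_reducible apply IntF.val | with_reducible apply IntF.mk | (with_reducible refine Int.comp ?_ ?_; assumption) | (with_reducible refine Int.comp₂ ?_ ?_ ?_; assumption) | (with_reducible refine Int.comp₃ ?_ ?_ ?_ ?_; assumption) | (with_reducible refine Int.comp₄ ?_ ?_ ?_ ?_ ?_; assumption) | (with_reducible refine IntF.comp ?_ ?_; assumption) | (with_reducible refine IntF.comp₂ ?_ ?_ ?_; assumption) | (with_reducible refine IntF.comp₃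 ?_ ?_ ?_ ?_; assumption) | with_reducible apply IntF.pair)))).2 rfl
        exact ⟨_, h.univ _ e1, e1 _, fun b _ i hi => absurd hi (by simp)⟩
      · intro F i _ _ ⟨W, h3, h4, h5⟩
        obtain ⟨V, rfl⟩ := exists_dec (κ := IPow N β) i
        obtain ⟨W', g1, g2, g3⟩ : ∃ W', O W' ∧ a ∈ W' ∧ ∀ b, b ∈ W' →
            e (enc b) (enc V) = e (enc a) (enc V) := by
          by_cases hV : Clp O V
          · by_cases haV : a ∈ V
            · refine ⟨V, hV.1, haV, fun b hb => ?_⟩
              rw [heV _ _ hV, heV _ _ hV, dec_enc, dec_enc, if_pos hb, if_pos haV]
            · obtain ⟨V', h6, h7⟩ := hV.2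
              refine ⟨V', h6, (h7 a).2 haV, fun b hb => ?_⟩
              rw [heV _ _ hV, heV _ _ hV, dec_enc, dec_enc, if_neg ((h7 b).1 hb), if_neg haV]
          · have e1 : ∀ c : β, c ∈ sep N (fun c : β => c = c) := fun c =>
              (mem_sep (by (repeat' (first | with_reducible exact IntF.id | with_reducible exact IntF.fst' | with_reducible exact IntF.snd' | with_reducible exact IntF.const _ | with_reducible exact Int.const _ | assumption | with_reducible apply Int.and | with_reducible apply Int.or | with_reducible apply Int.not | with_reducible apply Int.imp | with_reducible apply Int.iff | with_reducible apply Int.ne | with_reducible apply Int.eq | with_reducible apply Int.mem | with_reducible apply Int.subset | with_reducible apply Int.ltN | with_reducible apply Int.leN | with_reducible_and_instances apply Int.le | with_reducible_and_instances apply Int.lt | with_reducible apply Int.all | with_reducible apply Int.ex | with_reducible apply IntF.fst | with_reducible apply IntF.snd | with_reducible apply IntF.app | with_reducible apply IntF.inl | with_reducible apply IntF.inr | with_reducible_and_instances apply IntF.mul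 | with_reducible_and_instances apply IntF.inv | with_reducible_and_instances apply IntF.add | with_reducible_and_instances apply IntF.sub | with_reducible_and_instances apply IntF.neg | with_reducible_and_instances apply IntF.smul | with_reducible apply Int.fin | with_reducible apply IntF.sep | with_reducible apply IntF.lam | with_reducible apply IntF.insert | with_reducible apply IntF.singleton | with_reducible apply IntF.union | with_reducible apply IntF.iimage | with_reducible apply IntF.ite | with_reducible apply IntF.the | with_reducible apply IntF.irec | with_reducible apply IntF.succ | with_reducible apply IntF.val | with_reducible apply IntF.mk | (with_reducible refine Int.comp ?_ ?_; assumption) | (with_reducible refine Int.comp₂ ?_ ?_ ?_; assumption) | (with_reducible refine Int.comp₃ ?_ ?_ ?_ ?_; assumption) | (with_reducible refine Int.comp₄ ?_ ?_ ?_ ?_ ?_; assumption) | (with_reducible refine IntF.comp ?_ ?_; assumption) | (with_reducible refine IntF.comp₂ ?_ ?_ ?_; assumption) | (with_reducible refine IntF.comp₃ ?_ ?_ ?_ ?_; assumption) | with_reducible apply IntF.pair)))).2 rfl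
            refine ⟨_, h.univ _ e1, e1 _, fun b _ => ?_⟩
            have h8 : ∀ p, e p (enc V) = 0 := fun p => by
              refine if_neg fun h9 => hV ?_
              have := h9.1
              rwa [dec_enc] at this
            rw [h8, h8]
        have e2 : ∀ c, c ∈ sep N (fun c : β => c ∈ W ∧ c ∈ W') ↔ c ∈ W ∧ c ∈ W' := fun c =>
          mem_sep (by (repeat' (first | with_reducible exact IntF.id | with_reducible exact IntF.fst' | with_reducible exact IntF.snd' | with_reducible exact IntF.const _ | with_reducible exact Int.const _ | assumption | with_reducible apply Int.and | with_reducible apply Int.or | with_reducible apply Int.not | with_reducible apply Int.imp | with_reducible apply Int.iff | with_reducible apply Int.ne | with_reducible apply Int.eq | with_reducible apply Int.mem | with_reducible apply Int.subset | with_reducible apply Int.ltN | with_reducible apply Int.leN | with_reducible_and_instances apply Int.le | with_reducible_and_instances apply Int.lt | with_reducible apply Int.all | with_reducible apply Int.ex | with_reducible apply IntF.fst | with_reducible apply IntF.snd | with_reducible apply IntF.app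 | with_reducible apply IntF.inl | with_reducible apply IntF.inr | with_reducible_and_instances apply IntF.mul | with_reducible_and_instances apply IntF.inv | with_reducible_and_instances apply IntF.add | with_reducible_and_instances apply IntF.sub | with_reducible_and_instances apply IntF.neg | with_reducible_and_instances apply IntF.smul | with_reducible apply Int.fin | with_reducible apply IntF.sep | with_reducible apply IntF.lam | with_reducible apply IntF.insert | with_reducible apply IntF.singleton | with_reducible apply IntF.union | with_reducible apply IntF.iimage | with_reducible apply IntF.ite | with_reducible apply IntF.the | with_reducible apply IntF.irec | with_reducible apply IntF.succ | with_reducible apply IntF.val | with_reducible apply IntF.mk | (with_reducible refine Int.comp ?_ ?_; assumption) | (with_reducible refine Int.comp₂ ?_ ?_ ?_; assumption) | (with_reducible refine Int.comp₃ ?_ ?_ ?_ ?_; assumption) | (with_reducible refine Int.comp₄ ?_ ?_ ?_ ?_ ?_; assumption) | (with_reducible refine IntF.comp ?_ ?_; assumption) | (with_reducible refine IntF.comp₂ ?_ ?_ ?_; assumption) | (with_reducible refine IntF.comp₃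 ?_ ?_ ?_ ?_; assumption) | with_reducible apply IntF.pair)))
        refine ⟨_, h.inter W W' _ h3 g1 e2, (e2 _).2 ⟨h4, g2⟩, fun b hb i hi => ?_⟩
        rcases mem_insert.1 hi with rfl | hi
        · exact g3 b ((e2 b).1 hb).2
        · exact h5 b ((e2 b).1 hb).1 i hi
    obtain ⟨W, h3, h4, h5⟩ := hind F hF
    refine ⟨W, h3, h4, fun b hb => ?_⟩
    exact mem_cp'.1 (h2 (enc b) fun i hi => by
      rw [h5 b hb i hi, sub_self, abs_zero]
      exact hε)

end

end Pool.Agent.Q301.BM
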