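import Pool.Agent.Q301.BM.HR
import Pool.Agent.Q301.BM.PP

/-!
# The space
-/

set_option maxHeartbeats 1000000
set_option linter.all false
set_option synthInstance.maxSize 2000

namespace Pool.Agent.Q301.BM

open FirstOrder FirstOrder.Language
open Pool.Agent.Helper672.ZFA
open Pool.Agent.Helper672.Plain (LSet)
open Pool.Agent.Helper672.ZFA.H635 (toL plainN_ordPair plainN_graph plainN_opGraph)
open Pool.Agent.H635Amen (IsReals)
open Pool.Agent.H310Cards (IsOmega IsFinite IsFun App IsInj IsNat IsProd)
open Pool.Agent.H310Top (IsTopology IsClosed IsCompact)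
open Pool.Agent.H310 (FinP finP_iff finP_le finP_lt exists_BN mem_nat nat_iff appN finite_of_finP
  mem_cp extN exists_code instPEl exists_q pr int_pr pr_inj)
open Pool.Agent.Q301.TM

universe u u₁

attribute [local instance] toL instPEl

section

variable {N : Type u} [LSet.Structure N] [hM : IsModel N] {α : Type u} [ITy N α]
variable {R : INat N × (α × α) → Prop}

/-- The points. -/
abbrev BT (N : Type u) [LSet.Structure N] [IsModel N] (α : Type u) : Type u :=
  (α × α) ⊕ (α ⊕ INat N)

/-- Neighbourhoods of the points of the first kind. -/
def Low (R : INat N × (α × α) → Prop) (i : α) (U : IPow N (BT N α)) : Prop :=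
  (∃ m : INat N, ∀ n, m ≤ n → ∀ u, R (n.succ, (u, u)) → Sum.inl (u, i) ∈ U) ∧
    ∀ n : INat N, ∃ v, R (n.succ, (v, v)) ∧ ∀ u, R (n.succ, (u, v)) → u ≠ v → Sum.inl (u, i) ∈ U

/-- Neighbourhoods of the points of the second kind. -/
def Hi (R : INat N × (α × α) → Prop) (n : INat N) (U : IPow N (BT N α)) : Prop :=
  ∃ s, R (0, (s, s)) ∧ ∃ t, R (n.succ, (t, t)) ∧ ∀ u i, R (n.succ, (t, u)) → t ≠ u →
    R (0, (s, i)) → s ≠ i → Sum.inl (u, i) ∈ U

/-- Neighbourhoods. -/
def NH (R : INat N × (α × α) → Prop) (c : BT N α) (U : IPow N (BT N α)) : Prop :=
  (∀ i, c = Sum.inr (Sum.inl i) → R (0, (i, i)) → Low R i U) ∧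
    ∀ n, c = Sum.inr (Sum.inr n) → Hi R n U

/-- The topology. -/
def OH (R : INat N × (α × α) → Prop) (U : IPow N (BT N α)) : Prop := ∀ c, c ∈ U → NH R c U

theorem BD.ub (h : BD N R) {n : INat N} {a b : α} (ha : R (n, (a, a))) (hb : R (n, (b, b))) :
    ∃ c, R (n, (a, c)) ∧ a ≠ c ∧ R (n, (b, c)) ∧ b ≠ c := h.hd.ub ha hb

theorem BD.lb (h : BD N R) {n : INat N} {a b : α} (ha : R (n, (a, a))) (hb : R (n, (b, b))) :
    ∃ c, R (n, (c, a)) ∧ a ≠ c ∧ R (n, (c, b)) ∧ b ≠ c := h.hd'.ub ha hb

theorem BD.lt_ne (h : BD N R) {n : INat N} {a b c : α} (hab : R (n, (a, b))) (hbc : R (n, (b, c)))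
    (hne : a ≠ b) : a ≠ c := by
  rintro rfl
  exact hne (h.antisymm _ _ _ hab hbc)

theorem BD.lt_ne' (h : BD N R) {n : INat N} {a b c : α} (hab : R (n, (a, b))) (hbc : R (n, (b, c)))
    (hne : b ≠ c) : a ≠ c := by
  rintro rfl
  exact hne (h.antisymm _ _ _ hbc hab)

theorem BD.z_ne (h : BD N R) {n : INat N} {a : α} (ha : R (0, (a, a))) : ¬ R (n.succ, (a, a)) :=
  fun h1 => INat.succ_ne_zero _ (h.uniq _ _ _ h1 ha)

theorem tpO_OH (h : BD N R) : TpO (OH R) := by
  have hR := h.int
  have hI : Int N (fun q : BT N α × IPow N (BT N α) =>
    (∀ i, q.1 = Sum.inr (Sum.inl i) → R (0, (i, i)) →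
      (∃ m : INat N, ∀ n, m ≤ n → ∀ u, R (n.succ, (u, u)) → Sum.inl (u, i) ∈ q.2) ∧
      ∀ n : INat N, ∃ v, R (n.succ, (v, v)) ∧ ∀ u, R (n.succ, (u, v)) → u ≠ v →
        Sum.inl (u, i) ∈ q.2) ∧
    ∀ n, q.1 = Sum.inr (Sum.inr n) → ∃ s, R (0, (s, s)) ∧ ∃ t, R (n.succ, (t, t)) ∧
      ∀ u i, R (n.succ, (t, u)) → t ≠ u → R (0, (s, i)) → s ≠ i → Sum.inl (u, i) ∈ q.2) := by (repeat' (first | with_reducible exact IntF.id | with_reducible exact IntF.fst' | with_reducible exact IntF.snd' | with_reducible exact IntF.const _ | with_reducible exact Int.const _ | assumption | with_reducible apply Int.and | with_reducible apply Int.or | with_reducible apply Int.not | with_reducible apply Int.imp | with_reducible apply Int.iff | with_reducible apply Int.ne | with_reducible apply Int.eq | with_reducible apply Int.mem | with_reducible apply Int.subset | with_reducible apply Int.ltN | with_reducible apply Int.leN | with_reducible_and_instances apply Int.le | with_reducible_and_instances apply Int.lt | with_reducible apply Int.all | with_reducible apply Int.ex | with_reducible apply IntF.fst | with_reducible apply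 IntF.snd | with_reducible apply IntF.app | with_reducible apply IntF.inl | with_reducible apply IntF.inr | with_reducible_and_instances apply IntF.mul | with_reducible_and_instances apply IntF.inv | with_reducible_and_instances apply IntF.add | with_reducible_and_instances apply IntF.sub | with_reducible_and_instances apply IntF.neg | with_reducible_and_instances apply IntF.smul | with_reducible apply Int.fin | with_reducible apply IntF.sep | with_reducible apply IntF.lam | with_reducible apply IntF.insert | with_reducible apply IntF.singleton | with_reducible apply IntF.union | with_reducible apply IntF.iimage | with_reducible apply IntF.ite | with_reducible apply IntF.the | with_reducible apply IntF.irec | with_reducible apply IntF.succ | with_reducible apply IntF.val | with_reducible apply IntF.mk | (with_reducible refine Int.comp ?_ ?_; assumption) | (with_reducible refine Int.comp₂ ?_ ?_ ?_; assumption) | (with_reducible refine Int.comp₃ ?_ ?_ ?_ ?_; assumption) | (with_reducible refine Int.comp₄ ?_ ?_ ?_ ?_ ?_; assumption) | (with_reducible refine IntF.comp ?_ ?_; assumption) | (with_reducible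 refine IntF.comp₂ ?_ ?_ ?_; assumption) | (with_reducible refine IntF.comp₃ ?_ ?_ ?_ ?_; assumption) | with_reducible apply IntF.pair))
  refine tpO_of (Nb := NH R) hI ?_ ?_ ?_
  · rintro c U V ⟨h1, h2⟩ hUV
    refine ⟨fun i hi hi' => ?_, fun n hn => ?_⟩
    · obtain ⟨⟨m, h3⟩, h4⟩ := h1 i hi hi'
      refine ⟨⟨m, fun n hmn u hu => hUV _ (h3 n hmn u hu)⟩, fun n => ?_⟩
      obtain ⟨v, hv, h5⟩ := h4 n
      exact ⟨v, hv, fun u hu hu' => hUV _ (h5 u hu hu')⟩
    · obtain ⟨s, hs, t, ht, h3⟩ := h2 n hn
      exact ⟨s, hs, t, ht, fun u i g1 g2 g3 g4 => hUV _ (h3 u i g1 g2 g3 g4)⟩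
  · rintro c U V W ⟨h1, h2⟩ ⟨h1', h2'⟩ hW
    refine ⟨fun i hi hi' => ?_, fun n hn => ?_⟩
    · obtain ⟨⟨m, h3⟩, h4⟩ := h1 i hi hi'
      obtain ⟨⟨m', h3'⟩, h4'⟩ := h1' i hi hi'
      refine ⟨⟨max m m', fun n hmn u hu => (hW _).2 ⟨h3 n ((le_max_left _ _).trans hmn) u hu,
        h3' n ((le_max_right _ _).trans hmn) u hu⟩⟩, fun n => ?_⟩
      obtain ⟨v, hv, h5⟩ := h4 n
      obtain ⟨v', hv', h5'⟩ := h4' n
      obtain ⟨w, g1, g2, g3, g4⟩ := h.lb hv hv'
      refine ⟨w, h.left _ _ _ g1, fun u hu hu' => (hW _).2 ⟨h5 u (h.trans _ _ _ _ hu g1) ?_,
        h5' u (h.trans _ _ _ _ hu g3) ?_⟩⟩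
      · exact h.lt_ne hu g1 hu'
      · exact h.lt_ne hu g3 hu'
    · obtain ⟨s, hs, t, ht, h3⟩ := h2 n hn
      obtain ⟨s', hs', t', ht', h3'⟩ := h2' n hn
      obtain ⟨a, g1, g2, g3, g4⟩ := h.ub hs hs'
      obtain ⟨b, g1', g2', g3', g4'⟩ := h.ub ht ht'
      refine ⟨a, h.right _ _ _ g1, b, h.right _ _ _ g1', fun u i k1 k2 k3 k4 => (hW _).2
        ⟨h3 u i (h.trans _ _ _ _ g1' k1) (h.lt_ne g1' k1 g2') (h.trans _ _ _ _ g1 k3)
          (h.lt_ne g1 k3 g2), h3' u i (h.trans _ _ _ _ g3' k1) (h.lt_ne g3' k1 g4')
          (h.trans _ _ _ _ g3 k3) (h.lt_ne g3 k3 g4)⟩⟩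
  · intro c U hU
    refine ⟨fun i _ _ => ⟨⟨0, fun n _ u _ => hU _⟩, fun n => ?_⟩, fun n _ => ?_⟩
    · obtain ⟨v, hv⟩ := h.ne n.succ
      exact ⟨v, hv, fun u _ _ => hU _⟩
    · obtain ⟨s, hs⟩ := h.ne 0
      obtain ⟨t, ht⟩ := h.ne n.succ
      exact ⟨s, hs, t, ht, fun u i _ _ _ _ => hU _⟩

/-- Countable intersections of open sets are open. -/
theorem inter_open (h : BD N R) {V : INat N → IPow N (BT N α)} (hV : IntF N V)
    (hVo : ∀ k, OH R (V k)) : OH R (sep N fun c => ∀ k, c ∈ V k) := by
  have hI : Int N (fun c : BT N α => ∀ k, c ∈ V k) := by (repeat' (first | with_reducible exact IntF.id | with_reducible exact IntF.fst' | with_reducible exact IntF.snd' | with_reducible exact IntF.const _ | with_reducible exact Int.const _ | assumption | with_reducible apply Int.and | with_reducible apply Int.or | with_reducible apply Int.not | with_reducible apply Int.imp | with_reducible apply Int.iff | with_reducible apply Int.ne | with_reducible apply Int.eq | with_reducible apply Int.mem | with_reducible apply Int.subset | with_reducible apply Int.ltN | with_reducible apply Int.leN | with_reducible_and_instances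 apply Int.le | with_reducible_and_instances apply Int.lt | with_reducible apply Int.all | with_reducible apply Int.ex | with_reducible apply IntF.fst | with_reducible apply IntF.snd | with_reducible apply IntF.app | with_reducible apply IntF.inl | with_reducible apply IntF.inr | with_reducible_and_instances apply IntF.mul | with_reducible_and_instances apply IntF.inv | with_reducible_and_instances apply IntF.add | with_reducible_and_instances apply IntF.sub | with_reducible_and_instances apply IntF.neg | with_reducible_and_instances apply IntF.smul | with_reducible apply Int.fin | with_reducible apply IntF.sep | with_reducible apply IntF.lam | with_reducible apply IntF.insert | with_reducible apply IntF.singleton | with_reducible apply IntF.union | with_reducible apply IntF.iimage | with_reducible apply IntF.ite | with_reducible apply IntF.the | with_reducible apply IntF.irec | with_reducible apply IntF.succ | with_reducible apply IntF.val | with_reducible apply IntF.mk | (with_reducible refine Int.comp ?_ ?_; assumption) | (with_reducible refine Int.comp₂ ?_ ?_ ?_; assumption) | (with_reducible refine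 Int.comp₃ ?_ ?_ ?_ ?_; assumption) | (with_reducible refine Int.comp₄ ?_ ?_ ?_ ?_ ?_; assumption) | (with_reducible refine IntF.comp ?_ ?_; assumption) | (with_reducible refine IntF.comp₂ ?_ ?_ ?_; assumption) | (with_reducible refine IntF.comp₃ ?_ ?_ ?_ ?_; assumption) | with_reducible apply IntF.pair))
  have hm : ∀ c, c ∈ sep N (fun c => ∀ k, c ∈ V k) ↔ ∀ k, c ∈ V k := fun c => mem_sep hI
  obtain ⟨m, s, hs, hA, hB, hC, hD⟩ := h.hom (fun q => Sum.inl q.1 ∈ V q.2) (by (repeat' (first | with_reducible exact IntF.id | with_reducible exact IntF.fst' | with_reducible exact IntF.snd' | with_reducible exact IntF.const _ | with_reducible exact Int.const _ | assumption | with_reducible apply Int.and | with_reducible apply Int.or | with_reducible apply Int.not | with_reducible apply Int.imp | with_reducible apply Int.iff | with_reducible apply Int.ne | with_reducible apply Int.eq | with_reducible apply Int.mem | with_reducible apply Int.subset | with_reducible apply Int.ltN | with_reducible apply Int.leN | with_reducible_and_instances apply Int.le | with_reducible_and_instances apply Int.lt | with_reducible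 apply Int.all | with_reducible apply Int.ex | with_reducible apply IntF.fst | with_reducible apply IntF.snd | with_reducible apply IntF.app | with_reducible apply IntF.inl | with_reducible apply IntF.inr | with_reducible_and_instances apply IntF.mul | with_reducible_and_instances apply IntF.inv | with_reducible_and_instances apply IntF.add | with_reducible_and_instances apply IntF.sub | with_reducible_and_instances apply IntF.neg | with_reducible_and_instances apply IntF.smul | with_reducible apply Int.fin | with_reducible apply IntF.sep | with_reducible apply IntF.lam | with_reducible apply IntF.insert | with_reducible apply IntF.singleton | with_reducible apply IntF.union | with_reducible apply IntF.iimage | with_reducible apply IntF.ite | with_reducible apply IntF.the | with_reducible apply IntF.irec | with_reducible apply IntF.succ | with_reducible apply IntF.val | with_reducible apply IntF.mk | (with_reducible refine Int.comp ?_ ?_; assumption) | (with_reducible refine Int.comp₂ ?_ ?_ ?_; assumption) | (with_reducible refine Int.comp₃ ?_ ?_ ?_ ?_; assumption) | (with_reducible refine Int.comp₄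 ?_ ?_ ?_ ?_ ?_; assumption) | (with_reducible refine IntF.comp ?_ ?_; assumption) | (with_reducible refine IntF.comp₂ ?_ ?_ ?_; assumption) | (with_reducible refine IntF.comp₃ ?_ ?_ ?_ ?_; assumption) | with_reducible apply IntF.pair)))
  intro c hc
  rw [hm] at hc
  refine ⟨fun i hi hi' => ?_, fun n hn => ?_⟩
  · have h1 : ∀ k, Low R i (V k) := fun k => (hVo k c (hc k)).1 i hi hi'
    refine ⟨⟨m, fun n hmn u hu => (hm _).2 fun k => ?_⟩, fun n => ?_⟩
    · obtain ⟨v, hv, h2⟩ := (h1 k).2 n
      obtain ⟨b, hb, hb'⟩ := h.bot _ v hv
      exact hA n.succ b u i (hmn.trans (INat.lt_succ_self n).le) (h.left _ _ _ hb) hu (h.z_ne hi') k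
        (h2 b hb hb')
    · obtain ⟨w, hw, h2⟩ := hD n.succ
      refine ⟨w, hw, fun u hu hu' => (hm _).2 fun k => ?_⟩
      obtain ⟨v, hv, h3⟩ := (h1 k).2 n
      obtain ⟨b, g1, g2, g3, g4⟩ := h.lb hw hv
      exact h2 b u i g1 (Ne.symm g2) hu hu' (h.z_ne hi') k (h3 b g3 (Ne.symm g4))
  · have h1 : ∀ k, Hi R n (V k) := fun k => (hVo k c (hc k)).2 n hn
    obtain ⟨w, hw, h2⟩ := hC n.succ
    refine ⟨s, hs, w, hw, fun u i k1 k2 k3 k4 => (hm _).2 fun k => ?_⟩
    obtain ⟨s', hs', t', ht', h3⟩ := h1 k
    obtain ⟨a, g1, g2, g3, g4⟩ := h.ub hs hs'
    obtain ⟨b, g1', g2', g3', g4'⟩ := h.ub hw ht'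
    have h4 : Sum.inl (u, a) ∈ V k := h2 b u a g1' g2' k1 k2 (h.z_ne (h.right _ _ _ g1)) k
      (h3 b a g3' g4' g3 g4)
    exact hB a i u g1 g2 k3 k4 (fun h5 => h.z_ne h5 (h.right _ _ _ k1)) k h4

theorem ppt_OH (h : BD N R) (c : BT N α) : PPt (OH R) c := by
  intro V hV hVo hc
  have hI : Int N (fun c : BT N α => ∀ k, c ∈ V k) := by (repeat' (first | with_reducible exact IntF.id | with_reducible exact IntF.fst' | with_reducible exact IntF.snd' | with_reducible exact IntF.const _ | with_reducible exact Int.const _ | assumption | with_reducible apply Int.and | with_reducible apply Int.or | with_reducible apply Int.not | with_reducible apply Int.imp | with_reducible apply Int.iff | with_reducible apply Int.ne | with_reducible apply Int.eq | with_reducible apply Int.mem | with_reducible apply Int.subset | with_reducible apply Int.ltN | with_reducible apply Int.leN | with_reducible_and_instances apply Int.le | with_reducible_and_instances apply Int.lt | with_reducible apply Int.all | with_reducible apply Int.ex | with_reducible apply IntF.fst | with_reducible apply IntF.snd | with_reducible apply IntF.app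 | with_reducible apply IntF.inl | with_reducible apply IntF.inr | with_reducible_and_instances apply IntF.mul | with_reducible_and_instances apply IntF.inv | with_reducible_and_instances apply IntF.add | with_reducible_and_instances apply IntF.sub | with_reducible_and_instances apply IntF.neg | with_reducible_and_instances apply IntF.smul | with_reducible apply Int.fin | with_reducible apply IntF.sep | with_reducible apply IntF.lam | with_reducible apply IntF.insert | with_reducible apply IntF.singleton | with_reducible apply IntF.union | with_reducible apply IntF.iimage | with_reducible apply IntF.ite | with_reducible apply IntF.the | with_reducible apply IntF.irec | with_reducible apply IntF.succ | with_reducible apply IntF.val | with_reducible apply IntF.mk | (with_reducible refine Int.comp ?_ ?_; assumption) | (with_reducible refine Int.comp₂ ?_ ?_ ?_; assumption) | (with_reducible refine Int.comp₃ ?_ ?_ ?_ ?_; assumption) | (with_reducible refine Int.comp₄ ?_ ?_ ?_ ?_ ?_; assumption) | (with_reducible refine IntF.comp ?_ ?_; assumption) | (with_reducible refine IntF.comp₂ ?_ ?_ ?_; assumption)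 | (with_reducible refine IntF.comp₃ ?_ ?_ ?_ ?_; assumption) | with_reducible apply IntF.pair))
  exact ⟨_, inter_open h hV hVo, (mem_sep hI).2 hc, fun d hd => (mem_sep hI).1 hd⟩

/-- Complements of points are open. -/
theorem compl_single (h : BD N R) (b : BT N α) {U : IPow N (BT N α)} (hU : ∀ c, c ∈ U ↔ c ≠ b) :
    OH R U := by
  intro c _
  refine ⟨fun i hi hi' => ?_, fun n hn => ?_⟩
  · by_cases hb : ∃ (n : INat N) (u : α), b = Sum.inl (u, i) ∧ R (n.succ, (u, u))
    · obtain ⟨n, u, rfl, hu⟩ := hb
      refine ⟨⟨n.succ, fun k hk v hv => (hU _).2 fun h1 => ?_⟩, fun k => ?_⟩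
      · have h2 : v = u := (Prod.ext_iff.1 (Sum.inl_injective h1)).1
        rw [h2] at hv
        have h3 := h.uniq _ _ _ hv hu
        exact absurd (h3 ▸ INat.lt_succ_self k) (not_lt.2 hk)
      · by_cases hk : k = n
        · subst hk
          refine ⟨u, hu, fun v hv hv' => (hU _).2 fun h1 => hv' ?_⟩
          exact (Prod.ext_iff.1 (Sum.inl_injective h1)).1
        · obtain ⟨v, hv⟩ := h.ne k.succ
          refine ⟨v, hv, fun w hw hw' => (hU _).2 fun h1 => hk ?_⟩
          have h2 : w = u := (Prod.ext_iff.1 (Sum.inl_injective h1)).1
          rw [h2] at hw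
          exact INat.succ_inj (h.uniq _ _ _ (h.left _ _ _ hw) hu)
    · refine ⟨⟨0, fun k _ v hv => (hU _).2 fun h1 => hb ⟨k, v, h1.symm, hv⟩⟩, fun k => ?_⟩
      obtain ⟨v, hv⟩ := h.ne k.succ
      exact ⟨v, hv, fun w hw hw' => (hU _).2 fun h1 => hb ⟨k, w, h1.symm, h.left _ _ _ hw⟩⟩
  · obtain ⟨s, hs⟩ := h.ne 0
    by_cases hb : ∃ u i, b = Sum.inl (u, i) ∧ R (n.succ, (u, u))
    · obtain ⟨u, i, rfl, hu⟩ := hb
      refine ⟨s, hs, u, hu, fun v j k1 k2 k3 k4 => (hU _).2 fun h1 => k2 ?_⟩
      exact (Prod.ext_iff.1 (Sum.inl_injective h1)).1.symm
    · obtain ⟨t, ht⟩ := h.ne n.succ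
      exact ⟨s, hs, t, ht, fun v j k1 k2 k3 k4 => (hU _).2 fun h1 =>
        hb ⟨v, j, h1.symm, h.right _ _ _ k1⟩⟩

/-- The clopen sets are a base. -/
theorem zd_OH (h : BD N R) (U : IPow N (BT N α)) (hU : OH R U) (a : BT N α) (ha : a ∈ U) :
    ∃ V, Clp (OH R) V ∧ a ∈ V ∧ ∀ b, b ∈ V → b ∈ U := by
  have hR := h.int
  have hsing : (∀ i, a = Sum.inr (Sum.inl i) → ¬ R (0, (i, i))) →
      (∀ n, a ≠ Sum.inr (Sum.inr n)) → ∃ V, Clp (OH R) V ∧ a ∈ V ∧ ∀ b, b ∈ V → b ∈ U := by
    intro h1 h2
    have e1 : ∀ c, c ∈ sep N (fun c : BT N α => c = a) ↔ c = a := fun c => mem_sep (by (repeat' (first | with_reducible exact IntF.id | with_reducible exact IntF.fst' | with_reducible exact IntF.snd' | with_reducible exact IntF.const _ | with_reducible exact Int.const _ | assumption | with_reducible apply Int.and | with_reducible apply Int.or | with_reducible apply Int.not | with_reducible apply Int.imp | with_reducible apply Int.iff | with_reducible apply Int.ne | with_reducible apply Int.eq | with_reducible apply Int.mem | with_reducible apply Int.subset | with_reducible apply Int.ltN | with_reducible apply Int.leN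 | with_reducible_and_instances apply Int.le | with_reducible_and_instances apply Int.lt | with_reducible apply Int.all | with_reducible apply Int.ex | with_reducible apply IntF.fst | with_reducible apply IntF.snd | with_reducible apply IntF.app | with_reducible apply IntF.inl | with_reducible apply IntF.inr | with_reducible_and_instances apply IntF.mul | with_reducible_and_instances apply IntF.inv | with_reducible_and_instances apply IntF.add | with_reducible_and_instances apply IntF.sub | with_reducible_and_instances apply IntF.neg | with_reducible_and_instances apply IntF.smul | with_reducible apply Int.fin | with_reducible apply IntF.sep | with_reducible apply IntF.lam | with_reducible apply IntF.insert | with_reducible apply IntF.singleton | with_reducible apply IntF.union | with_reducible apply IntF.iimage | with_reducible apply IntF.ite | with_reducible apply IntF.the | with_reducible apply IntF.irec | with_reducible apply IntF.succ | with_reducible apply IntF.val | with_reducible apply IntF.mk | (with_reducible refine Int.comp ?_ ?_; assumption) | (with_reducible refine Int.comp₂ ?_ ?_ ?_; assumption)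 | (with_reducible refine Int.comp₃ ?_ ?_ ?_ ?_; assumption) | (with_reducible refine Int.comp₄ ?_ ?_ ?_ ?_ ?_; assumption) | (with_reducible refine IntF.comp ?_ ?_; assumption) | (with_reducible refine IntF.comp₂ ?_ ?_ ?_; assumption) | (with_reducible refine IntF.comp₃ ?_ ?_ ?_ ?_; assumption) | with_reducible apply IntF.pair)))
    have e2 : ∀ c, c ∈ sep N (fun c : BT N α => c ≠ a) ↔ c ≠ a := fun c => mem_sep (by (repeat' (first | with_reducible exact IntF.id | with_reducible exact IntF.fst' | with_reducible exact IntF.snd' | with_reducible exact IntF.const _ | with_reducible exact Int.const _ | assumption | with_reducible apply Int.and | with_reducible apply Int.or | with_reducible apply Int.not | with_reducible apply Int.imp | with_reducible apply Int.iff | with_reducible apply Int.ne | with_reducible apply Int.eq | with_reducible apply Int.mem | with_reducible apply Int.subset | with_reducible apply Int.ltN | with_reducible apply Int.leN | with_reducible_and_instances apply Int.le | with_reducible_and_instances apply Int.lt | with_reducible apply Int.all | with_reducible apply Int.ex | with_reducible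 apply IntF.fst | with_reducible apply IntF.snd | with_reducible apply IntF.app | with_reducible apply IntF.inl | with_reducible apply IntF.inr | with_reducible_and_instances apply IntF.mul | with_reducible_and_instances apply IntF.inv | with_reducible_and_instances apply IntF.add | with_reducible_and_instances apply IntF.sub | with_reducible_and_instances apply IntF.neg | with_reducible_and_instances apply IntF.smul | with_reducible apply Int.fin | with_reducible apply IntF.sep | with_reducible apply IntF.lam | with_reducible apply IntF.insert | with_reducible apply IntF.singleton | with_reducible apply IntF.union | with_reducible apply IntF.iimage | with_reducible apply IntF.ite | with_reducible apply IntF.the | with_reducible apply IntF.irec | with_reducible apply IntF.succ | with_reducible apply IntF.val | with_reducible apply IntF.mk | (with_reducible refine Int.comp ?_ ?_; assumption) | (with_reducible refine Int.comp₂ ?_ ?_ ?_; assumption) | (with_reducible refine Int.comp₃ ?_ ?_ ?_ ?_; assumption) | (with_reducible refine Int.comp₄ ?_ ?_ ?_ ?_ ?_; assumption) | (with_reducible refine IntF.comp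 ?_ ?_; assumption) | (with_reducible refine IntF.comp₂ ?_ ?_ ?_; assumption) | (with_reducible refine IntF.comp₃ ?_ ?_ ?_ ?_; assumption) | with_reducible apply IntF.pair)))
    refine ⟨_, ⟨fun c hc => ?_, _, compl_single h a e2, fun c => ?_⟩, (e1 _).2 rfl, fun b hb =>
      (e1 b).1 hb ▸ ha⟩
    · rw [(e1 c).1 hc]
      exact ⟨fun i hi hi' => absurd hi' (h1 i hi), fun n hn => absurd hn (h2 n)⟩
    · rw [e2, e1]
  rcases a with p | i | n
  · exact hsing (fun i hi => by cases hi) fun n hn => by cases hn
  · by_cases hi : R (0, (i, i))
    · have e1 : ∀ c, c ∈ sep N (fun c : BT N α => c ∈ U ∧ (c = Sum.inr (Sum.inl i) ∨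
          ∃ u, c = Sum.inl (u, i))) ↔ c ∈ U ∧ (c = Sum.inr (Sum.inl i) ∨ ∃ u, c = Sum.inl (u, i)) :=
        fun c => mem_sep (by (repeat' (first | with_reducible exact IntF.id | with_reducible exact IntF.fst' | with_reducible exact IntF.snd' | with_reducible exact IntF.const _ | with_reducible exact Int.const _ | assumption | with_reducible apply Int.and | with_reducible apply Int.or | with_reducible apply Int.not | with_reducible apply Int.imp | with_reducible apply Int.iff | with_reducible apply Int.ne | with_reducible apply Int.eq | with_reducible apply Int.mem | with_reducible apply Int.subset | with_reducible apply Int.ltN | with_reducible apply Int.leN | with_reducible_and_instances apply Int.le | with_reducible_and_instances apply Int.lt | with_reducible apply Int.all | with_reducible apply Int.ex | with_reducible apply IntF.fst | with_reducible apply IntF.snd | with_reducible apply IntF.app | with_reducible apply IntF.inl | with_reducible apply IntF.inr | with_reducible_and_instances apply IntF.mul | with_reducible_and_instances apply IntF.inv | with_reducible_and_instances apply IntF.add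 | with_reducible_and_instances apply IntF.sub | with_reducible_and_instances apply IntF.neg | with_reducible_and_instances apply IntF.smul | with_reducible apply Int.fin | with_reducible apply IntF.sep | with_reducible apply IntF.lam | with_reducible apply IntF.insert | with_reducible apply IntF.singleton | with_reducible apply IntF.union | with_reducible apply IntF.iimage | with_reducible apply IntF.ite | with_reducible apply IntF.the | with_reducible apply IntF.irec | with_reducible apply IntF.succ | with_reducible apply IntF.val | with_reducible apply IntF.mk | (with_reducible refine Int.comp ?_ ?_; assumption) | (with_reducible refine Int.comp₂ ?_ ?_ ?_; assumption) | (with_reducible refine Int.comp₃ ?_ ?_ ?_ ?_; assumption) | (with_reducible refine Int.comp₄ ?_ ?_ ?_ ?_ ?_; assumption) | (with_reducible refine IntF.comp ?_ ?_; assumption) | (with_reducible refine IntF.comp₂ ?_ ?_ ?_; assumption) | (with_reducible refine IntF.comp₃ ?_ ?_ ?_ ?_; assumption) | with_reducible apply IntF.pair)))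
      have e2 : ∀ c, c ∈ sep N (fun c : BT N α => ¬ (c ∈ U ∧ (c = Sum.inr (Sum.inl i) ∨
          ∃ u, c = Sum.inl (u, i)))) ↔ ¬ (c ∈ U ∧ (c = Sum.inr (Sum.inl i) ∨
          ∃ u, c = Sum.inl (u, i))) := fun c => mem_sep (by (repeat' (first | with_reducible exact IntF.id | with_reducible exact IntF.fst' | with_reducible exact IntF.snd' | with_reducible exact IntF.const _ | with_reducible exact Int.const _ | assumption | with_reducible apply Int.and | with_reducible apply Int.or | with_reducible apply Int.not | with_reducible apply Int.imp | with_reducible apply Int.iff | with_reducible apply Int.ne | with_reducible apply Int.eq | with_reducible apply Int.mem | with_reducible apply Int.subset | with_reducible apply Int.ltN | with_reducible apply Int.leN | with_reducible_and_instances apply Int.le | with_reducible_and_instances apply Int.lt | with_reducible apply Int.all | with_reducible apply Int.ex | with_reducible apply IntF.fst | with_reducible apply IntF.snd | with_reducible apply IntF.app | with_reducible apply IntF.inl | with_reducible apply IntF.inr | with_reducible_and_instances apply IntF.mul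 | with_reducible_and_instances apply IntF.inv | with_reducible_and_instances apply IntF.add | with_reducible_and_instances apply IntF.sub | with_reducible_and_instances apply IntF.neg | with_reducible_and_instances apply IntF.smul | with_reducible apply Int.fin | with_reducible apply IntF.sep | with_reducible apply IntF.lam | with_reducible apply IntF.insert | with_reducible apply IntF.singleton | with_reducible apply IntF.union | with_reducible apply IntF.iimage | with_reducible apply IntF.ite | with_reducible apply IntF.the | with_reducible apply IntF.irec | with_reducible apply IntF.succ | with_reducible apply IntF.val | with_reducible apply IntF.mk | (with_reducible refine Int.comp ?_ ?_; assumption) | (with_reducible refine Int.comp₂ ?_ ?_ ?_; assumption) | (with_reducible refine Int.comp₃ ?_ ?_ ?_ ?_; assumption) | (with_reducible refine Int.comp₄ ?_ ?_ ?_ ?_ ?_; assumption) | (with_reducible refine IntF.comp ?_ ?_; assumption) | (with_reducible refine IntF.comp₂ ?_ ?_ ?_; assumption) | (with_reducible refine IntF.comp₃ ?_ ?_ ?_ ?_; assumption) | with_reducible apply IntF.pair)))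
      refine ⟨_, ⟨fun c hc => ?_, _, fun c hc => ?_, fun c => by rw [e2, e1]⟩,
        (e1 _).2 ⟨ha, Or.inl rfl⟩, fun b hb => ((e1 b).1 hb).1⟩
      · obtain ⟨hcU, hc1⟩ := (e1 c).1 hc
        refine ⟨fun j hj hj' => ?_, fun n hn => ?_⟩
        · rcases hc1 with h1 | ⟨u, h1⟩
          · have h2 : j = i := Sum.inl_injective (Sum.inr_injective (hj.symm.trans h1))
            subst h2
            obtain ⟨⟨m, h3⟩, h4⟩ := (hU _ ha).1 j rfl hj'
            refine ⟨⟨m, fun n hmn u hu => (e1 _).2 ⟨h3 n hmn u hu, Or.inr ⟨u, rfl⟩⟩⟩, fun n => ?_⟩
            obtain ⟨v, hv, h5⟩ := h4 n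
            exact ⟨v, hv, fun u hu hu' => (e1 _).2 ⟨h5 u hu hu', Or.inr ⟨u, rfl⟩⟩⟩
          · rw [hj] at h1
            cases h1
        · rcases hc1 with h1 | ⟨u, h1⟩
          · rw [hn] at h1
            cases h1
          · rw [hn] at h1
            cases h1
      · rw [e2] at hc
        refine ⟨fun j hj hj' => ?_, fun n hn => ?_⟩
        · have hji : j ≠ i := by
            rintro rfl
            rw [hj] at hc
            exact hc ⟨ha, Or.inl rfl⟩
          have h1 : ∀ u, Sum.inl (u, j) ∈ sep N (fun c : BT N α => ¬ (c ∈ U ∧
              (c = Sum.inr (Sum.inl i) ∨ ∃ u, c = Sum.inl (u, i)))) := fun u => (e2 _).2 fun h2 => by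
            rcases h2.2 with h3 | ⟨v, h3⟩
            · cases h3
            · exact hji (Prod.ext_iff.1 (Sum.inl_injective h3)).2
          refine ⟨⟨0, fun n _ u _ => h1 u⟩, fun n => ?_⟩
          obtain ⟨v, hv⟩ := h.ne n.succ
          exact ⟨v, hv, fun u _ _ => h1 u⟩
        · obtain ⟨t, ht⟩ := h.ne n.succ
          refine ⟨i, hi, t, ht, fun u j k1 k2 k3 k4 => (e2 _).2 fun h2 => ?_⟩
          rcases h2.2 with h3 | ⟨v, h3⟩
          · cases h3
          · exact k4 (Prod.ext_iff.1 (Sum.inl_injective h3)).2.symm
    · exact hsing (fun j hj => by
        rw [← Sum.inl_injective (Sum.inr_injective hj)]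
        exact hi) fun n hn => by cases hn
  · obtain ⟨s, hs, t, ht, h1⟩ := (hU _ ha).2 n rfl
    have e1 : ∀ c, c ∈ sep N (fun c : BT N α => c = Sum.inr (Sum.inr n) ∨ ∃ u i,
        c = Sum.inl (u, i) ∧ (R (n.succ, (t, u)) ∧ t ≠ u) ∧ R (0, (s, i)) ∧ s ≠ i) ↔
        (c = Sum.inr (Sum.inr n) ∨ ∃ u i,
        c = Sum.inl (u, i) ∧ (R (n.succ, (t, u)) ∧ t ≠ u) ∧ R (0, (s, i)) ∧ s ≠ i) :=
      fun c => mem_sep (by (repeat' (first | with_reducible exact IntF.id | with_reducible exact IntF.fst' | with_reducible exact IntF.snd' | with_reducible exact IntF.const _ | with_reducible exact Int.const _ | assumption | with_reducible apply Int.and | with_reducible apply Int.or | with_reducible apply Int.not | with_reducible apply Int.imp | with_reducible apply Int.iff | with_reducible apply Int.ne | with_reducible apply Int.eq | with_reducible apply Int.mem | with_reducible apply Int.subset | with_reducible apply Int.ltN | with_reducible apply Int.leN | with_reducible_and_instances apply Int.le | with_reducible_and_instances apply Int.lt | with_reducible apply Int.all | with_reducible apply Int.ex | with_reducible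 apply IntF.fst | with_reducible apply IntF.snd | with_reducible apply IntF.app | with_reducible apply IntF.inl | with_reducible apply IntF.inr | with_reducible_and_instances apply IntF.mul | with_reducible_and_instances apply IntF.inv | with_reducible_and_instances apply IntF.add | with_reducible_and_instances apply IntF.sub | with_reducible_and_instances apply IntF.neg | with_reducible_and_instances apply IntF.smul | with_reducible apply Int.fin | with_reducible apply IntF.sep | with_reducible apply IntF.lam | with_reducible apply IntF.insert | with_reducible apply IntF.singleton | with_reducible apply IntF.union | with_reducible apply IntF.iimage | with_reducible apply IntF.ite | with_reducible apply IntF.the | with_reducible apply IntF.irec | with_reducible apply IntF.succ | with_reducible apply IntF.val | with_reducible apply IntF.mk | (with_reducible refine Int.comp ?_ ?_; assumption) | (with_reducible refine Int.comp₂ ?_ ?_ ?_; assumption) | (with_reducible refine Int.comp₃ ?_ ?_ ?_ ?_; assumption) | (with_reducible refine Int.comp₄ ?_ ?_ ?_ ?_ ?_; assumption) | (with_reducible refine IntF.comp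 ?_ ?_; assumption) | (with_reducible refine IntF.comp₂ ?_ ?_ ?_; assumption) | (with_reducible refine IntF.comp₃ ?_ ?_ ?_ ?_; assumption) | with_reducible apply IntF.pair)))
    have e2 : ∀ c, c ∈ sep N (fun c : BT N α => ¬ (c = Sum.inr (Sum.inr n) ∨ ∃ u i,
        c = Sum.inl (u, i) ∧ (R (n.succ, (t, u)) ∧ t ≠ u) ∧ R (0, (s, i)) ∧ s ≠ i)) ↔
        ¬ (c = Sum.inr (Sum.inr n) ∨ ∃ u i,
        c = Sum.inl (u, i) ∧ (R (n.succ, (t, u)) ∧ t ≠ u) ∧ R (0, (s, i)) ∧ s ≠ i) :=
      fun c => mem_sep (by (repeat' (first | with_reducible exact IntF.id | with_reducible exact IntF.fst' | with_reducible exact IntF.snd' | with_reducible exact IntF.const _ | with_reducible exact Int.const _ | assumption | with_reducible apply Int.and | with_reducible apply Int.or | with_reducible apply Int.not | with_reducible apply Int.imp | with_reducible apply Int.iff | with_reducible apply Int.ne | with_reducible apply Int.eq | with_reducible apply Int.mem | with_reducible apply Int.subset | with_reducible apply Int.ltN | with_reducible apply Int.leN | with_reducible_and_instances apply Int.le | with_reducible_and_instances apply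 Int.lt | with_reducible apply Int.all | with_reducible apply Int.ex | with_reducible apply IntF.fst | with_reducible apply IntF.snd | with_reducible apply IntF.app | with_reducible apply IntF.inl | with_reducible apply IntF.inr | with_reducible_and_instances apply IntF.mul | with_reducible_and_instances apply IntF.inv | with_reducible_and_instances apply IntF.add | with_reducible_and_instances apply IntF.sub | with_reducible_and_instances apply IntF.neg | with_reducible_and_instances apply IntF.smul | with_reducible apply Int.fin | with_reducible apply IntF.sep | with_reducible apply IntF.lam | with_reducible apply IntF.insert | with_reducible apply IntF.singleton | with_reducible apply IntF.union | with_reducible apply IntF.iimage | with_reducible apply IntF.ite | with_reducible apply IntF.the | with_reducible apply IntF.irec | with_reducible apply IntF.succ | with_reducible apply IntF.val | with_reducible apply IntF.mk | (with_reducible refine Int.comp ?_ ?_; assumption) | (with_reducible refine Int.comp₂ ?_ ?_ ?_; assumption) | (with_reducible refine Int.comp₃ ?_ ?_ ?_ ?_; assumption) | (with_reducible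 refine Int.comp₄ ?_ ?_ ?_ ?_ ?_; assumption) | (with_reducible refine IntF.comp ?_ ?_; assumption) | (with_reducible refine IntF.comp₂ ?_ ?_ ?_; assumption) | (with_reducible refine IntF.comp₃ ?_ ?_ ?_ ?_; assumption) | with_reducible apply IntF.pair)))
    refine ⟨_, ⟨fun c hc => ?_, _, fun c hc => ?_, fun c => by rw [e2, e1]⟩,
      (e1 _).2 (Or.inl rfl), fun b hb => ?_⟩
    · rw [e1] at hc
      refine ⟨fun j hj hj' => ?_, fun k hk => ?_⟩
      · rcases hc with h2 | ⟨u, i, h2, -⟩
        · rw [hj] at h2
          cases h2
        · rw [hj] at h2
          cases h2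
      · rcases hc with h2 | ⟨u, i, h2, -⟩
        · have h3 : k = n := Sum.inr_injective (Sum.inr_injective (hk.symm.trans h2))
          subst h3
          exact ⟨s, hs, t, ht, fun u i k1 k2 k3 k4 =>
            (e1 _).2 (Or.inr ⟨u, i, rfl, ⟨k1, k2⟩, k3, k4⟩)⟩
        · rw [hk] at h2
          cases h2
    · rw [e2] at hc
      refine ⟨fun j hj hj' => ?_, fun k hk => ?_⟩
      · refine ⟨⟨n.succ, fun k hk v hv => (e2 _).2 ?_⟩, fun k => ?_⟩
        · rintro (h2 | ⟨u, i, h2, ⟨h3, -⟩, -⟩)
          · cases h2
          · have h4 : v = u := (Prod.ext_iff.1 (Sum.inl_injective h2)).1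
            rw [h4] at hv
            have h5 := h.uniq _ _ _ hv (h.right _ _ _ h3)
            exact absurd (h5 ▸ INat.lt_succ_self k) (not_lt.2 hk)
        · by_cases hk : k = n
          · subst hk
            refine ⟨t, ht, fun v hv hv' => (e2 _).2 ?_⟩
            rintro (h2 | ⟨u, i, h2, ⟨h3, -⟩, -⟩)
            · cases h2
            · have h4 : v = u := (Prod.ext_iff.1 (Sum.inl_injective h2)).1
              rw [← h4] at h3
              exact hv' (h.antisymm _ _ _ hv h3)
          · obtain ⟨v, hv⟩ := h.ne k.succ
            refine ⟨v, hv, fun w hw hw' => (e2 _).2 ?_⟩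
            rintro (h2 | ⟨u, i, h2, ⟨h3, -⟩, -⟩)
            · cases h2
            · have h4 : w = u := (Prod.ext_iff.1 (Sum.inl_injective h2)).1
              rw [← h4] at h3
              exact hk (INat.succ_inj (h.uniq _ _ _ (h.left _ _ _ hw) (h.right _ _ _ h3)))
      · have hkn : k ≠ n := by
          rintro rfl
          exact hc (Or.inl hk)
        obtain ⟨t', ht'⟩ := h.ne k.succ
        refine ⟨s, hs, t', ht', fun v j k1 k2 k3 k4 => (e2 _).2 ?_⟩
        rintro (h2 | ⟨u, i, h2, ⟨h3, -⟩, -⟩)
        · cases h2
        · have h4 : v = u := (Prod.ext_iff.1 (Sum.inl_injective h2)).1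
          rw [← h4] at h3
          exact hkn (INat.succ_inj (h.uniq _ _ _ (h.right _ _ _ k1) (h.right _ _ _ h3)))
    · rw [e1] at hb
      rcases hb with rfl | ⟨u, i, rfl, ⟨h2, h3⟩, h4, h5⟩
      · exact ha
      · exact h1 u i h2 h3 h4 h5

theorem sep_OH (h : BD N R) (a b : BT N α) (hab : a ≠ b) :
    ∃ V, Clp (OH R) V ∧ a ∈ V ∧ ¬ b ∈ V := by
  have e2 : ∀ c, c ∈ sep N (fun c : BT N α => c ≠ b) ↔ c ≠ b := fun c => mem_sep (by (repeat' (first | with_reducible exact IntF.id | with_reducible exact IntF.fst' | with_reducible exact IntF.snd' | with_reducible exact IntF.const _ | with_reducible exact Int.const _ | assumption | with_reducible apply Int.and | with_reducible apply Int.or | with_reducible apply Int.not | with_reducible apply Int.imp | with_reducible apply Int.iff | with_reducible apply Int.ne | with_reducible apply Int.eq | with_reducible apply Int.mem | with_reducible apply Int.subset | with_reducible apply Int.ltN | with_reducible apply Int.leN | with_reducible_and_instances apply Int.le | with_reducible_and_instances apply Int.lt | with_reducible apply Int.all | with_reducible apply Int.ex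 | with_reducible apply IntF.fst | with_reducible apply IntF.snd | with_reducible apply IntF.app | with_reducible apply IntF.inl | with_reducible apply IntF.inr | with_reducible_and_instances apply IntF.mul | with_reducible_and_instances apply IntF.inv | with_reducible_and_instances apply IntF.add | with_reducible_and_instances apply IntF.sub | with_reducible_and_instances apply IntF.neg | with_reducible_and_instances apply IntF.smul | with_reducible apply Int.fin | with_reducible apply IntF.sep | with_reducible apply IntF.lam | with_reducible apply IntF.insert | with_reducible apply IntF.singleton | with_reducible apply IntF.union | with_reducible apply IntF.iimage | with_reducible apply IntF.ite | with_reducible apply IntF.the | with_reducible apply IntF.irec | with_reducible apply IntF.succ | with_reducible apply IntF.val | with_reducible apply IntF.mk | (with_reducible refine Int.comp ?_ ?_; assumption) | (with_reducible refine Int.comp₂ ?_ ?_ ?_; assumption) | (with_reducible refine Int.comp₃ ?_ ?_ ?_ ?_; assumption) | (with_reducible refine Int.comp₄ ?_ ?_ ?_ ?_ ?_; assumption) | (with_reducible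 refine IntF.comp ?_ ?_; assumption) | (with_reducible refine IntF.comp₂ ?_ ?_ ?_; assumption) | (with_reducible refine IntF.comp₃ ?_ ?_ ?_ ?_; assumption) | with_reducible apply IntF.pair)))
  obtain ⟨V, h1, h2, h3⟩ := zd_OH h _ (compl_single h b e2) a ((e2 _).2 hab)
  exact ⟨V, h1, h2, fun h4 => (e2 _).1 (h3 b h4) rfl⟩

/-- The points of the second kind are separated. -/
theorem sepP_OH (h : BD N R) (n : INat N) : ∃ V, Clp (OH R) V ∧ Sum.inr (Sum.inr n) ∈ V ∧
    ∀ k, k ≠ n → ¬ Sum.inr (Sum.inr k) ∈ V := by
  have e1 : ∀ c, c ∈ sep N (fun c : BT N α => ∀ k, c = Sum.inr (Sum.inr k) → k = n) ↔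
      ∀ k, c = Sum.inr (Sum.inr k) → k = n := fun c => mem_sep (by (repeat' (first | with_reducible exact IntF.id | with_reducible exact IntF.fst' | with_reducible exact IntF.snd' | with_reducible exact IntF.const _ | with_reducible exact Int.const _ | assumption | with_reducible apply Int.and | with_reducible apply Int.or | with_reducible apply Int.not | with_reducible apply Int.imp | with_reducible apply Int.iff | with_reducible apply Int.ne | with_reducible apply Int.eq | with_reducible apply Int.mem | with_reducible apply Int.subset | with_reducible apply Int.ltN | with_reducible apply Int.leN | with_reducible_and_instances apply Int.le | with_reducible_and_instances apply Int.lt | with_reducible apply Int.all | with_reducible apply Int.ex | with_reducible apply IntF.fst | with_reducible apply IntF.snd | with_reducible apply IntF.app | with_reducible apply IntF.inl | with_reducible apply IntF.inr | with_reducible_and_instances apply IntF.mul | with_reducible_and_instances apply IntF.inv | with_reducible_and_instances apply IntF.add | with_reducible_and_instances apply IntF.sub | with_reducible_and_instances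 apply IntF.neg | with_reducible_and_instances apply IntF.smul | with_reducible apply Int.fin | with_reducible apply IntF.sep | with_reducible apply IntF.lam | with_reducible apply IntF.insert | with_reducible apply IntF.singleton | with_reducible apply IntF.union | with_reducible apply IntF.iimage | with_reducible apply IntF.ite | with_reducible apply IntF.the | with_reducible apply IntF.irec | with_reducible apply IntF.succ | with_reducible apply IntF.val | with_reducible apply IntF.mk | (with_reducible refine Int.comp ?_ ?_; assumption) | (with_reducible refine Int.comp₂ ?_ ?_ ?_; assumption) | (with_reducible refine Int.comp₃ ?_ ?_ ?_ ?_; assumption) | (with_reducible refine Int.comp₄ ?_ ?_ ?_ ?_ ?_; assumption) | (with_reducible refine IntF.comp ?_ ?_; assumption) | (with_reducible refine IntF.comp₂ ?_ ?_ ?_; assumption) | (with_reducible refine IntF.comp₃ ?_ ?_ ?_ ?_; assumption) | with_reducible apply IntF.pair)))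
  have h0 : OH R (sep N fun c : BT N α => ∀ k, c = Sum.inr (Sum.inr k) → k = n) := by
    intro c hc
    refine ⟨fun i _ _ => ⟨⟨0, fun m _ u _ => (e1 _).2 fun k hk => by cases hk⟩, fun m => ?_⟩,
      fun k _ => ?_⟩
    · obtain ⟨v, hv⟩ := h.ne m.succ
      exact ⟨v, hv, fun u _ _ => (e1 _).2 fun k hk => by cases hk⟩
    · obtain ⟨s, hs⟩ := h.ne 0
      obtain ⟨t, ht⟩ := h.ne k.succ
      exact ⟨s, hs, t, ht, fun u i _ _ _ _ => (e1 _).2 fun k hk => by cases hk⟩
  obtain ⟨V, h1, h2, h3⟩ := zd_OH h _ h0 (Sum.inr (Sum.inr n))
    ((e1 _).2 fun k hk => (Sum.inr_injective (Sum.inr_injective hk)).symm)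
  exact ⟨V, h1, h2, fun k hk hkV => hk ((e1 _).1 (h3 _ hkV) k rfl)⟩

variable {r : N} [Field (Helper672.Plain.El r)] [LinearOrder (Helper672.Plain.El r)] [IsStrictOrderedRing (Helper672.Plain.El r)]

/-- Continuous functions are constant along the points of the second kind. -/
theorem evconst (hr : IsReals r) (h : BD N R) {f : BT N α → Helper672.Plain.El r} (hf : IntF N f)
    (hc : ∀ c, ∀ ε : Helper672.Plain.El r, 0 < ε → ∃ U, OH R U ∧ c ∈ U ∧ ∀ d, d ∈ U → |f d - f c| < ε) :
    ∃ (m : INat N) (z : Helper672.Plain.El r), ∀ n, m ≤ n → f (Sum.inr (Sum.inr n)) = z := by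
  have hR := h.int
  obtain ⟨q, hq, hpos, hanti, hlim⟩ := exists_q hr
  have hlt := int_lt hr
  have hd := int_ds hr
  have hO := (tpO_OH h).int
  -- locally constant
  have hloc : ∀ c, ∃ U, OH R U ∧ c ∈ U ∧ ∀ d, d ∈ U → f d = f c := by
    intro c
    let V : INat N → IPow N (BT N α) := fun k => sep N fun d => ∃ U, OH R U ∧ d ∈ U ∧
      ∀ e, e ∈ U → ds (f e) (f c) < q k
    have hVI' : Int N (fun p : INat N × BT N α => ∃ U, OH R U ∧ p.2 ∈ U ∧
      ∀ e, e ∈ U → ds (f e) (f c) < q p.1) := by (repeat' (first | with_reducible exact IntF.id | with_reducible exact IntF.fst' | with_reducible exact IntF.snd' | with_reducible exact IntF.const _ | with_reducible exact Int.const _ | assumption | with_reducible apply Int.and | with_reducible apply Int.or | with_reducible apply Int.not | with_reducible apply Int.imp | with_reducible apply Int.iff | with_reducible apply Int.ne | with_reducible apply Int.eq | with_reducible apply Int.mem | with_reducible apply Int.subset | with_reducible apply Int.ltN | with_reducible apply Int.leN | with_reducible_and_instances apply Int.le | with_reducible_and_instances apply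 Int.lt | with_reducible apply Int.all | with_reducible apply Int.ex | with_reducible apply IntF.fst | with_reducible apply IntF.snd | with_reducible apply IntF.app | with_reducible apply IntF.inl | with_reducible apply IntF.inr | with_reducible_and_instances apply IntF.mul | with_reducible_and_instances apply IntF.inv | with_reducible_and_instances apply IntF.add | with_reducible_and_instances apply IntF.sub | with_reducible_and_instances apply IntF.neg | with_reducible_and_instances apply IntF.smul | with_reducible apply Int.fin | with_reducible apply IntF.sep | with_reducible apply IntF.lam | with_reducible apply IntF.insert | with_reducible apply IntF.singleton | with_reducible apply IntF.union | with_reducible apply IntF.iimage | with_reducible apply IntF.ite | with_reducible apply IntF.the | with_reducible apply IntF.irec | with_reducible apply IntF.succ | with_reducible apply IntF.val | with_reducible apply IntF.mk | (with_reducible refine Int.comp ?_ ?_; assumption) | (with_reducible refine Int.comp₂ ?_ ?_ ?_; assumption) | (with_reducible refine Int.comp₃ ?_ ?_ ?_ ?_; assumption) | (with_reducible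 refine Int.comp₄ ?_ ?_ ?_ ?_ ?_; assumption) | (with_reducible refine IntF.comp ?_ ?_; assumption) | (with_reducible refine IntF.comp₂ ?_ ?_ ?_; assumption) | (with_reducible refine IntF.comp₃ ?_ ?_ ?_ ?_; assumption) | with_reducible apply IntF.pair))
    have hV : IntF N V := IntF.sep hVI'
    have hVm : ∀ k d, d ∈ V k ↔ ∃ U, OH R U ∧ d ∈ U ∧ ∀ e, e ∈ U → ds (f e) (f c) < q k :=
      fun k d => mem_sep (Int.comp (p := fun p : INat N × BT N α => ∃ U, OH R U ∧ p.2 ∈ U ∧
        ∀ e, e ∈ U → ds (f e) (f c) < q p.1) hVI' (IntF.pair (IntF.const k) IntF.id))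
    have hVo : ∀ k, OH R (V k) := fun k => open_of_localα (tpO_OH h) fun a ha => by
      obtain ⟨U, h1, h2, h3⟩ := (hVm k a).1 ha
      exact ⟨U, h1, h2, fun b hb => (hVm k b).2 ⟨U, h1, hb, h3⟩⟩
    obtain ⟨U, h1, h2, h3⟩ := ppt_OH h c V hV hVo fun k => (hVm k c).2 (hc c (q k) (hpos k))
    refine ⟨U, h1, h2, fun d hd => ?_⟩
    by_contra hne
    obtain ⟨k, hk⟩ := hlim |f d - f c| (abs_pos.2 (sub_ne_zero.2 hne))
    obtain ⟨U', -, h4, h5⟩ := (hVm k d).1 (h3 d hd k)
    exact absurd (h5 d h4) (not_lt.2 hk.le)
  obtain ⟨W, hW, hWd⟩ := exists_dense hr
  have hW' : Int N (fun c : (α × α) × INat N => W (f (Sum.inl c.1)) c.2) := by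
    exact Int.comp (p := fun q : Helper672.Plain.El r × INat N => W q.1 q.2) hW (IntF.pair
      (IntF.comp (g := f) hf (IntF.comp (g := fun p : α × α => (Sum.inl p : BT N α)) (by (repeat' (first | with_reducible exact IntF.id | with_reducible exact IntF.fst' | with_reducible exact IntF.snd' | with_reducible exact IntF.const _ | with_reducible exact Int.const _ | assumption | with_reducible apply Int.and | with_reducible apply Int.or | with_reducible apply Int.not | with_reducible apply Int.imp | with_reducible apply Int.iff | with_reducible apply Int.ne | with_reducible apply Int.eq | with_reducible apply Int.mem | with_reducible apply Int.subset | with_reducible apply Int.ltN | with_reducible apply Int.leN | with_reducible_and_instances apply Int.le | with_reducible_and_instances apply Int.lt | with_reducible apply Int.all | with_reducible apply Int.ex | with_reducible apply IntF.fst | with_reducible apply IntF.snd | with_reducible apply IntF.app | with_reducible apply IntF.inl | with_reducible apply IntF.inr | with_reducible_and_instances apply IntF.mul | with_reducible_and_instances apply IntF.inv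 | with_reducible_and_instances apply IntF.add | with_reducible_and_instances apply IntF.sub | with_reducible_and_instances apply IntF.neg | with_reducible_and_instances apply IntF.smul | with_reducible apply Int.fin | with_reducible apply IntF.sep | with_reducible apply IntF.lam | with_reducible apply IntF.insert | with_reducible apply IntF.singleton | with_reducible apply IntF.union | with_reducible apply IntF.iimage | with_reducible apply IntF.ite | with_reducible apply IntF.the | with_reducible apply IntF.irec | with_reducible apply IntF.succ | with_reducible apply IntF.val | with_reducible apply IntF.mk | (with_reducible refine Int.comp ?_ ?_; assumption) | (with_reducible refine Int.comp₂ ?_ ?_ ?_; assumption) | (with_reducible refine Int.comp₃ ?_ ?_ ?_ ?_; assumption) | (with_reducible refine Int.comp₄ ?_ ?_ ?_ ?_ ?_; assumption) | (with_reducible refine IntF.comp ?_ ?_; assumption) | (with_reducible refine IntF.comp₂ ?_ ?_ ?_; assumption) | (with_reducible refine IntF.comp₃ ?_ ?_ ?_ ?_; assumption) | with_reducible apply IntF.pair)))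
        IntF.fst')) IntF.snd')
  obtain ⟨-, s, hs, -, hB, -, -⟩ := h.hom _ hW'
  have hB' : ∀ i i' u, R (0, (s, i)) → s ≠ i → R (0, (s, i')) → s ≠ i' → ¬ R (0, (u, u)) →
      f (Sum.inl (u, i)) = f (Sum.inl (u, i')) := fun i i' u h1 h2 h3 h4 h5 =>
    le_antisymm (hWd _ _ (hB i i' u h1 h2 h3 h4 h5)) (hWd _ _ (hB i' i u h3 h4 h1 h2 h5))
  obtain ⟨i, hi, hi'⟩ := h.top 0 s hs
  obtain ⟨U, hU, hiU, hUc⟩ := hloc (Sum.inr (Sum.inl i))
  obtain ⟨⟨m, hm⟩, -⟩ := (hU _ hiU).1 i rfl (h.right _ _ _ hi)
  refine ⟨m, f (Sum.inr (Sum.inl i)), fun n hn => ?_⟩
  obtain ⟨U', hU', hnU, hUc'⟩ := hloc (Sum.inr (Sum.inr n))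
  obtain ⟨s', hs', t', ht', h1⟩ := (hU' _ hnU).2 n rfl
  obtain ⟨a, g1, g2, g3, g4⟩ := h.ub hs hs'
  obtain ⟨b, g5, g6⟩ := h.top _ t' ht'
  have hb := h.right _ _ _ g5
  rw [← hUc' _ (h1 b a g5 (Ne.symm g6) g3 g4), ← hUc _ (hm n hn b hb)]
  exact hB' a i b g1 g2 hi (Ne.symm hi') fun h5 => h.z_ne h5 hb

end

end Pool.Agent.Q301.BM
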