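import Pool.Agent.Q301.TM.TopG
import Pool.Agent.Q301.BM.Defs

/-!
# Spaces given by internal families of sets
-/

set_option maxHeartbeats 1000000
set_option linter.all false
set_option synthInstance.maxSize 2000

namespace Pool.Agent.Q301.BM

open FirstOrder FirstOrder.Language
open Pool.Agent.Helper672.ZFA
open Pool.Agent.Helper672.Plain (LSet)
open Pool.Agent.Helper672.ZFA.H635 (toL plainN_ordPair plainN_graph plainN_opGraph)
open Pool.Agent.H635Amen (IsReals)
open Pool.Agent.H310Cards (IsOmega IsFinite IsFun App IsInj IsNat IsProd)
open Pool.Agent.H310Top (IsTopology IsClosed IsCompact)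
open Pool.Agent.H310 (FinP finP_iff finP_le finP_lt exists_BN mem_nat nat_iff appN finite_of_finP
  mem_cp extN exists_code instPEl)
open Pool.Agent.Q301.TM

universe u u₁

attribute [local instance] toL instPEl

section

variable {N : Type u} [LSet.Structure N] [hM : IsModel N] {α β : Type u} [ITy N α] [ITy N β]

/-- A topology on an internal type. -/
structure TpO (O : IPow N α → Prop) : Prop where
  int : Int N O
  univ : ∀ U : IPow N α, (∀ a, a ∈ U) → O U
  inter : ∀ U V W : IPow N α, O U → O V → (∀ a, a ∈ W ↔ a ∈ U ∧ a ∈ V) → O W
  union : ∀ (C : IPow N α → Prop), Int N C → (∀ U, C U → O U) →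
    ∀ W : IPow N α, (∀ a, a ∈ W ↔ ∃ U, C U ∧ a ∈ U) → O W

/-- The corresponding set of sets. -/
noncomputable def tp (O : IPow N α → Prop) (hO : Int N O) : N := code (sep N O)

theorem mem_tp {O : IPow N α → Prop} {hO : Int N O} {u : N} :
    Helper672.Plain.Mem u (tp O hO) ↔ ∃ U, O U ∧ code U = u := by
  refine mem_cp.trans ?_
  constructor
  · rintro ⟨U, h1, h2⟩
    exact ⟨U, (mem_sep hO).1 h1, h2⟩
  · rintro ⟨U, h1, h2⟩
    exact ⟨U, (mem_sep hO).2 h1, h2⟩

theorem mem_tp' {O : IPow N α → Prop} {hO : Int N O} {U : IPow N α} :
    Helper672.Plain.Mem (code U) (tp O hO) ↔ O U := by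
  rw [mem_tp]
  constructor
  · rintro ⟨V, h1, h2⟩
    rwa [← ITy.inj (M := N) h2]
  · exact fun h => ⟨U, h, rfl⟩

theorem mem_cp' {U : IPow N α} {a : α} : Helper672.Plain.Mem (code a) (code (M := N) U) ↔ a ∈ U := by
  rw [mem_cp]
  constructor
  · rintro ⟨b, h1, h2⟩
    rwa [← ITy.inj (M := N) h2]
  · exact fun h => ⟨a, h, rfl⟩

theorem mem_domP {z : N} : Helper672.Plain.Mem z (dom N α) ↔ ∃ a : α, code a = z :=
  mem_dom (M := N) (α := α) (z := z)

/-- Subsets of the type. -/
theorem exists_codeα {u : N} (h : ∀ z, Helper672.Plain.Mem z u → Helper672.Plain.Mem z (dom N α)) :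
    ∃ U : IPow N α, code U = u ∧ ∀ a, a ∈ U ↔ Helper672.Plain.Mem (code a) u := by
  have hI : Int N (fun a : α => Helper672.Plain.Mem (code a) u) := ⟨u, fun x => Iff.rfl⟩
  have h1 : ∀ a, a ∈ sep N (fun a : α => Helper672.Plain.Mem (code a) u) ↔ Helper672.Plain.Mem (code a) u := fun a => mem_sep hI
  refine ⟨sep N (fun a : α => Helper672.Plain.Mem (code a) u), extN fun z => ?_, h1⟩
  rw [mem_cp]
  constructor
  · rintro ⟨a, h2, rfl⟩
    exact (h1 a).1 h2
  · intro hz
    obtain ⟨a, rfl⟩ := mem_domP.1 (h z hz)
    exact ⟨a, (h1 a).2 hz, rfl⟩

theorem isTopology_tp {O : IPow N α → Prop} (h : TpO O) : IsTopology (tp O h.int) (dom N α) := by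
  refine ⟨fun u hu z hz => ?_, ?_, fun u v w hu hv hw => ?_, fun c w hc hw => ?_⟩
  · obtain ⟨U, -, rfl⟩ := mem_tp.1 hu
    obtain ⟨a, -, rfl⟩ := mem_cp.1 hz
    exact mem_domP.2 ⟨a, rfl⟩
  · obtain ⟨U, h1, h2⟩ := exists_codeα (N := N) (α := α) (u := dom N α) fun z hz => hz
    have h3 : Helper672.Plain.Mem (code (M := N) U) (tp O h.int) := mem_tp'.2 (h.univ U fun a =>
      (h2 a).2 (mem_domP.2 ⟨a, rfl⟩))
    rwa [h1] at h3
  · obtain ⟨U, hU, rfl⟩ := mem_tp.1 hu
    obtain ⟨V, hV, rfl⟩ := mem_tp.1 hv
    obtain ⟨W, rfl, h2⟩ := exists_codeα (N := N) (α := α) (u := w) fun z hz => by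
      obtain ⟨a, -, rfl⟩ := mem_cp.1 ((hw z).1 hz).1
      exact mem_domP.2 ⟨a, rfl⟩
    refine mem_tp'.2 (h.inter U V W hU hV fun a => ?_)
    rw [← mem_cp', hw, show Helper672.Plain.Mem (code a) (code U) ↔ _ from mem_cp',
      show Helper672.Plain.Mem (code a) (code V) ↔ _ from mem_cp']
  · obtain ⟨W, rfl, h2⟩ := exists_codeα (N := N) (α := α) (u := w) fun z hz => by
      obtain ⟨u, hu, hz⟩ := (hw z).1 hz
      obtain ⟨U, -, rfl⟩ := mem_tp.1 (hc u hu)
      obtain ⟨a, -, rfl⟩ := mem_cp.1 hz
      exact mem_domP.2 ⟨a, rfl⟩
    refine mem_tp'.2 (h.union (fun U => Helper672.Plain.Mem (code U) c) ⟨c, fun x => Iff.rfl⟩ (fun U hU =>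
      mem_tp'.1 (hc _ hU)) W fun a => ?_)
    rw [← mem_cp', hw]
    constructor
    · rintro ⟨u, hu, hz⟩
      obtain ⟨U, -, rfl⟩ := mem_tp.1 (hc u hu)
      exact ⟨U, hu, mem_cp'.1 hz⟩
    · rintro ⟨U, hU, ha⟩
      exact ⟨code U, hU, mem_cp'.2 ha⟩

/-- Topologies given by neighbourhoods. -/
theorem tpO_of {Nb : α → IPow N α → Prop} (hI : Int N (fun q : α × IPow N α => Nb q.1 q.2))
    (hm : ∀ a U V, Nb a U → (∀ b, b ∈ U → b ∈ V) → Nb a V)
    (hi : ∀ a U V W, Nb a U → Nb a V → (∀ b, b ∈ W ↔ b ∈ U ∧ b ∈ V) → Nb a W)
    (hu : ∀ a U, (∀ b, b ∈ U) → Nb a U) : TpO (fun U : IPow N α => ∀ a, a ∈ U → Nb a U) := by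
  refine ⟨by (repeat' (first | with_reducible exact IntF.id | with_reducible exact IntF.fst' | with_reducible exact IntF.snd' | with_reducible exact IntF.const _ | with_reducible exact Int.const _ | assumption | with_reducible apply Int.and | with_reducible apply Int.or | with_reducible apply Int.not | with_reducible apply Int.imp | with_reducible apply Int.iff | with_reducible apply Int.ne | with_reducible apply Int.eq | with_reducible apply Int.mem | with_reducible apply Int.subset | with_reducible apply Int.ltN | with_reducible apply Int.leN | with_reducible_and_instances apply Int.le | with_reducible_and_instances apply Int.lt | with_reducible apply Int.all | with_reducible apply Int.ex | with_reducible apply IntF.fst | with_reducible apply IntF.snd | with_reducible apply IntF.app | with_reducible apply IntF.inl | with_reducible apply IntF.inr | with_reducible_and_instances apply IntF.mul | with_reducible_and_instances apply IntF.inv | with_reducible_and_instances apply IntF.add | with_reducible_and_instances apply IntF.sub | with_reducible_and_instances apply IntF.neg | with_reducible_and_instances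 apply IntF.smul | with_reducible apply Int.fin | with_reducible apply IntF.sep | with_reducible apply IntF.lam | with_reducible apply IntF.insert | with_reducible apply IntF.singleton | with_reducible apply IntF.union | with_reducible apply IntF.iimage | with_reducible apply IntF.ite | with_reducible apply IntF.the | with_reducible apply IntF.irec | with_reducible apply IntF.succ | with_reducible apply IntF.val | with_reducible apply IntF.mk | (with_reducible refine Int.comp ?_ ?_; assumption) | (with_reducible refine Int.comp₂ ?_ ?_ ?_; assumption) | (with_reducible refine Int.comp₃ ?_ ?_ ?_ ?_; assumption) | (with_reducible refine Int.comp₄ ?_ ?_ ?_ ?_ ?_; assumption) | (with_reducible refine IntF.comp ?_ ?_; assumption) | (with_reducible refine IntF.comp₂ ?_ ?_ ?_; assumption) | (with_reducible refine IntF.comp₃ ?_ ?_ ?_ ?_; assumption) | with_reducible apply IntF.pair)), fun U hU a _ => hu a U hU, fun U V W hU hV hW a ha => ?_,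
    fun C _ hC W hW a ha => ?_⟩
  · exact hi a U V W (hU a ((hW a).1 ha).1) (hV a ((hW a).1 ha).2) hW
  · obtain ⟨U, hU, haU⟩ := (hW a).1 ha
    exact hm a U W (hC U hU a haU) fun b hb => (hW b).2 ⟨U, hU, hb⟩

/-! ### Countable sets -/

/-- Enumerations of countable sets. -/
theorem exists_enum {b : N} (hb : IsCountable b) : ∃ E : Helper672.Plain.El b → INat N, IntF N E ∧
    ∀ v w, E v = E w → v = w := by
  obtain ⟨w, f, hw, ⟨h1, h2⟩, h3⟩ := hb
  have hr : Int N (fun q : Helper672.Plain.El b × INat N => Mem (op (code q.1) (code q.2)) f) :=
    ⟨f, fun q => Iff.rfl⟩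
  have h4 : ∀ v : Helper672.Plain.El b, ∃ k : INat N, Mem (op (code v) (code k)) f := by
    intro v
    obtain ⟨y, hy, -⟩ := h2 v.1 v.2
    obtain ⟨q, h5, h6⟩ := hy
    obtain ⟨x', y', h8, h9, h10⟩ := h1 q h6
    obtain ⟨-, rfl⟩ := op_inj ((plainN_ordPair.1 h5).symm.trans (plainN_ordPair.1 h10))
    obtain ⟨k, rfl⟩ := nat_iff.1 ((hw y).1 h9)
    exact ⟨k, appN.1 ⟨q, h5, h6⟩⟩
  choose E hE using h4
  refine ⟨E, IntF.of_unique (p := fun (v : Helper672.Plain.El b) (k : INat N) => Mem (op (code v) (code k)) f) hr hE
    fun v k k' h5 h6 => ?_, fun v v' h5 => ?_⟩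
  · obtain ⟨y, hy, hu⟩ := h2 v.1 v.2
    have h7 : code k = y := hu _ (appN.2 h5)
    have h8 : code k' = y := hu _ (appN.2 h6)
    exact ITy.inj (M := N) (h7.trans h8.symm)
  · have h6 := hE v
    have h7 := hE v'
    rw [← h5] at h7
    exact Subtype.ext (h3 _ _ _ (appN.2 h6) (appN.2 h7))

/-- Ranges of sequences are countable. -/
theorem countable_rangeα {C : INat N → IPow N α} (hC : IntF N C) {b : N}
    (hb : ∀ z, Helper672.Plain.Mem z b ↔ ∃ n, code (C n) = z) : IsCountable b := by
  obtain ⟨w, hw⟩ := exists_omega (N := N)
  have hI : Int N (fun q : IPow N α × INat N => C q.2 = q.1 ∧ ∀ m, C m = q.1 → q.2 ≤ m) := by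
    (repeat' (first | with_reducible exact IntF.id | with_reducible exact IntF.fst' | with_reducible exact IntF.snd' | with_reducible exact IntF.const _ | with_reducible exact Int.const _ | assumption | with_reducible apply Int.and | with_reducible apply Int.or | with_reducible apply Int.not | with_reducible apply Int.imp | with_reducible apply Int.iff | with_reducible apply Int.ne | with_reducible apply Int.eq | with_reducible apply Int.mem | with_reducible apply Int.subset | with_reducible apply Int.ltN | with_reducible apply Int.leN | with_reducible_and_instances apply Int.le | with_reducible_and_instances apply Int.lt | with_reducible apply Int.all | with_reducible apply Int.ex | with_reducible apply IntF.fst | with_reducible apply IntF.snd | with_reducible apply IntF.app | with_reducible apply IntF.inl | with_reducible apply IntF.inr | with_reducible_and_instances apply IntF.mul | with_reducible_and_instances apply IntF.inv | with_reducible_and_instances apply IntF.add | with_reducible_and_instances apply IntF.sub | with_reducible_and_instances apply IntF.neg | with_reducible_and_instances apply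 IntF.smul | with_reducible apply Int.fin | with_reducible apply IntF.sep | with_reducible apply IntF.lam | with_reducible apply IntF.insert | with_reducible apply IntF.singleton | with_reducible apply IntF.union | with_reducible apply IntF.iimage | with_reducible apply IntF.ite | with_reducible apply IntF.the | with_reducible apply IntF.irec | with_reducible apply IntF.succ | with_reducible apply IntF.val | with_reducible apply IntF.mk | (with_reducible refine Int.comp ?_ ?_; assumption) | (with_reducible refine Int.comp₂ ?_ ?_ ?_; assumption) | (with_reducible refine Int.comp₃ ?_ ?_ ?_ ?_; assumption) | (with_reducible refine Int.comp₄ ?_ ?_ ?_ ?_ ?_; assumption) | (with_reducible refine IntF.comp ?_ ?_; assumption) | (with_reducible refine IntF.comp₂ ?_ ?_ ?_; assumption) | (with_reducible refine IntF.comp₃ ?_ ?_ ?_ ?_; assumption) | with_reducible apply IntF.pair))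
  have hf : ∀ z y, App hI.small.elt z y ↔ ∃ (S : IPow N α) (n : INat N), (C n = S ∧
      ∀ m, C m = S → n ≤ m) ∧ code S = z ∧ code n = y := by
    intro z y
    rw [appN, hI.small.mem]
    constructor
    · rintro ⟨⟨S, n⟩, h5, h7⟩
      obtain ⟨h8, h9⟩ := op_inj h7
      exact ⟨S, n, h5, h8, h9⟩
    · rintro ⟨S, n, h5, rfl, rfl⟩
      exact ⟨(S, n), h5, rfl⟩
  refine ⟨w, hI.small.elt, hw, ⟨fun q hq => ?_, fun z hz => ?_⟩, fun z z' y h5 h6 => ?_⟩
  · obtain ⟨⟨S, n⟩, ⟨h5, h6⟩, rfl⟩ := hI.small.mem.1 hq
    exact ⟨code S, code n, (hb _).2 ⟨n, by rw [h5]⟩, (hw _).2 (nat_iff.2 ⟨n, rfl⟩),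
      plainN_ordPair.2 rfl⟩
  · obtain ⟨n, rfl⟩ := (hb z).1 hz
    obtain ⟨m, hm, hmin⟩ := INat.exists_least (p := fun m => C m = C n) (by (repeat' (first | with_reducible exact IntF.id | with_reducible exact IntF.fst' | with_reducible exact IntF.snd' | with_reducible exact IntF.const _ | with_reducible exact Int.const _ | assumption | with_reducible apply Int.and | with_reducible apply Int.or | with_reducible apply Int.not | with_reducible apply Int.imp | with_reducible apply Int.iff | with_reducible apply Int.ne | with_reducible apply Int.eq | with_reducible apply Int.mem | with_reducible apply Int.subset | with_reducible apply Int.ltN | with_reducible apply Int.leN | with_reducible_and_instances apply Int.le | with_reducible_and_instances apply Int.lt | with_reducible apply Int.all | with_reducible apply Int.ex | with_reducible apply IntF.fst | with_reducible apply IntF.snd | with_reducible apply IntF.app | with_reducible apply IntF.inl | with_reducible apply IntF.inr | with_reducible_and_instances apply IntF.mul | with_reducible_and_instances apply IntF.inv | with_reducible_and_instances apply IntF.add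 | with_reducible_and_instances apply IntF.sub | with_reducible_and_instances apply IntF.neg | with_reducible_and_instances apply IntF.smul | with_reducible apply Int.fin | with_reducible apply IntF.sep | with_reducible apply IntF.lam | with_reducible apply IntF.insert | with_reducible apply IntF.singleton | with_reducible apply IntF.union | with_reducible apply IntF.iimage | with_reducible apply IntF.ite | with_reducible apply IntF.the | with_reducible apply IntF.irec | with_reducible apply IntF.succ | with_reducible apply IntF.val | with_reducible apply IntF.mk | (with_reducible refine Int.comp ?_ ?_; assumption) | (with_reducible refine Int.comp₂ ?_ ?_ ?_; assumption) | (with_reducible refine Int.comp₃ ?_ ?_ ?_ ?_; assumption) | (with_reducible refine Int.comp₄ ?_ ?_ ?_ ?_ ?_; assumption) | (with_reducible refine IntF.comp ?_ ?_; assumption) | (with_reducible refine IntF.comp₂ ?_ ?_ ?_; assumption) | (with_reducible refine IntF.comp₃ ?_ ?_ ?_ ?_; assumption) | with_reducible apply IntF.pair))) ⟨n, rfl⟩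
    refine ⟨code m, (hf _ _).2 ⟨C n, m, ⟨hm, hmin⟩, rfl, rfl⟩, fun y hy => ?_⟩
    obtain ⟨S, k, ⟨h7, h8⟩, h9, rfl⟩ := (hf _ _).1 hy
    obtain rfl : S = C n := ITy.inj h9
    rw [le_antisymm (hmin k h7) (h8 m hm)]
  · obtain ⟨S, n, ⟨h7, h8⟩, rfl, rfl⟩ := (hf _ _).1 h5
    obtain ⟨S', n', ⟨h7', h8'⟩, rfl, h9⟩ := (hf _ _).1 h6
    obtain rfl : n' = n := ITy.inj h9
    rw [← h7, ← h7']

/-! ### P-spaces -/

/-- The point is a `P`-point. -/
def PPt (O : IPow N α → Prop) (a : α) : Prop :=
  ∀ V : INat N → IPow N α, IntF N V → (∀ k, O (V k)) → (∀ k, a ∈ V k) →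
    ∃ U, O U ∧ a ∈ U ∧ ∀ c, c ∈ U → ∀ k, c ∈ V k

theorem isPPoint_tp {O : IPow N α → Prop} (h : TpO O) {a : α} (hp : PPt O a) :
    IsPPoint (tp O h.int) (code a) := by
  rintro c ⟨b, hb, ⟨v₀, hv₀⟩, hbt, hc⟩ hac
  obtain ⟨E, hE, hinj⟩ := exists_enum hb
  have hI : Int N (fun q : INat N × α => ∀ v : Helper672.Plain.El b, E v = q.1 → Helper672.Plain.Mem (code q.2) v.1) := by
    have h1 : Int N (fun q : α × Helper672.Plain.El b => Helper672.Plain.Mem (code q.1) q.2.1) :=
      Int.of_D₂ (S := fun v => Mem (v 0) (v 1)) (D.memf (DF.var _) (DF.var _)) fun _ _ => Iff.rfl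
    (repeat' (first | with_reducible apply memPE | with_reducible apply memPE' | with_reducible apply memPE'' | with_reducible apply memCode | with_reducible apply memCodeP | with_reducible apply memCode₂ | with_reducible apply eqPE | with_reducible apply eqPE' | with_reducible exact IntF.id | with_reducible exact IntF.fst' | with_reducible exact IntF.snd' | with_reducible exact IntF.const _ | with_reducible exact Int.const _ | assumption | with_reducible apply Int.and | with_reducible apply Int.or | with_reducible apply Int.not | with_reducible apply Int.imp | with_reducible apply Int.iff | with_reducible apply Int.ne | with_reducible apply Int.eq | with_reducible apply Int.mem | with_reducible apply Int.subset | with_reducible apply Int.ltN | with_reducible apply Int.leN | with_reducible_and_instances apply Int.le | with_reducible_and_instances apply Int.lt | with_reducible apply Int.all | with_reducible apply Int.ex | with_reducible apply IntF.fst | with_reducible apply IntF.snd | with_reducible apply IntF.app | with_reducible apply IntF.inl | with_reducible apply IntF.inr | with_reducible_and_instances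 apply IntF.mul | with_reducible_and_instances apply IntF.inv | with_reducible_and_instances apply IntF.add | with_reducible_and_instances apply IntF.sub | with_reducible_and_instances apply IntF.neg | with_reducible_and_instances apply IntF.smul | with_reducible apply Int.fin | with_reducible apply IntF.sep | with_reducible apply IntF.lam | with_reducible apply IntF.insert | with_reducible apply IntF.singleton | with_reducible apply IntF.union | with_reducible apply IntF.iimage | with_reducible apply IntF.ite | with_reducible apply IntF.the | with_reducible apply IntF.irec | with_reducible apply IntF.succ | with_reducible apply IntF.val | with_reducible apply IntF.mk | (with_reducible refine Int.comp ?_ ?_; assumption) | (with_reducible refine Int.comp₂ ?_ ?_ ?_; assumption) | (with_reducible refine Int.comp₃ ?_ ?_ ?_ ?_; assumption) | (with_reducible refine Int.comp₄ ?_ ?_ ?_ ?_ ?_; assumption) | (with_reducible refine IntF.comp ?_ ?_; assumption) | (with_reducible refine IntF.comp₂ ?_ ?_ ?_; assumption) | (with_reducible refine IntF.comp₃ ?_ ?_ ?_ ?_; assumption) | with_reducible apply IntF.pair))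
  let V : INat N → IPow N α := fun k => sep N fun a => ∀ v : Helper672.Plain.El b, E v = k → Helper672.Plain.Mem (code a) v.1
  have hV : ∀ k a, a ∈ V k ↔ ∀ v : Helper672.Plain.El b, E v = k → Helper672.Plain.Mem (code a) v.1 := by
    intro k a
    refine mem_sep ?_
    exact Int.comp (p := fun q : INat N × α => ∀ v : Helper672.Plain.El b, E v = q.1 → Helper672.Plain.Mem (code q.2) v.1) hI
      (IntF.pair (IntF.const k) IntF.id)
  have hVI : IntF N V := by
    refine IntF.sep ?_
    exact hI
  have hVo : ∀ k, O (V k) := by
    intro k
    by_cases hk : ∃ v : Helper672.Plain.El b, E v = k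
    · obtain ⟨v, rfl⟩ := hk
      obtain ⟨W, hW, h4⟩ := mem_tp.1 (hbt v.1 v.2)
      have h5 : V (E v) = W := by
        refine IPow.ext' fun a => ?_
        rw [hV]
        constructor
        · intro h6
          have h7 := h6 v rfl
          rw [← h4] at h7
          exact mem_cp'.1 h7
        · intro h6 v' hv'
          rw [hinj _ _ hv', ← h4]
          exact mem_cp'.2 h6
      rw [h5]
      exact hW
    · refine h.univ _ fun a => (hV _ _).2 fun v hv => absurd ⟨v, hv⟩ hk
  obtain ⟨U, h1, h2, h3⟩ := hp V hVI hVo fun k => (hV k a).2 fun v hv => (hc _).1 hac v.1 v.2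
  refine ⟨code U, mem_tp'.2 h1, mem_cp'.2 h2, fun z hz => ?_⟩
  obtain ⟨d, hd, rfl⟩ := mem_cp.1 hz
  refine (hc _).2 fun v hv => ?_
  exact (hV _ _).1 (h3 d hd (E (mkE v hv))) (mkE v hv) rfl

theorem isPSpace_tp {O : IPow N α → Prop} (h : TpO O) (hp : ∀ a, PPt O a) :
    IsPSpace (tp O h.int) (dom N α) := by
  intro p hpx
  obtain ⟨a, rfl⟩ := mem_domP.1 hpx
  exact isPPoint_tp h (hp a)

theorem ppt_of {O : IPow N α → Prop} (h : TpO O) {a : α} (hp : IsPPoint (tp O h.int) (code a)) :
    PPt O a := by
  intro V hV hVo haV
  have hI : Int N (fun U : IPow N α => ∃ k, V k = U) := by (repeat' (first | with_reducible exact IntF.id | with_reducible exact IntF.fst' | with_reducible exact IntF.snd' | with_reducible exact IntF.const _ | with_reducible exact Int.const _ | assumption | with_reducible apply Int.and | with_reducible apply Int.or | with_reducible apply Int.not | with_reducible apply Int.imp | with_reducible apply Int.iff | with_reducible apply Int.ne | with_reducible apply Int.eq | with_reducible apply Int.mem | with_reducible apply Int.subset | with_reducible apply Int.ltN | with_reducible apply Int.leN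 | with_reducible_and_instances apply Int.le | with_reducible_and_instances apply Int.lt | with_reducible apply Int.all | with_reducible apply Int.ex | with_reducible apply IntF.fst | with_reducible apply IntF.snd | with_reducible apply IntF.app | with_reducible apply IntF.inl | with_reducible apply IntF.inr | with_reducible_and_instances apply IntF.mul | with_reducible_and_instances apply IntF.inv | with_reducible_and_instances apply IntF.add | with_reducible_and_instances apply IntF.sub | with_reducible_and_instances apply IntF.neg | with_reducible_and_instances apply IntF.smul | with_reducible apply Int.fin | with_reducible apply IntF.sep | with_reducible apply IntF.lam | with_reducible apply IntF.insert | with_reducible apply IntF.singleton | with_reducible apply IntF.union | with_reducible apply IntF.iimage | with_reducible apply IntF.ite | with_reducible apply IntF.the | with_reducible apply IntF.irec | with_reducible apply IntF.succ | with_reducible apply IntF.val | with_reducible apply IntF.mk | (with_reducible refine Int.comp ?_ ?_; assumption) | (with_reducible refine Int.comp₂ ?_ ?_ ?_; assumption)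 | (with_reducible refine Int.comp₃ ?_ ?_ ?_ ?_; assumption) | (with_reducible refine Int.comp₄ ?_ ?_ ?_ ?_ ?_; assumption) | (with_reducible refine IntF.comp ?_ ?_; assumption) | (with_reducible refine IntF.comp₂ ?_ ?_ ?_; assumption) | (with_reducible refine IntF.comp₃ ?_ ?_ ?_ ?_; assumption) | with_reducible apply IntF.pair))
  have hI' : Int N (fun a : α => ∀ k, a ∈ V k) := by (repeat' (first | with_reducible exact IntF.id | with_reducible exact IntF.fst' | with_reducible exact IntF.snd' | with_reducible exact IntF.const _ | with_reducible exact Int.const _ | assumption | with_reducible apply Int.and | with_reducible apply Int.or | with_reducible apply Int.not | with_reducible apply Int.imp | with_reducible apply Int.iff | with_reducible apply Int.ne | with_reducible apply Int.eq | with_reducible apply Int.mem | with_reducible apply Int.subset | with_reducible apply Int.ltN | with_reducible apply Int.leN | with_reducible_and_instances apply Int.le | with_reducible_and_instances apply Int.lt | with_reducible apply Int.all | with_reducible apply Int.ex | with_reducible apply IntF.fst | with_reducible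 apply IntF.snd | with_reducible apply IntF.app | with_reducible apply IntF.inl | with_reducible apply IntF.inr | with_reducible_and_instances apply IntF.mul | with_reducible_and_instances apply IntF.inv | with_reducible_and_instances apply IntF.add | with_reducible_and_instances apply IntF.sub | with_reducible_and_instances apply IntF.neg | with_reducible_and_instances apply IntF.smul | with_reducible apply Int.fin | with_reducible apply IntF.sep | with_reducible apply IntF.lam | with_reducible apply IntF.insert | with_reducible apply IntF.singleton | with_reducible apply IntF.union | with_reducible apply IntF.iimage | with_reducible apply IntF.ite | with_reducible apply IntF.the | with_reducible apply IntF.irec | with_reducible apply IntF.succ | with_reducible apply IntF.val | with_reducible apply IntF.mk | (with_reducible refine Int.comp ?_ ?_; assumption) | (with_reducible refine Int.comp₂ ?_ ?_ ?_; assumption) | (with_reducible refine Int.comp₃ ?_ ?_ ?_ ?_; assumption) | (with_reducible refine Int.comp₄ ?_ ?_ ?_ ?_ ?_; assumption) | (with_reducible refine IntF.comp ?_ ?_; assumption) | (with_reducible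 refine IntF.comp₂ ?_ ?_ ?_; assumption) | (with_reducible refine IntF.comp₃ ?_ ?_ ?_ ?_; assumption) | with_reducible apply IntF.pair))
  have hG : IsGdelta (tp O h.int) (code (sep N fun a : α => ∀ k, a ∈ V k)) := by
    refine ⟨code (sep N fun U : IPow N α => ∃ k, V k = U), ?_, ⟨code (V 0), ?_⟩, fun v hv => ?_,
      fun z => ?_⟩
    · refine countable_rangeα hV fun z => ?_
      rw [mem_cp]
      constructor
      · rintro ⟨U, h4, rfl⟩
        obtain ⟨k, rfl⟩ := (mem_sep hI).1 h4
        exact ⟨k, rfl⟩
      · rintro ⟨k, rfl⟩
        exact ⟨V k, (mem_sep hI).2 ⟨k, rfl⟩, rfl⟩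
    · exact mem_cp.2 ⟨V 0, (mem_sep hI).2 ⟨0, rfl⟩, rfl⟩
    · obtain ⟨U, h4, rfl⟩ := mem_cp.1 hv
      obtain ⟨k, rfl⟩ := (mem_sep hI).1 h4
      exact mem_tp'.2 (hVo k)
    · constructor
      · intro hz v hv
        obtain ⟨U, h4, rfl⟩ := mem_cp.1 hv
        obtain ⟨k, rfl⟩ := (mem_sep hI).1 h4
        obtain ⟨c, hc, rfl⟩ := mem_cp.1 hz
        exact mem_cp'.2 ((mem_sep hI').1 hc k)
      · intro hz
        obtain ⟨c, -, rfl⟩ := mem_cp.1 (hz (code (V 0))
          (mem_cp.2 ⟨V 0, (mem_sep hI).2 ⟨0, rfl⟩, rfl⟩))
        refine mem_cp'.2 ((mem_sep hI').2 fun k => ?_)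
        exact mem_cp'.1 (hz (code (V k)) (mem_cp.2 ⟨V k, (mem_sep hI).2 ⟨k, rfl⟩, rfl⟩))
  obtain ⟨u, h1, h2, h3⟩ := hp _ hG (mem_cp'.2 ((mem_sep hI').2 haV))
  obtain ⟨U, hU, rfl⟩ := mem_tp.1 h1
  exact ⟨U, hU, mem_cp'.1 h2, fun c hc => (mem_sep hI').1 (mem_cp'.1 (h3 _ (mem_cp'.2 hc)))⟩

/-! ### Products -/

/-- The product topology. -/
def PrO (O : IPow N α → Prop) (O' : IPow N β → Prop) (U : IPow N (α × β)) : Prop :=
  ∀ p : α × β, p ∈ U → ∃ V V', O V ∧ O' V' ∧ p.1 ∈ V ∧ p.2 ∈ V' ∧
    ∀ c d, c ∈ V → d ∈ V' → (c, d) ∈ U

theorem tpO_prO {O : IPow N α → Prop} {O' : IPow N β → Prop} (h : TpO O) (h' : TpO O') :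
    TpO (PrO O O') := by
  have hI := h.int
  have hI' := h'.int
  have hN : Int N (fun q : (α × β) × IPow N (α × β) => ∃ V V', O V ∧ O' V' ∧ q.1.1 ∈ V ∧
    q.1.2 ∈ V' ∧ ∀ c d, c ∈ V → d ∈ V' → (c, d) ∈ q.2) := by (repeat' (first | with_reducible exact IntF.id | with_reducible exact IntF.fst' | with_reducible exact IntF.snd' | with_reducible exact IntF.const _ | with_reducible exact Int.const _ | assumption | with_reducible apply Int.and | with_reducible apply Int.or | with_reducible apply Int.not | with_reducible apply Int.imp | with_reducible apply Int.iff | with_reducible apply Int.ne | with_reducible apply Int.eq | with_reducible apply Int.mem | with_reducible apply Int.subset | with_reducible apply Int.ltN | with_reducible apply Int.leN | with_reducible_and_instances apply Int.le | with_reducible_and_instances apply Int.lt | with_reducible apply Int.all | with_reducible apply Int.ex | with_reducible apply IntF.fst | with_reducible apply IntF.snd | with_reducible apply IntF.app | with_reducible apply IntF.inl | with_reducible apply IntF.inr | with_reducible_and_instances apply IntF.mul | with_reducible_and_instances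 apply IntF.inv | with_reducible_and_instances apply IntF.add | with_reducible_and_instances apply IntF.sub | with_reducible_and_instances apply IntF.neg | with_reducible_and_instances apply IntF.smul | with_reducible apply Int.fin | with_reducible apply IntF.sep | with_reducible apply IntF.lam | with_reducible apply IntF.insert | with_reducible apply IntF.singleton | with_reducible apply IntF.union | with_reducible apply IntF.iimage | with_reducible apply IntF.ite | with_reducible apply IntF.the | with_reducible apply IntF.irec | with_reducible apply IntF.succ | with_reducible apply IntF.val | with_reducible apply IntF.mk | (with_reducible refine Int.comp ?_ ?_; assumption) | (with_reducible refine Int.comp₂ ?_ ?_ ?_; assumption) | (with_reducible refine Int.comp₃ ?_ ?_ ?_ ?_; assumption) | (with_reducible refine Int.comp₄ ?_ ?_ ?_ ?_ ?_; assumption) | (with_reducible refine IntF.comp ?_ ?_; assumption) | (with_reducible refine IntF.comp₂ ?_ ?_ ?_; assumption) | (with_reducible refine IntF.comp₃ ?_ ?_ ?_ ?_; assumption) | with_reducible apply IntF.pair))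
  refine tpO_of (Nb := fun p U => ∃ V V', O V ∧ O' V' ∧ p.1 ∈ V ∧ p.2 ∈ V' ∧
    ∀ c d, c ∈ V → d ∈ V' → (c, d) ∈ U) hN ?_ ?_ ?_
  · rintro a U V ⟨W, W', h1, h2, h3, h4, h5⟩ hUV
    exact ⟨W, W', h1, h2, h3, h4, fun c d hc hd => hUV _ (h5 c d hc hd)⟩
  · rintro a U V W ⟨A, A', h1, h2, h3, h4, h5⟩ ⟨B, B', g1, g2, g3, g4, g5⟩ hW
    have e1 : ∀ c, c ∈ sep N (fun c : α => c ∈ A ∧ c ∈ B) ↔ c ∈ A ∧ c ∈ B := fun c =>
      mem_sep (by (repeat' (first | with_reducible exact IntF.id | with_reducible exact IntF.fst' | with_reducible exact IntF.snd' | with_reducible exact IntF.const _ | with_reducible exact Int.const _ | assumption | with_reducible apply Int.and | with_reducible apply Int.or | with_reducible apply Int.not | with_reducible apply Int.imp | with_reducible apply Int.iff | with_reducible apply Int.ne | with_reducible apply Int.eq | with_reducible apply Int.mem | with_reducible apply Int.subset | with_reducible apply Int.ltN | with_reducible apply Int.leN | with_reducible_and_instances apply Int.le | with_reducible_and_instances apply Int.lt | with_reducible apply Int.all | with_reducible apply Int.ex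 | with_reducible apply IntF.fst | with_reducible apply IntF.snd | with_reducible apply IntF.app | with_reducible apply IntF.inl | with_reducible apply IntF.inr | with_reducible_and_instances apply IntF.mul | with_reducible_and_instances apply IntF.inv | with_reducible_and_instances apply IntF.add | with_reducible_and_instances apply IntF.sub | with_reducible_and_instances apply IntF.neg | with_reducible_and_instances apply IntF.smul | with_reducible apply Int.fin | with_reducible apply IntF.sep | with_reducible apply IntF.lam | with_reducible apply IntF.insert | with_reducible apply IntF.singleton | with_reducible apply IntF.union | with_reducible apply IntF.iimage | with_reducible apply IntF.ite | with_reducible apply IntF.the | with_reducible apply IntF.irec | with_reducible apply IntF.succ | with_reducible apply IntF.val | with_reducible apply IntF.mk | (with_reducible refine Int.comp ?_ ?_; assumption) | (with_reducible refine Int.comp₂ ?_ ?_ ?_; assumption) | (with_reducible refine Int.comp₃ ?_ ?_ ?_ ?_; assumption) | (with_reducible refine Int.comp₄ ?_ ?_ ?_ ?_ ?_; assumption) | (with_reducible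 refine IntF.comp ?_ ?_; assumption) | (with_reducible refine IntF.comp₂ ?_ ?_ ?_; assumption) | (with_reducible refine IntF.comp₃ ?_ ?_ ?_ ?_; assumption) | with_reducible apply IntF.pair)))
    have e2 : ∀ c, c ∈ sep N (fun c : β => c ∈ A' ∧ c ∈ B') ↔ c ∈ A' ∧ c ∈ B' := fun c =>
      mem_sep (by (repeat' (first | with_reducible exact IntF.id | with_reducible exact IntF.fst' | with_reducible exact IntF.snd' | with_reducible exact IntF.const _ | with_reducible exact Int.const _ | assumption | with_reducible apply Int.and | with_reducible apply Int.or | with_reducible apply Int.not | with_reducible apply Int.imp | with_reducible apply Int.iff | with_reducible apply Int.ne | with_reducible apply Int.eq | with_reducible apply Int.mem | with_reducible apply Int.subset | with_reducible apply Int.ltN | with_reducible apply Int.leN | with_reducible_and_instances apply Int.le | with_reducible_and_instances apply Int.lt | with_reducible apply Int.all | with_reducible apply Int.ex | with_reducible apply IntF.fst | with_reducible apply IntF.snd | with_reducible apply IntF.app | with_reducible apply IntF.inl | with_reducible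 apply IntF.inr | with_reducible_and_instances apply IntF.mul | with_reducible_and_instances apply IntF.inv | with_reducible_and_instances apply IntF.add | with_reducible_and_instances apply IntF.sub | with_reducible_and_instances apply IntF.neg | with_reducible_and_instances apply IntF.smul | with_reducible apply Int.fin | with_reducible apply IntF.sep | with_reducible apply IntF.lam | with_reducible apply IntF.insert | with_reducible apply IntF.singleton | with_reducible apply IntF.union | with_reducible apply IntF.iimage | with_reducible apply IntF.ite | with_reducible apply IntF.the | with_reducible apply IntF.irec | with_reducible apply IntF.succ | with_reducible apply IntF.val | with_reducible apply IntF.mk | (with_reducible refine Int.comp ?_ ?_; assumption) | (with_reducible refine Int.comp₂ ?_ ?_ ?_; assumption) | (with_reducible refine Int.comp₃ ?_ ?_ ?_ ?_; assumption) | (with_reducible refine Int.comp₄ ?_ ?_ ?_ ?_ ?_; assumption) | (with_reducible refine IntF.comp ?_ ?_; assumption) | (with_reducible refine IntF.comp₂ ?_ ?_ ?_; assumption) | (with_reducible refine IntF.comp₃ ?_ ?_ ?_ ?_; assumption)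 | with_reducible apply IntF.pair)))
    exact ⟨_, _, h.inter A B _ h1 g1 e1, h'.inter A' B' _ h2 g2 e2, (e1 _).2 ⟨h3, g3⟩,
      (e2 _).2 ⟨h4, g4⟩, fun c d hc hd => (hW _).2 ⟨h5 c d ((e1 c).1 hc).1 ((e2 d).1 hd).1,
        g5 c d ((e1 c).1 hc).2 ((e2 d).1 hd).2⟩⟩
  · intro a U hU
    have e1 : ∀ c : α, c ∈ sep N (fun c : α => c = c) := fun c => (mem_sep (by (repeat' (first | with_reducible exact IntF.id | with_reducible exact IntF.fst' | with_reducible exact IntF.snd' | with_reducible exact IntF.const _ | with_reducible exact Int.const _ | assumption | with_reducible apply Int.and | with_reducible apply Int.or | with_reducible apply Int.not | with_reducible apply Int.imp | with_reducible apply Int.iff | with_reducible apply Int.ne | with_reducible apply Int.eq | with_reducible apply Int.mem | with_reducible apply Int.subset | with_reducible apply Int.ltN | with_reducible apply Int.leN | with_reducible_and_instances apply Int.le | with_reducible_and_instances apply Int.lt | with_reducible apply Int.all | with_reducible apply Int.ex | with_reducible apply IntF.fst | with_reducible apply IntF.snd | with_reducible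 apply IntF.app | with_reducible apply IntF.inl | with_reducible apply IntF.inr | with_reducible_and_instances apply IntF.mul | with_reducible_and_instances apply IntF.inv | with_reducible_and_instances apply IntF.add | with_reducible_and_instances apply IntF.sub | with_reducible_and_instances apply IntF.neg | with_reducible_and_instances apply IntF.smul | with_reducible apply Int.fin | with_reducible apply IntF.sep | with_reducible apply IntF.lam | with_reducible apply IntF.insert | with_reducible apply IntF.singleton | with_reducible apply IntF.union | with_reducible apply IntF.iimage | with_reducible apply IntF.ite | with_reducible apply IntF.the | with_reducible apply IntF.irec | with_reducible apply IntF.succ | with_reducible apply IntF.val | with_reducible apply IntF.mk | (with_reducible refine Int.comp ?_ ?_; assumption) | (with_reducible refine Int.comp₂ ?_ ?_ ?_; assumption) | (with_reducible refine Int.comp₃ ?_ ?_ ?_ ?_; assumption) | (with_reducible refine Int.comp₄ ?_ ?_ ?_ ?_ ?_; assumption) | (with_reducible refine IntF.comp ?_ ?_; assumption) | (with_reducible refine IntF.comp₂ ?_ ?_ ?_;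 assumption) | (with_reducible refine IntF.comp₃ ?_ ?_ ?_ ?_; assumption) | with_reducible apply IntF.pair)))).2 rfl
    have e2 : ∀ c : β, c ∈ sep N (fun c : β => c = c) := fun c => (mem_sep (by (repeat' (first | with_reducible exact IntF.id | with_reducible exact IntF.fst' | with_reducible exact IntF.snd' | with_reducible exact IntF.const _ | with_reducible exact Int.const _ | assumption | with_reducible apply Int.and | with_reducible apply Int.or | with_reducible apply Int.not | with_reducible apply Int.imp | with_reducible apply Int.iff | with_reducible apply Int.ne | with_reducible apply Int.eq | with_reducible apply Int.mem | with_reducible apply Int.subset | with_reducible apply Int.ltN | with_reducible apply Int.leN | with_reducible_and_instances apply Int.le | with_reducible_and_instances apply Int.lt | with_reducible apply Int.all | with_reducible apply Int.ex | with_reducible apply IntF.fst | with_reducible apply IntF.snd | with_reducible apply IntF.app | with_reducible apply IntF.inl | with_reducible apply IntF.inr | with_reducible_and_instances apply IntF.mul | with_reducible_and_instances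 apply IntF.inv | with_reducible_and_instances apply IntF.add | with_reducible_and_instances apply IntF.sub | with_reducible_and_instances apply IntF.neg | with_reducible_and_instances apply IntF.smul | with_reducible apply Int.fin | with_reducible apply IntF.sep | with_reducible apply IntF.lam | with_reducible apply IntF.insert | with_reducible apply IntF.singleton | with_reducible apply IntF.union | with_reducible apply IntF.iimage | with_reducible apply IntF.ite | with_reducible apply IntF.the | with_reducible apply IntF.irec | with_reducible apply IntF.succ | with_reducible apply IntF.val | with_reducible apply IntF.mk | (with_reducible refine Int.comp ?_ ?_; assumption) | (with_reducible refine Int.comp₂ ?_ ?_ ?_; assumption) | (with_reducible refine Int.comp₃ ?_ ?_ ?_ ?_; assumption) | (with_reducible refine Int.comp₄ ?_ ?_ ?_ ?_ ?_; assumption) | (with_reducible refine IntF.comp ?_ ?_; assumption) | (with_reducible refine IntF.comp₂ ?_ ?_ ?_; assumption) | (with_reducible refine IntF.comp₃ ?_ ?_ ?_ ?_; assumption) | with_reducible apply IntF.pair)))).2 rfl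
    exact ⟨_, _, h.univ _ e1, h'.univ _ e2, e1 _, e2 _, fun c d _ _ => hU _⟩

theorem isProd_dom : IsProd (dom N (α × β)) (dom N α) (dom N β) := by
  intro q
  rw [show Helper672.Plain.Mem q (dom N (α × β)) ↔ _ from mem_domP]
  constructor
  · rintro ⟨⟨a, b⟩, rfl⟩
    exact ⟨code a, code b, mem_domP.2 ⟨a, rfl⟩, mem_domP.2 ⟨b, rfl⟩, plainN_ordPair.2 rfl⟩
  · rintro ⟨_, _, h1, h2, h3⟩
    obtain ⟨a, rfl⟩ := mem_domP.1 h1
    obtain ⟨b, rfl⟩ := mem_domP.1 h2
    exact ⟨(a, b), (plainN_ordPair.1 h3).symm⟩

theorem isProdTopology_tp {O : IPow N α → Prop} {O' : IPow N β → Prop} (h : TpO O) (h' : TpO O') :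
    IsProdTopology (tp _ (tpO_prO h h').int) (dom N (α × β)) (tp O h.int) (tp O' h'.int) := by
  intro u
  rw [show Helper672.Plain.Mem u (tp _ (tpO_prO h h').int) ↔ _ from mem_tp]
  constructor
  · rintro ⟨U, hU, rfl⟩
    refine ⟨fun p hp => ?_, fun p a b hp hab => ?_⟩
    · obtain ⟨q, -, rfl⟩ := mem_cp.1 hp
      exact mem_domP.2 ⟨q, rfl⟩
    · obtain ⟨⟨a', b'⟩, hq, rfl⟩ := mem_cp.1 hp
      obtain ⟨h1, h2⟩ := op_inj (plainN_ordPair.1 hab)
      obtain ⟨V, V', g1, g2, g3, g4, g5⟩ := hU _ hq
      refine ⟨code V, code V', mem_tp'.2 g1, mem_tp'.2 g2, h1 ▸ mem_cp'.2 g3, h2 ▸ mem_cp'.2 g4,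
        fun q c d hc hd hq => ?_⟩
      obtain ⟨c, hc', rfl⟩ := mem_cp.1 hc
      obtain ⟨d, hd', rfl⟩ := mem_cp.1 hd
      rw [plainN_ordPair.1 hq]
      exact mem_cp'.2 (g5 c d hc' hd')
  · rintro ⟨h1, h2⟩
    obtain ⟨U, rfl, -⟩ := exists_codeα (N := N) (α := α × β) (u := u) h1
    refine ⟨U, fun p hp => ?_, rfl⟩
    obtain ⟨v, v', g1, g2, g3, g4, g5⟩ := h2 (code p) (code p.1) (code p.2) (mem_cp'.2 hp)
      (plainN_ordPair.2 rfl)
    obtain ⟨V, hV, rfl⟩ := mem_tp.1 g1
    obtain ⟨V', hV', rfl⟩ := mem_tp.1 g2
    exact ⟨V, V', hV, hV', mem_cp'.1 g3, mem_cp'.1 g4, fun c d hc hd =>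
      mem_cp'.1 (g5 (code (c, d)) (code c) (code d) (mem_cp'.2 hc) (mem_cp'.2 hd)
        (plainN_ordPair.2 rfl))⟩

end

end Pool.Agent.Q301.BM
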