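import Pool.Agent.Q301.TM.Emb
import Pool.Agent.Q301.BM.Sp
import Pool.Agent.Q301.BM.HDefs

/-!
# Powers of the real line
-/

set_option maxHeartbeats 1000000
set_option linter.all false
set_option synthInstance.maxSize 2000

namespace Pool.Agent.Q301.BM

open FirstOrder FirstOrder.Language
open Pool.Agent.Helper672.ZFA
open Pool.Agent.Helper672.Plain (LSet)
open Pool.Agent.Helper672.ZFA.H635 (toL plainN_ordPair plainN_graph plainN_opGraph)
open Pool.Agent.H635Amen (IsReals)
open Pool.Agent.H310Cards (IsOmega IsFinite IsFun App IsInj IsNat IsProd)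
open Pool.Agent.H310Top (IsTopology IsClosed IsCompact)
open Pool.Agent.H310 (FinP finP_iff finP_le finP_lt exists_BN mem_nat nat_iff appN finite_of_finP
  mem_cp extN exists_code instPEl exists_q pr int_pr pr_inj)
open Pool.Agent.Q301.TM

universe u u₁

attribute [local instance] toL instPEl

section

variable {N : Type u} [LSet.Structure N] [hM : IsModel N]

/-! ### Coding -/

section enc

variable {κ : Type u} [ITy N κ]

/-- The element of the type as an element of the set. -/
noncomputable def enc (b : κ) : Helper672.Plain.El (dom N κ) := mkE (code b) (code_mem_dom (M := N) b)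

theorem enc_inj {b c : κ} (h : enc (N := N) b = enc c) : b = c := ITy.inj (M := N) (congrArg Subtype.val h)

theorem exists_dec (p : Helper672.Plain.El (dom N κ)) : ∃ b : κ, enc b = p := by
  obtain ⟨b, hb⟩ := mem_domP.1 p.2
  exact ⟨b, Subtype.ext hb⟩

/-- The inverse. -/
noncomputable def dec (p : Helper672.Plain.El (dom N κ)) : κ := (exists_dec p).choose

@[simp] theorem enc_dec (p : Helper672.Plain.El (dom N κ)) : enc (dec p : κ) = p := (exists_dec p).choose_spec

@[simp] theorem dec_enc (b : κ) : dec (enc (N := N) b) = b := enc_inj (enc_dec _)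

theorem int_enc : IntF N (fun b : κ => enc (N := N) b) := by
  refine IntF.of_D (S := fun v => v 0 = v 1) (D.eqf (DF.var _) (DF.var _)) fun b c => ?_
  change code b = c.1 ↔ enc b = c
  exact ⟨fun h => Subtype.ext h, fun h => h ▸ rfl⟩

theorem int_dec : IntF N (fun p : Helper672.Plain.El (dom N κ) => (dec p : κ)) := by
  refine IntF.of_D (S := fun v => v 0 = v 1) (D.eqf (DF.var _) (DF.var _)) fun p b => ?_
  change p.1 = code b ↔ dec p = b
  constructor
  · intro h
    refine enc_inj (N := N) ?_
    rw [enc_dec]
    exact Subtype.ext h
  · rintro rfl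
    exact (congrArg Subtype.val (enc_dec (κ := κ) p)).symm

end enc

section graph

variable {a b : N}

theorem isGraph_code (f : IFun N (Helper672.Plain.El a) (Helper672.Plain.El b)) : IsGraph (code f) (fun p => f p) := by
  intro z
  rw [show Helper672.Plain.Mem z (code f) ↔ _ from mem_cp (s := f.graph)]
  constructor
  · rintro ⟨⟨p, q⟩, h, rfl⟩
    obtain rfl := IFun.mem_graph.1 h
    exact ⟨p, plainN_ordPair.2 rfl⟩
  · rintro ⟨p, h⟩
    exact ⟨(p, f p), IFun.mem_graph.2 rfl, (plainN_ordPair.1 h).symm⟩

theorem IsGraph.unique {g g' : N} {f : Helper672.Plain.El a → Helper672.Plain.El b} (h : IsGraph g f) (h' : IsGraph g' f) :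
    g = g' := extN fun z => (h z).trans (h' z).symm

theorem IsGraph.unique' {g : N} {f f' : Helper672.Plain.El a → Helper672.Plain.El b} (h : IsGraph g f) (h' : IsGraph g f')
    (p : Helper672.Plain.El a) : f p = f' p := by
  obtain ⟨q, hq⟩ := (h' (op p.1 (f p).1)).1 ((h _).2 ⟨p, plainN_ordPair.2 rfl⟩)
  obtain ⟨h1, h2⟩ := op_inj (plainN_ordPair.1 hq)
  obtain rfl : p = q := Subtype.ext h1
  exact Subtype.ext h2

theorem IsGraph.isMap {g : N} {f : Helper672.Plain.El a → Helper672.Plain.El b} (h : IsGraph g f) : IsMap f := by
  refine ⟨g, fun p q => ?_⟩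
  constructor
  · rintro rfl
    exact ⟨op p.1 (f p).1, plainN_ordPair.2 rfl, (h _).2 ⟨p, plainN_ordPair.2 rfl⟩⟩
  · rintro ⟨z, h1, h2⟩
    obtain ⟨p', h3⟩ := (h _).1 h2
    obtain ⟨h4, h5⟩ := op_inj ((plainN_ordPair.1 h1).symm.trans (plainN_ordPair.1 h3))
    obtain rfl : p = p' := Subtype.ext h4
    exact Subtype.ext h5.symm

/-- Functions are given by their graphs. -/
theorem isGraph_iff {g : N} {f : Helper672.Plain.El a → Helper672.Plain.El b} :
    IsGraph g f ↔ ∃ h : IntF N f, code (⟨f, h⟩ : IFun N (Helper672.Plain.El a) (Helper672.Plain.El b)) = g :=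
  ⟨fun h => ⟨isMap_iff.1 h.isMap, (isGraph_code ⟨f, isMap_iff.1 h.isMap⟩).unique h⟩,
    fun ⟨h, h1⟩ => h1 ▸ isGraph_code ⟨f, h⟩⟩

end graph

variable {r tE : N} [Field (Helper672.Plain.El r)] [LinearOrder (Helper672.Plain.El r)] [IsStrictOrderedRing (Helper672.Plain.El r)]

omit hM in
/-- The distance. -/
def ds (a b : Helper672.Plain.El r) : Helper672.Plain.El r := |a - b|

variable (hr : IsReals r)
include hr

theorem int_ds : IntF N (fun q : Helper672.Plain.El r × Helper672.Plain.El r => ds q.1 q.2) := int_dist hr

/-- The usual topology exists. -/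
theorem exists_usual : ∃ tE : N, IsUsualTop tE r := by
  have hlt := int_lt hr
  have hd := int_ds hr
  have hI : Int N (fun U : IPow N (Helper672.Plain.El r) => ∀ p, p ∈ U → ∃ ε : Helper672.Plain.El r, 0 < ε ∧
      ∀ q, ds q p < ε → q ∈ U) := by (repeat' (first | with_reducible exact IntF.id | with_reducible exact IntF.fst' | with_reducible exact IntF.snd' | with_reducible exact IntF.const _ | with_reducible exact Int.const _ | assumption | with_reducible apply Int.and | with_reducible apply Int.or | with_reducible apply Int.not | with_reducible apply Int.imp | with_reducible apply Int.iff | with_reducible apply Int.ne | with_reducible apply Int.eq | with_reducible apply Int.mem | with_reducible apply Int.subset | with_reducible apply Int.ltN | with_reducible apply Int.leN | with_reducible_and_instances apply Int.le | with_reducible_and_instances apply Int.lt | with_reducible apply Int.all | with_reducible apply Int.ex | with_reducible apply IntF.fst | with_reducible apply IntF.snd | with_reducible apply IntF.app | with_reducible apply IntF.inl | with_reducible apply IntF.inr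 | with_reducible_and_instances apply IntF.mul | with_reducible_and_instances apply IntF.inv | with_reducible_and_instances apply IntF.add | with_reducible_and_instances apply IntF.sub | with_reducible_and_instances apply IntF.neg | with_reducible_and_instances apply IntF.smul | with_reducible apply Int.fin | with_reducible apply IntF.sep | with_reducible apply IntF.lam | with_reducible apply IntF.insert | with_reducible apply IntF.singleton | with_reducible apply IntF.union | with_reducible apply IntF.iimage | with_reducible apply IntF.ite | with_reducible apply IntF.the | with_reducible apply IntF.irec | with_reducible apply IntF.succ | with_reducible apply IntF.val | with_reducible apply IntF.mk | (with_reducible refine Int.comp ?_ ?_; assumption) | (with_reducible refine Int.comp₂ ?_ ?_ ?_; assumption) | (with_reducible refine Int.comp₃ ?_ ?_ ?_ ?_; assumption) | (with_reducible refine Int.comp₄ ?_ ?_ ?_ ?_ ?_; assumption) | (with_reducible refine IntF.comp ?_ ?_; assumption) | (with_reducible refine IntF.comp₂ ?_ ?_ ?_; assumption) | (with_reducible refine IntF.comp₃ ?_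 ?_ ?_ ?_; assumption) | with_reducible apply IntF.pair))
  refine ⟨code (sep N fun U : IPow N (Helper672.Plain.El r) => ∀ p, p ∈ U → ∃ ε : Helper672.Plain.El r, 0 < ε ∧
      ∀ q, ds q p < ε → q ∈ U), fun u => ?_⟩
  rw [show Helper672.Plain.Mem u (code (sep N fun U : IPow N (Helper672.Plain.El r) => ∀ p, p ∈ U →
    ∃ ε : Helper672.Plain.El r, 0 < ε ∧ ∀ q, ds q p < ε → q ∈ U)) ↔ _ from mem_cp]
  constructor
  · rintro ⟨U, hU, rfl⟩
    refine ⟨fun z hz => (mem_cpE.1 hz).1, fun p hp => ?_⟩
    obtain ⟨ε, hε, h1⟩ := (mem_sep hI).1 hU p (mem_cpE'.1 hp)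
    exact ⟨ε, hε, fun q hq => mem_cpE'.2 (h1 q hq)⟩
  · rintro ⟨h1, h2⟩
    obtain ⟨U, rfl, hU⟩ := exists_code (a := r) h1
    refine ⟨U, (mem_sep hI).2 fun p hp => ?_, rfl⟩
    obtain ⟨ε, hε, h3⟩ := h2 p ((hU p).1 hp)
    exact ⟨ε, hε, fun q hq => (hU q).2 (h3 q hq)⟩

/-- Balls. -/
theorem exists_ball (hE : IsUsualTop tE r) {ε : Helper672.Plain.El r} (hε : 0 < ε) : ∃ B : Helper672.Plain.El r → Helper672.Plain.El tE,
    IntF N B ∧ ∀ a q : Helper672.Plain.El r, Helper672.Plain.Mem q.1 (B a).1 ↔ |q - a| < ε := by
  have hlt := int_lt hr
  have hd := int_ds hr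
  have hI : ∀ a : Helper672.Plain.El r, Int N (fun q : Helper672.Plain.El r => ds q a < ε) := fun a => by (repeat' (first | with_reducible exact IntF.id | with_reducible exact IntF.fst' | with_reducible exact IntF.snd' | with_reducible exact IntF.const _ | with_reducible exact Int.const _ | assumption | with_reducible apply Int.and | with_reducible apply Int.or | with_reducible apply Int.not | with_reducible apply Int.imp | with_reducible apply Int.iff | with_reducible apply Int.ne | with_reducible apply Int.eq | with_reducible apply Int.mem | with_reducible apply Int.subset | with_reducible apply Int.ltN | with_reducible apply Int.leN | with_reducible_and_instances apply Int.le | with_reducible_and_instances apply Int.lt | with_reducible apply Int.all | with_reducible apply Int.ex | with_reducible apply IntF.fst | with_reducible apply IntF.snd | with_reducible apply IntF.app | with_reducible apply IntF.inl | with_reducible apply IntF.inr | with_reducible_and_instances apply IntF.mul | with_reducible_and_instances apply IntF.inv | with_reducible_and_instances apply IntF.add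 | with_reducible_and_instances apply IntF.sub | with_reducible_and_instances apply IntF.neg | with_reducible_and_instances apply IntF.smul | with_reducible apply Int.fin | with_reducible apply IntF.sep | with_reducible apply IntF.lam | with_reducible apply IntF.insert | with_reducible apply IntF.singleton | with_reducible apply IntF.union | with_reducible apply IntF.iimage | with_reducible apply IntF.ite | with_reducible apply IntF.the | with_reducible apply IntF.irec | with_reducible apply IntF.succ | with_reducible apply IntF.val | with_reducible apply IntF.mk | (with_reducible refine Int.comp ?_ ?_; assumption) | (with_reducible refine Int.comp₂ ?_ ?_ ?_; assumption) | (with_reducible refine Int.comp₃ ?_ ?_ ?_ ?_; assumption) | (with_reducible refine Int.comp₄ ?_ ?_ ?_ ?_ ?_; assumption) | (with_reducible refine IntF.comp ?_ ?_; assumption) | (with_reducible refine IntF.comp₂ ?_ ?_ ?_; assumption) | (with_reducible refine IntF.comp₃ ?_ ?_ ?_ ?_; assumption) | with_reducible apply IntF.pair))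
  have hm : ∀ a q : Helper672.Plain.El r, Helper672.Plain.Mem q.1 (code (sep N fun q : Helper672.Plain.El r => ds q a < ε)) ↔ |q - a| < ε :=
    fun a q => mem_cpE'.trans (mem_sep (hI a))
  have hB : ∀ a : Helper672.Plain.El r, Helper672.Plain.Mem (code (sep N fun q : Helper672.Plain.El r => ds q a < ε)) tE := fun a => by
    refine (hE _).2 ⟨fun z hz => (mem_cpE.1 hz).1, fun p hp => ?_⟩
    have h1 := (hm a p).1 hp
    refine ⟨ε - |p - a|, sub_pos.2 h1, fun q hq => (hm a q).2 ?_⟩
    have h2 := abs_add_le (q - p) (p - a)
    rw [sub_add_sub_cancel] at h2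
    linarith
  have hF : IntF N (fun a : Helper672.Plain.El r => sep N fun q : Helper672.Plain.El r => ds q a < ε) := by
    refine IntF.sep ?_
    (repeat' (first | with_reducible exact IntF.id | with_reducible exact IntF.fst' | with_reducible exact IntF.snd' | with_reducible exact IntF.const _ | with_reducible exact Int.const _ | assumption | with_reducible apply Int.and | with_reducible apply Int.or | with_reducible apply Int.not | with_reducible apply Int.imp | with_reducible apply Int.iff | with_reducible apply Int.ne | with_reducible apply Int.eq | with_reducible apply Int.mem | with_reducible apply Int.subset | with_reducible apply Int.ltN | with_reducible apply Int.leN | with_reducible_and_instances apply Int.le | with_reducible_and_instances apply Int.lt | with_reducible apply Int.all | with_reducible apply Int.ex | with_reducible apply IntF.fst | with_reducible apply IntF.snd | with_reducible apply IntF.app | with_reducible apply IntF.inl | with_reducible apply IntF.inr | with_reducible_and_instances apply IntF.mul | with_reducible_and_instances apply IntF.inv | with_reducible_and_instances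 apply IntF.add | with_reducible_and_instances apply IntF.sub | with_reducible_and_instances apply IntF.neg | with_reducible_and_instances apply IntF.smul | with_reducible apply Int.fin | with_reducible apply IntF.sep | with_reducible apply IntF.lam | with_reducible apply IntF.insert | with_reducible apply IntF.singleton | with_reducible apply IntF.union | with_reducible apply IntF.iimage | with_reducible apply IntF.ite | with_reducible apply IntF.the | with_reducible apply IntF.irec | with_reducible apply IntF.succ | with_reducible apply IntF.val | with_reducible apply IntF.mk | (with_reducible refine Int.comp ?_ ?_; assumption) | (with_reducible refine Int.comp₂ ?_ ?_ ?_; assumption) | (with_reducible refine Int.comp₃ ?_ ?_ ?_ ?_; assumption) | (with_reducible refine Int.comp₄ ?_ ?_ ?_ ?_ ?_; assumption) | (with_reducible refine IntF.comp ?_ ?_; assumption) | (with_reducible refine IntF.comp₂ ?_ ?_ ?_; assumption) | (with_reducible refine IntF.comp₃ ?_ ?_ ?_ ?_; assumption) | with_reducible apply IntF.pair))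
  refine ⟨fun a => mkE _ (hB a), ?_, hm⟩
  refine IntF.of_rel (r := fun (a : Helper672.Plain.El r) (v : Helper672.Plain.El tE) => code (sep N fun q : Helper672.Plain.El r => ds q a < ε) =
    v.1) ?_ fun a v => ⟨fun h => Subtype.ext h, fun h => h ▸ rfl⟩
  exact eqCode (f := fun c : Helper672.Plain.El r × Helper672.Plain.El tE => sep N fun q : Helper672.Plain.El r => ds q c.1 < ε)
    (IntF.comp (g := fun a : Helper672.Plain.El r => sep N fun q : Helper672.Plain.El r => ds q a < ε) hF IntF.fst') IntF.snd'

variable {j : N}

/-- Basic neighbourhoods contain uniform neighbourhoods. -/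
theorem basicA (hE : IsUsualTop tE r) {F : N} {O : Helper672.Plain.El j → Helper672.Plain.El tE} {Y : Helper672.Plain.El j → Helper672.Plain.El r}
    (hF : IsFinite F) (hO : IsMap O) (hY : IntF N Y) (h : ∀ i, Helper672.Plain.Mem i.1 F → Helper672.Plain.Mem (Y i).1 (O i).1) :
    ∃ (F' : IPow N (Helper672.Plain.El j)) (ε : Helper672.Plain.El r), IFin F' ∧ 0 < ε ∧ ∀ Z : Helper672.Plain.El j → Helper672.Plain.El r,
      (∀ i, i ∈ F' → |Z i - Y i| < ε) → ∀ i, Helper672.Plain.Mem i.1 F → Helper672.Plain.Mem (Z i).1 (O i).1 := by
  obtain ⟨q, hq, hpos, hanti, hlim⟩ := exists_q hr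
  have hlt := int_lt hr
  have hd := int_ds hr
  have hO' := isMap_iff.1 hO
  have hle : ∀ m n, m ≤ n → q n ≤ q m := by
    intro m n hmn
    rcases hmn.lt_or_eq with h1 | rfl
    · exact (hanti _ _ h1).le
    · exact le_rfl
  have hF' := ifin_of_finite hF j
  have hmem : ∀ i : Helper672.Plain.El j, i ∈ sep N (fun i : Helper672.Plain.El j => Helper672.Plain.Mem i.1 F) ↔ Helper672.Plain.Mem i.1 F := fun i =>
    mem_sep (memI' _ _)
  have hr' : Int N (fun c : Helper672.Plain.El j × INat N => ∀ z : Helper672.Plain.El r, ds z (Y c.1) < q c.2 →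
      Helper672.Plain.Mem z.1 (O c.1).1) := by (repeat' (first | with_reducible apply memPE | with_reducible apply memPE' | with_reducible apply memPE'' | with_reducible apply memCode | with_reducible apply memCodeP | with_reducible apply memCode₂ | with_reducible apply eqPE | with_reducible apply eqPE' | with_reducible exact IntF.id | with_reducible exact IntF.fst' | with_reducible exact IntF.snd' | with_reducible exact IntF.const _ | with_reducible exact Int.const _ | assumption | with_reducible apply Int.and | with_reducible apply Int.or | with_reducible apply Int.not | with_reducible apply Int.imp | with_reducible apply Int.iff | with_reducible apply Int.ne | with_reducible apply Int.eq | with_reducible apply Int.mem | with_reducible apply Int.subset | with_reducible apply Int.ltN | with_reducible apply Int.leN | with_reducible_and_instances apply Int.le | with_reducible_and_instances apply Int.lt | with_reducible apply Int.all | with_reducible apply Int.ex | with_reducible apply IntF.fst | with_reducible apply IntF.snd | with_reducible apply IntF.app | with_reducible apply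 IntF.inl | with_reducible apply IntF.inr | with_reducible_and_instances apply IntF.mul | with_reducible_and_instances apply IntF.inv | with_reducible_and_instances apply IntF.add | with_reducible_and_instances apply IntF.sub | with_reducible_and_instances apply IntF.neg | with_reducible_and_instances apply IntF.smul | with_reducible apply Int.fin | with_reducible apply IntF.sep | with_reducible apply IntF.lam | with_reducible apply IntF.insert | with_reducible apply IntF.singleton | with_reducible apply IntF.union | with_reducible apply IntF.iimage | with_reducible apply IntF.ite | with_reducible apply IntF.the | with_reducible apply IntF.irec | with_reducible apply IntF.succ | with_reducible apply IntF.val | with_reducible apply IntF.mk | (with_reducible refine Int.comp ?_ ?_; assumption) | (with_reducible refine Int.comp₂ ?_ ?_ ?_; assumption) | (with_reducible refine Int.comp₃ ?_ ?_ ?_ ?_; assumption) | (with_reducible refine Int.comp₄ ?_ ?_ ?_ ?_ ?_; assumption) | (with_reducible refine IntF.comp ?_ ?_; assumption) | (with_reducible refine IntF.comp₂ ?_ ?_ ?_; assumption)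 | (with_reducible refine IntF.comp₃ ?_ ?_ ?_ ?_; assumption) | with_reducible apply IntF.pair))
  obtain ⟨n, hn⟩ := IFin.exists_bound (r := fun (i : Helper672.Plain.El j) (n : INat N) =>
    ∀ z : Helper672.Plain.El r, |z - Y i| < q n → Helper672.Plain.Mem z.1 (O i).1) hr' (fun b c => ⟨max b c, fun a ha z hz =>
      ha.elim (fun h => h z (hz.trans_le (hle _ _ (le_max_left _ _))))
        fun h => h z (hz.trans_le (hle _ _ (le_max_right _ _)))⟩) ⟨0⟩ hF' fun i hi => by
      obtain ⟨-, h1⟩ := (hE _).1 (O i).2
      obtain ⟨ε, hε, h2⟩ := h1 (Y i) (h i ((hmem i).1 hi))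
      obtain ⟨n, hn⟩ := hlim ε hε
      exact ⟨n, fun z hz => h2 z (hz.trans hn)⟩
  exact ⟨_, q n, hF', hpos n, fun Z hZ i hi => hn i ((hmem i).2 hi) _ (hZ i ((hmem i).2 hi))⟩

/-- Uniform neighbourhoods contain basic neighbourhoods. -/
theorem basicB (hE : IsUsualTop tE r) {F : IPow N (Helper672.Plain.El j)} {ε : Helper672.Plain.El r} {Y : Helper672.Plain.El j → Helper672.Plain.El r}
    (hF : IFin F) (hε : 0 < ε) (hY : IntF N Y) :
    ∃ (F' : N) (O : Helper672.Plain.El j → Helper672.Plain.El tE), IsFinite F' ∧ IsMap O ∧ (∀ i, Helper672.Plain.Mem i.1 F' → Helper672.Plain.Mem (Y i).1 (O i).1) ∧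
      ∀ Z : Helper672.Plain.El j → Helper672.Plain.El r, (∀ i, Helper672.Plain.Mem i.1 F' → Helper672.Plain.Mem (Z i).1 (O i).1) → ∀ i, i ∈ F → |Z i - Y i| < ε := by
  obtain ⟨B, hB, hB'⟩ := exists_ball hr hE hε
  refine ⟨code F, fun i => B (Y i), finite_code hF, isMap_iff.2 (IntF.comp (g := B) hB hY),
    fun i _ => (hB' _ _).2 (by rwa [sub_self, abs_zero]), fun Z hZ i hi =>
      (hB' _ _).1 (hZ i (mem_cpE'.2 hi))⟩

theorem inClosure_iff (hE : IsUsualTop tE r) {x : N} {e : Helper672.Plain.El x → Helper672.Plain.El j → Helper672.Plain.El r} {y : Helper672.Plain.El j → Helper672.Plain.El r}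
    (hy : IntF N y) : InClosure tE e y ↔ ∀ (F : IPow N (Helper672.Plain.El j)) (ε : Helper672.Plain.El r), IFin F → 0 < ε →
      ∃ p, ∀ i, i ∈ F → |e p i - y i| < ε := by
  constructor
  · intro h F ε hF hε
    obtain ⟨F', O, h1, h2, h3, h4⟩ := basicB hr hE (Y := y) hF hε hy
    obtain ⟨p, hp⟩ := h F' O h1 h2 h3
    exact ⟨p, h4 _ hp⟩
  · intro h F O hF hO h1
    obtain ⟨F', ε, h2, h3, h4⟩ := basicA hr hE hF hO hy h1
    obtain ⟨p, hp⟩ := h F' ε h2 h3
    exact ⟨p, h4 _ hp⟩

theorem isEmbedding_iff (hE : IsUsualTop tE r) {t x : N} {e : Helper672.Plain.El x → Helper672.Plain.El j → Helper672.Plain.El r}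
    (he : IntF N (fun q : Helper672.Plain.El x × Helper672.Plain.El j => e q.1 q.2)) : IsEmbedding t tE e ↔
      (∀ p q, (∀ i, e p i = e q i) → p = q) ∧
      ∀ u, (∀ z, Helper672.Plain.Mem z u → Helper672.Plain.Mem z x) → (Helper672.Plain.Mem u t ↔ ∀ p : Helper672.Plain.El x, Helper672.Plain.Mem p.1 u →
        ∃ (F : IPow N (Helper672.Plain.El j)) (ε : Helper672.Plain.El r), IFin F ∧ 0 < ε ∧
          ∀ q : Helper672.Plain.El x, (∀ i, i ∈ F → |e q i - e p i| < ε) → Helper672.Plain.Mem q.1 u) := by
  have hep : ∀ p, IntF N (fun i => e p i) := fun p =>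
    IntF.comp (g := fun q : Helper672.Plain.El x × Helper672.Plain.El j => e q.1 q.2) he (IntF.pair (IntF.const p) IntF.id)
  have key : ∀ (u : N) (p : Helper672.Plain.El x), (∃ (F : N) (O : Helper672.Plain.El j → Helper672.Plain.El tE), IsFinite F ∧ IsMap O ∧
        (∀ i, Helper672.Plain.Mem i.1 F → Helper672.Plain.Mem (e p i).1 (O i).1) ∧
        ∀ q : Helper672.Plain.El x, (∀ i, Helper672.Plain.Mem i.1 F → Helper672.Plain.Mem (e q i).1 (O i).1) → Helper672.Plain.Mem q.1 u) ↔
      ∃ (F : IPow N (Helper672.Plain.El j)) (ε : Helper672.Plain.El r), IFin F ∧ 0 < ε ∧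
          ∀ q : Helper672.Plain.El x, (∀ i, i ∈ F → |e q i - e p i| < ε) → Helper672.Plain.Mem q.1 u := by
    intro u p
    constructor
    · rintro ⟨F, O, hF, hO, h1, h2⟩
      obtain ⟨F', ε, h3, h4, h5⟩ := basicA hr hE hF hO (hep p) h1
      exact ⟨F', ε, h3, h4, fun q hq => h2 q (h5 _ hq)⟩
    · rintro ⟨F, ε, hF, hε, h1⟩
      obtain ⟨F', O, h2, h3, h4, h5⟩ := basicB hr hE (Y := fun i => e p i) hF hε (hep p)
      exact ⟨F', O, h2, h3, h4, fun q hq => h1 q (h5 _ hq)⟩
  constructor
  · rintro ⟨-, h1, h2⟩
    exact ⟨h1, fun u hu => (h2 u hu).trans (forall_congr' fun p => imp_congr_right fun _ => key u p)⟩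
  · rintro ⟨h1, h2⟩
    exact ⟨isMap₂_iff.2 he, h1, fun u hu =>
      (h2 u hu).trans (forall_congr' fun p => imp_congr_right fun _ => (key u p).symm)⟩

end

end Pool.Agent.Q301.BM
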